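import Pool.Agent.P.MP_11624f_co.Fold

set_option autoImplicit false
set_option linter.unusedSectionVars false
open Finset

namespace Pool.Agent.P.MP_11624f_co
open Ty

theorem Gr.tight_other {α : Type} [DecidableEq α] {G : Gr α} {x y a b : α} {Q : Finset α}
    (hy : y ∈ Q) (hs : (G.nb Q).card ≤ Q.card + 1) (ha : a ∈ G.inc x) (ha' : a ∈ G.inc y)
    (hb : b ∈ G.inc x) (hab : a ≠ b) :
    (G.nb (Q.erase x) \ {a, b}).card ≤ (Q.erase x).card := by
  by_cases hx : x ∈ Q
  · exact Gr.tight_erase hx hs ha hb hab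
  · rw [erase_eq_of_notMem hx]
    have h1 : G.nb Q \ {a, b} ⊆ (G.nb Q).erase a := by
      intro e he; simp only [mem_sdiff, mem_insert, mem_singleton, mem_erase] at he ⊢; tauto
    have h2 := card_le_card h1
    rw [card_erase_of_mem (Gr.mem_nb_of_inc hy ha')] at h2
    omega

theorem Gr.Ok.exists_inc {α : Type} [DecidableEq α] {G : Gr α} (h : G.Ok) {x : α} (hx : x ∈ G.A) :
    ∃ u, u ∈ G.inc x := by
  have := h.two_le_deg hx
  exact card_pos.1 (by unfold Gr.deg at this; omega)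

theorem Gr.eq_of_deg_two {α : Type} [DecidableEq α] {G : Gr α} {x a b c : α} (h : G.deg x = 2)
    (ha : a ∈ G.inc x) (hb : b ∈ G.inc x) (hab : a ≠ b) (hc : c ∈ G.inc x) : c = a ∨ c = b := by
  have h2 : ({a, b} : Finset α) ⊆ G.inc x := by
    intro e he; simp at he; rcases he with rfl | rfl <;> assumption
  have := eq_of_subset_of_card_le h2 (by rw [card_pair hab]; exact h.le)
  rw [← this] at hc; simpa using hc

theorem Gr.Ok.feas_deg_two {α : Type} [DecidableEq α] {G : Gr α} (h : G.Ok) {x a b : α}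
    (hd : G.deg x = 2) (ha : a ∈ G.inc x) (hb : b ∈ G.inc x) (hab : a ≠ b) :
    G.Feas (G.A.erase x) {a, b} := by
  obtain ⟨z, hz, hz1, hz2⟩ := h.pair_ext ha
  rcases Gr.eq_of_deg_two hd ha hb hab hz with rfl | rfl
  · exact absurd rfl hz1
  · exact hz2

namespace St
variable {α : Type} [DecidableEq α] [Fintype α] {P : St α}

theorem tyA {σ : Bool} {x : α} (h : x ∈ (P.gr σ).A) : P.ty x = A := (mem_A.1 h).1
theorem tyE {σ : Bool} {x : α} (h : x ∈ (P.gr σ).E) : P.ty x = D := (mem_E.1 h).1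
theorem tyI {σ : Bool} {x e : α} (h : e ∈ (P.gr σ).inc x) : P.ty e = D := tyE (Gr.inc_E h)
theorem lvA {x : α} (h : P.ty x = A) : (P.ty x).live = true := by rw [h]; rfl
theorem lvD {x : α} (h : P.ty x = D) : (P.ty x).live = true := by rw [h]; rfl
theorem lvC {x : α} (h : P.ty x = C) : (P.ty x).live = true := by rw [h]; rfl
theorem neOA {x : α} (h : P.ty x = A) : P.ty x ≠ O := by rw [h]; simp
theorem neOD {x : α} (h : P.ty x = D) : P.ty x ≠ O := by rw [h]; simp
theorem neOC {x : α} (h : P.ty x = C) : P.ty x ≠ O := by rw [h]; simp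

theorem WF.del1 (h : P.WF) {σ : Bool} {x : α} (hx : x ∈ (P.gr σ).A) (N Z : Finset α)
    (hN : N ⊆ (P.gr σ).E) (hZ : Z ⊆ (P.gr σ).inc x) (hF : (P.gr σ).Feas ((P.gr σ).A.erase x) Z) :
    ∃ t m, P.DelOut σ {x} N ∅ Z ((P.gr σ).A.erase x) t m :=
  h.toWF0.del σ {x} N ∅ Z _ (by simpa using hx) hN (by simp) (by simp)
    (by rw [union_empty, sdiff_singleton_eq_erase]) (hZ.trans subset_union_right) (by simp) (by simp) hF

section out
variable {σ : Bool} {H N W Z B : Finset α} {t : α → Ty} {m : α → α}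

theorem DelOut.good (d : P.DelOut σ H N W Z B t m) (h : P.WF) (L : List α) (hnd : L.Nodup)
    (hH : ∀ s ∈ H, s ∈ L) (hN : ∀ s ∈ N, s ∈ L) {j k : ℤ}
    (hg : (P.upd t m).Good j) (hk : k ≤ j + (L.map (P.c t)).sum) : P.Good k :=
  (d.step h).goodL h.toWF0 L hnd (fun s a b => (d.newX s a b).elim (hH s) (hN s)) hg hk

theorem Step.good0 (st : P.Step σ t m) (ih : P.IH) {x : α} (hx : (P.ty x).live = true)
    (hx' : t x = X) : (P.upd t m).Good 0 :=
  st.toRef.good0 ih (s := x) (by rw [hx']; intro a; rw [← a] at hx; cases hx)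

theorem DelOut.kill (d : P.DelOut σ H N W Z B t m) (h : P.WF) {y : α} (hy : y ∈ (P.gr σ).A)
    (hk : t y = K) : ∃ w t2, P.Step σ t2 m ∧ w ∈ (P.gr σ).inc y ∧ w ∉ N ∧ w ∉ Z ∧ t2 y = F ∧ t2 w = X ∧
      (∀ s, s ≠ y → s ≠ w → t2 s = t s) ∧
      ∀ s, t2 s = X → P.ty s ≠ X → s = w ∨ s ∈ H ∨ s ∈ N := by
  obtain ⟨a1, a2, a3⟩ := d.mateA y hy hk
  obtain ⟨t2, b1, b2, b3, b4⟩ := (d.step h).kill hk (lvA (tyA hy)) (lvD (tyI a1))
  refine ⟨m y, t2, b1, a1, a2, a3, b2, b3, b4, fun s c1 c2 => ?_⟩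
  by_cases c3 : s = m y
  · exact Or.inl c3
  · have c4 : s ≠ y := by rintro rfl; rw [b2] at c1; cases c1
    exact Or.inr (d.newX s (b4 s c4 c3 ▸ c1) c2)

end out

theorem WF.null_del (h : P.WF) (ih : P.IH) {s : α} (hs : (P.ty s).live = true) (hn : P.Null s) :
    P.Good 0 := by
  have : P.ty s = A ∨ P.ty s = D ∨ P.ty s = C := by
    revert hs; cases P.ty s <;> simp [live]
  rcases this with a | a | a
  · have hx : s ∈ (P.gr (P.side s)).A := mem_A.2 ⟨a, rfl⟩
    obtain ⟨t, m, d⟩ := h.del1 hx ∅ ∅ (by simp) (by simp) ((h.ok _).feas_empty (erase_subset _ _))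
    have st := d.step h
    have := st.c_null h.toWF0 (neOA a) hn
    exact d.good h [s] (by simp) (by simp) (by simp) (st.good0 ih hs (d.hX s (by simp)))
      (by simpa using this)
  · have hx : s ∈ (P.gr (P.side s)).E := mem_E.2 ⟨a, rfl⟩
    obtain ⟨t, m, d⟩ := h.toWF0.del (P.side s) ∅ {s} ∅ ∅ _ (by simp) (by simpa using hx) (by simp)
      (by simp) rfl (by simp) (by simp) (by simp) ((h.ok _).feas_empty sdiff_subset)
    have st := d.step h
    have := st.c_null h.toWF0 (neOD a) hn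
    exact d.good h [s] (by simp) (by simp) (by simp) (st.good0 ih hs (d.nX s (by simp)))
      (by simpa using this)
  · obtain ⟨t, m, st, b1, _, _, _, b5, _⟩ := h.delC a
    have := st.c_null h.toWF0 (neOC a) hn
    exact st.goodL h.toWF0 [s] (by simp) (fun s a b => by simp [b5 s a b]) (st.good0 ih hs b1)
      (by simpa using this)

theorem WF.nh (h : P.WF) (ih : P.IH) {σ : Bool} {x : α} (hx : x ∈ (P.gr σ).A) (hn : P.Null x)
    (hn' : ∀ e ∈ (P.gr σ).inc x, ¬ P.Null e) : P.Good 2 := by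
  obtain ⟨u, hu⟩ := (h.ok σ).exists_inc hx
  obtain ⟨z, hz, hzu, hf⟩ := (h.ok σ).pair_ext hu
  obtain ⟨t, m, d⟩ := h.del1 hx ∅ {u, z} (by simp) (by simp [insert_subset_iff, hu, hz]) hf
  have st := d.step h
  have a1 := tyA hx
  have a2 := tyI hu
  have a3 := tyI hz
  have := st.c_null h.toWF0 (neOA a1) hn
  have := st.c_F1 h.toWF0 (lvD a2) (hn' u hu) (d.zF u (by simp) (by simp))
  have := st.c_F1 h.toWF0 (lvD a3) (hn' z hz) (d.zF z (by simp) (by simp))
  exact d.good h [x, u, z] (by simp; grind) (by simp) (by simp)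
    (st.good0 ih (lvA a1) (d.hX x (by simp))) (by simp; omega)

theorem WF0.r1 (h : P.WF0) {c : α} (hc : P.ty c = C) : P.r c ≠ c :=
  fun a => h.l1 c hc (by have := h.lr c hc; rwa [a] at this)

theorem WF.delC_good (h : P.WF) (ih : P.IH) {c : α} (hc : P.ty c = C) {k : ℤ}
    (hk : ∀ t m, P.Step (P.side c) t m → t (P.l c) = F → t (P.r c) = F →
      k ≤ P.c t c + P.c t (P.l c) + P.c t (P.r c)) : P.Good k := by
  obtain ⟨t, m, st, b1, b2, b3, _, b5, _⟩ := h.delC hc
  have := hk t m st b2 b3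
  have a1 := h.l1 c hc
  have a2 := h.l2 c hc
  have a3 := h.toWF0.r1 hc
  exact st.goodL h.toWF0 [c, P.l c, P.r c] (by simp; grind) (fun s a b => by simp [b5 s a b])
    (st.good0 ih (lvC hc) b1) (by simp; omega)

theorem WF.nc (h : P.WF) (ih : P.IH) {c : α} (hc : P.ty c = C) (hn : P.Null c)
    (hl : ¬ P.Null (P.l c)) (hr : ¬ P.Null (P.r c)) : P.Good 2 := by
  refine h.delC_good ih hc fun t m st b2 b3 => ?_
  have := st.c_null h.toWF0 (neOC hc) hn
  have := st.c_F1 h.toWF0 (lvC (h.l_ty c hc).1) hl b2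
  have := st.c_F1 h.toWF0 (lvC (h.r_ty c hc).1) hr b3
  omega

theorem WF.b2c (h : P.WF) (ih : P.IH) {c : α} (hc : P.ty c = C) (hf : P.Fix c)
    (hn : ∀ v, P.ty v = C → P.side v = P.side c → ¬ P.Null v) : P.Good 2 := by
  have hl := h.l_ty c hc
  have hr := h.r_ty c hc
  by_cases f1 : P.Fix (P.l c)
  · by_cases f2 : P.Fix (P.r c)
    · refine h.delC_good ih hc fun t m st b2 b3 => ?_
      have := st.c_X5 h.toWF0 (neOC hc)
      have := st.c_F5 h.toWF0 (lvC hl.1) f1 b2
      have := st.c_F5 h.toWF0 (lvC hr.1) f2 b3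
      omega
    · refine h.delC_good ih hr.1 fun t m st b2 b3 => ?_
      have hrr := h.r_ty _ hr.1
      rw [h.lr c hc] at b2 ⊢
      have := st.c_X4 h.toWF0 (neOC hr.1) f2
      have := st.c_F5 h.toWF0 (lvC hc) hf b2
      have := st.c_F1 h.toWF0 (lvC hrr.1)
        (hn _ hrr.1 (h.c_side c _ hc hrr.1 (hrr.2.trans hr.2))) b3
      omega
  · refine h.delC_good ih hl.1 fun t m st b2 b3 => ?_
    have hll := h.l_ty _ hl.1
    rw [h.rl c hc] at b3 ⊢
    have := st.c_X4 h.toWF0 (neOC hl.1) f1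
    have := st.c_F5 h.toWF0 (lvC hc) hf b3
    have := st.c_F1 h.toWF0 (lvC hll.1)
      (hn _ hll.1 (h.c_side c _ hc hll.1 (hll.2.trans hl.2))) b2
    omega

section b2
variable (h : P.WF) (ih : P.IH) {σ : Bool} {g : α} (hf : P.Fix g)
include h ih hf

theorem WF.b2_a {x : α} (hg : g ∈ (P.gr σ).inc x) (hx : ¬ P.Fix x)
    (hn : ∀ e ∈ (P.gr σ).E, ¬ P.Null e) : P.Good 2 := by
  have xA := (h.ok σ).inc_A hg
  obtain ⟨z, hz, hzu, hF⟩ := (h.ok σ).pair_ext hg
  obtain ⟨t, m, d⟩ := h.del1 xA ∅ {g, z} (by simp) (by simp [insert_subset_iff, hg, hz]) hF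
  have st := d.step h
  have a1 := tyA xA
  have a2 := tyI hg
  have a3 := tyI hz
  have := st.c_X4 h.toWF0 (neOA a1) hx
  have := st.c_F5 h.toWF0 (lvD a2) hf (d.zF g (by simp) (by simp))
  have := st.c_F1 h.toWF0 (lvD a3) (hn z (Gr.inc_E hz)) (d.zF z (by simp) (by simp))
  exact d.good h [x, g, z] (by simp; grind) (by simp) (by simp)
    (st.good0 ih (lvA a1) (d.hX x (by simp))) (by simp; omega)

theorem WF.b2_b {x : α} (hg : g ∈ (P.gr σ).inc x) (hx : (P.gr σ).Big x)
    (hn : ∀ e ∈ (P.gr σ).E, ¬ P.Null e) : P.Good 2 := by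
  have xA := (h.ok σ).inc_A hg
  obtain ⟨z, hz, z', hz', e1, e2, e3, hF⟩ := (h.ok σ).triple_ext hx hg
  obtain ⟨t, m, d⟩ := h.del1 xA ∅ {g, z, z'} (by simp) (by simp [insert_subset_iff, hg, hz, hz']) hF
  have st := d.step h
  have a1 := tyA xA
  have a2 := tyI hg
  have a3 := tyI hz
  have a4 := tyI hz'
  have := st.c_X5 h.toWF0 (neOA a1)
  have := st.c_F5 h.toWF0 (lvD a2) hf (d.zF g (by simp) (by simp))
  have := st.c_F1 h.toWF0 (lvD a3) (hn z (Gr.inc_E hz)) (d.zF z (by simp) (by simp))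
  have := st.c_F1 h.toWF0 (lvD a4) (hn z' (Gr.inc_E hz')) (d.zF z' (by simp) (by simp))
  exact d.good h [x, g, z, z'] (by simp; grind) (by simp) (by simp)
    (st.good0 ih (lvA a1) (d.hX x (by simp))) (by simp; omega)

theorem WF.b2_c {x w : α} (hg : g ∈ (P.gr σ).inc x) (hw : w ∈ (P.gr σ).inc x) (hne : w ≠ g)
    (hw' : P.Fix w) (hF : (P.gr σ).Feas ((P.gr σ).A.erase x) {g, w}) : P.Good 2 := by
  have xA := (h.ok σ).inc_A hg
  obtain ⟨t, m, d⟩ := h.del1 xA ∅ {g, w} (by simp) (by simp [insert_subset_iff, hg, hw]) hF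
  have st := d.step h
  have a1 := tyA xA
  have a2 := tyI hg
  have a3 := tyI hw
  have := st.c_X5 h.toWF0 (neOA a1)
  have := st.c_F5 h.toWF0 (lvD a2) hf (d.zF g (by simp) (by simp))
  have := st.c_F5 h.toWF0 (lvD a3) hw' (d.zF w (by simp) (by simp))
  exact d.good h [x, g, w] (by simp; grind) (by simp) (by simp)
    (st.good0 ih (lvA a1) (d.hX x (by simp))) (by simp; omega)

theorem WF.b2_d {x y : α} (hg : g ∈ (P.gr σ).inc x) (hg' : g ∈ (P.gr σ).inc y) (hxy : y ≠ x)
    (hy : P.Fix y) (hb : ¬ (P.gr σ).Big y) (hw : ∀ w ∈ (P.gr σ).inc y, w ≠ g → ¬ P.Fix w)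
    (hn : ∀ e ∈ (P.gr σ).E, ¬ P.Null e) : P.Good 2 := by
  have xA := (h.ok σ).inc_A hg
  have yA := (h.ok σ).inc_A hg'
  obtain ⟨z, hz, hzu, hF⟩ := (h.ok σ).pair_ext hg
  obtain ⟨t, m, d⟩ := h.del1 xA ∅ {g, z} (by simp) (by simp [insert_subset_iff, hg, hz]) hF
  obtain ⟨Q, q1, q2, q3⟩ := Gr.not_big hb
  have a1 := tyA xA
  have a2 := tyI hg
  have a3 := tyI hz
  have a4 := tyA yA
  rcases d.tightA (Q.erase x) (erase_subset_erase x q1) (Gr.tight_other q2 q3 hg hg' hz hzu.symm)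
    y (mem_erase.2 ⟨hxy, q2⟩) with hk | hk
  · obtain ⟨w, t2, st, w1, _, w3, w4, w5, w6, w7⟩ := d.kill h yA hk
    simp only [mem_insert, mem_singleton, not_or] at w3
    have a5 := tyI w1
    have := st.c_X5 h.toWF0 (neOA a1)
    have := st.c_F5 h.toWF0 (lvD a2) hf
      ((w6 g (by grind) (by grind)).trans (d.zF g (by simp) (by simp)))
    have := st.c_F1 h.toWF0 (lvD a3) (hn z (Gr.inc_E hz))
      ((w6 z (by grind) (by grind)).trans (d.zF z (by simp) (by simp)))
    have := st.c_F5 h.toWF0 (lvA a4) hy w4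
    have := st.c_X4 h.toWF0 (neOD a5) (hw w w1 w3.1)
    exact st.goodL h.toWF0 [x, g, z, y, w] (by simp; grind)
      (fun s a b => by have := w7 s a b; simp at this ⊢; grind)
      (st.good0 ih (lvD a5) w5) (by simp; omega)
  · have st := d.step h
    have := st.c_X5 h.toWF0 (neOA a1)
    have := st.c_F5 h.toWF0 (lvD a2) hf (d.zF g (by simp) (by simp))
    have := st.c_F5 h.toWF0 (lvA a4) hy hk
    exact d.good h [x, g, y] (by simp; grind) (by simp) (by simp)
      (st.good0 ih (lvA a1) (d.hX x (by simp))) (by simp; omega)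

theorem WF.b2_clean (hg : g ∈ (P.gr σ).E) (hn : ∀ e ∈ (P.gr σ).E, ¬ P.Null e) : P.Good 2 := by
  have ok := h.ok σ
  have g1 : g ∈ (P.gr σ).inc (P.f g) := Gr.mem_inc.2 ⟨hg, Or.inl rfl⟩
  have g2 : g ∈ (P.gr σ).inc (P.g g) := Gr.mem_inc.2 ⟨hg, Or.inr rfl⟩
  have hne : P.f g ≠ P.g g := ok.ne g hg
  generalize P.f g = x at g1 hne
  generalize P.g g = y at g2 hne
  by_cases f1 : P.Fix x
  swap
  · exact h.b2_a ih hf g1 f1 hn
  by_cases f2 : P.Fix y
  swap
  · exact h.b2_a ih hf g2 f2 hn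
  by_cases b2 : (P.gr σ).Big y
  · exact h.b2_b ih hf g2 b2 hn
  by_cases c : ∀ w ∈ (P.gr σ).inc y, w ≠ g → ¬ P.Fix w
  · exact h.b2_d ih hf g1 g2 hne.symm f2 b2 c hn
  push Not at c
  obtain ⟨w, w1, w2, w3⟩ := c
  by_cases c2 : (P.gr σ).Feas ((P.gr σ).A.erase y) {g, w}
  · exact h.b2_c ih hf g2 w1 w2 w3 c2
  have d2 := ok.blocked_deg g2 w1 w2.symm c2
  have : x = (P.gr σ).oth g y := (Gr.eq_or_oth g2 g1).resolve_left hne
  rw [← this] at d2
  by_cases b1 : (P.gr σ).Big x
  · exact h.b2_b ih hf g1 b1 hn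
  by_cases c : ∀ w ∈ (P.gr σ).inc x, w ≠ g → ¬ P.Fix w
  · exact h.b2_d ih hf g2 g1 hne f1 b1 c hn
  push Not at c
  obtain ⟨v, v1, v2, v3⟩ := c
  exact h.b2_c ih hf g1 v1 v2 v3 (ok.feas_deg_two d2 g1 v1 v2.symm)

end b2

theorem null_upd {σ : Bool} {t : α → Ty} {m : α → α} (st : P.Step σ t m) (h : P.WF) {s : α}
    (hs : (P.ty s).live = true) (h0 : ¬ P.Null s) (h1 : (P.upd t m).Null s) :
    (P.opp s = false ∧ t (P.lam s) = X ∧ P.ty (P.lam s) ≠ X) ∨
    (P.opp s = true ∧ t (P.lam s) = F ∧ P.OppL (P.lam s) ∧ (P.ty (P.lam s)).live = true) := by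
  have sO := live_ne_O _ hs
  unfold Null nullB at h0 h1
  simp only [upd_opp, upd_ty, upd_lam] at h1
  cases ho : P.opp s
  · left; simp_all
  · right
    simp only [ho, if_true, decide_eq_true_eq] at h0 h1
    refine ⟨rfl, h1, ⟨(h.toWF0.opp_lam sO).trans ho, by rw [h.lam_lam s sO]; exact hs⟩, ?_⟩
    by_contra hc
    exact h0 ((ok_dead _ _ (st.tr _) (by simpa using hc)) ▸ h1)

theorem fix_upd {t : α → Ty} {m : α → α} (st : P.Ref t m) {s : α} (h0 : P.Fix s) :
    (P.upd t m).Fix s := by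
  unfold Fix fixB at h0 ⊢
  simp only [upd_opp, upd_ty, upd_lam]
  have := ok_dead _ _ (st.tr (P.lam s))
  cases ho : P.opp s <;> simp_all [live]

theorem side_of_opp {s : α} (h : P.opp s = true) : P.side (P.lam s) = P.side s := by
  unfold opp at h; exact (beq_iff_eq.1 h).symm

theorem side_of_eq {s : α} (h : P.opp s = false) : P.side (P.lam s) ≠ P.side s := by
  unfold opp at h; intro a; simp [a] at h

theorem WF.b2 (h : P.WF) (ih : P.IH) {σ : Bool} {g : α} (hf : P.Fix g) (hg : g ∈ (P.gr σ).E)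
    (hn : ∀ y ∈ (P.gr σ).A, ¬ P.Null y) : P.Good 2 := by
  classical
  have ok := h.ok σ
  set N0 := (P.gr σ).E.filter (fun e => P.Null e) with hN0
  have N0E : N0 ⊆ (P.gr σ).E := filter_subset _ _
  have gN : g ∉ N0 := by
    intro a
    have := (mem_filter.1 a).2
    unfold Null nullB at this; unfold Fix fixB at hf
    cases ho : P.opp g <;> simp_all
  have nn : ∀ e ∈ (P.gr σ).E, e ∉ N0 → ¬ P.Null e := fun e he a b => a (mem_filter.2 ⟨he, b⟩)
  have a2 := tyE hg
  -- a general closing step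
  have close : ∀ {H W Z B : Finset α} {t : α → Ty} {m : α → α}, P.DelOut σ H N0 W Z B t m →
      ∀ L : List α, L.Nodup → (∀ s ∈ L, s ∉ N0) → (∀ s ∈ H, s ∈ L) → (∃ s, t s ≠ P.ty s) →
      2 ≤ (L.map (P.c t)).sum → P.Good 2 := by
    intro H W Z B t m d L l1 l2 l3 l4 l5
    have st := d.step h
    obtain ⟨s0, hs0⟩ := l4
    refine st.good h.toWF0 (N0 ∪ L.toFinset) (fun s a b => ?_) (st.toRef.good0 ih hs0) ?_
    · rcases d.newX s a b with c | c
      · exact mem_union_right _ (List.mem_toFinset.2 (l3 s c))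
      · exact mem_union_left _ c
    · rw [sum_union (disjoint_right.2 fun s a => l2 s (List.mem_toFinset.1 a)),
        List.sum_toFinset (P.c t) l1]
      have : 0 ≤ ∑ s ∈ N0, P.c t s := sum_nonneg fun s hs =>
        st.c_null h.toWF0 (neOD (tyE (N0E hs))) (mem_filter.1 hs).2
      omega
  have AN : ∀ y ∈ (P.gr σ).A, y ∉ N0 := fun y hy a => ne_AE hy (N0E a) rfl
  by_cases hY : ∃ Y ⊆ (P.gr σ).A, g ∈ (P.gr σ).nb Y ∧ ((P.gr σ).nb Y \ N0).card ≤ Y.card
  · obtain ⟨Y, y1, y2, y3⟩ := hY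
    -- one end has only null other edges
    have caseW : ∀ x y, g ∈ (P.gr σ).inc x → g ∈ (P.gr σ).inc y → x ≠ y →
        (∀ e ∈ (P.gr σ).inc x, e ≠ g → e ∈ N0) →
        (P.Fix x ∨ ¬ P.Fix y ∨ ∃ z ∈ (P.gr σ).inc y, z ≠ g ∧ z ∉ N0) → P.Good 2 := by
      intro x y g1 g2 hxy hx hc
      have xA := ok.inc_A g1
      have yA := ok.inc_A g2
      have a1 := tyA xA
      have a3 := tyA yA
      obtain ⟨e0, e1, e2, _⟩ := ok.pair_ext g1
      have gB : g ∉ (P.gr σ).nb ((P.gr σ).A \ ({y} ∪ {x})) :=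
        Gr.not_mem_nb_of_ends g1 g2 hxy (by simp) (by simp)
      have dl : ∀ z ∈ (P.gr σ).inc y, ∃ t m, P.DelOut σ {y} N0 {x} {g, z} _ t m := fun z hz =>
        h.toWF0.del σ {y} N0 {x} {g, z} _ (by simpa using yA) N0E (by simpa using xA)
          (by simpa using hxy) rfl
          (by simp only [insert_subset_iff, singleton_subset_iff]
              exact ⟨mem_union_right _ g2, mem_union_right _ hz⟩)
          (by
            intro w hw e he
            rw [mem_singleton.1 hw] at he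
            by_cases c : e = g
            · simp [c]
            · exact mem_union_left _ (hx e he c))
          (by intro w hw; rw [mem_singleton.1 hw]; exact ⟨e0, hx e0 e1 e2, e1⟩)
          (ok.feas_eff sdiff_subset z (by
            intro e he he'; simp at he; rcases he with rfl | rfl
            · exact absurd he' gB
            · rfl))
      rcases hc with c | c | ⟨z, z1, z2, z3⟩
      · obtain ⟨t, m, d⟩ := dl g g2
        have st := d.step h
        have := st.c_X5 h.toWF0 (neOA a3)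
        have := st.c_F5 h.toWF0 (lvD a2) hf (d.zF g (by simp) gN)
        have := st.c_F5 h.toWF0 (lvA a1) c (d.wF x (by simp))
        exact close d [y, g, x] (by simp; grind) (by simp [AN x xA, AN y yA, gN]) (by simp)
          ⟨y, by rw [d.hX y (by simp), a3]; simp⟩ (by simp; omega)
      · obtain ⟨t, m, d⟩ := dl g g2
        have st := d.step h
        have := st.c_X4 h.toWF0 (neOA a3) c
        have := st.c_F5 h.toWF0 (lvD a2) hf (d.zF g (by simp) gN)
        have := st.c_F1 h.toWF0 (lvA a1) (hn x xA) (d.wF x (by simp))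
        exact close d [y, g, x] (by simp; grind) (by simp [AN x xA, AN y yA, gN]) (by simp)
          ⟨y, by rw [d.hX y (by simp), a3]; simp⟩ (by simp; omega)
      · obtain ⟨t, m, d⟩ := dl z z1
        have st := d.step h
        have a4 := tyI z1
        have := st.c_X5 h.toWF0 (neOA a3)
        have := st.c_F5 h.toWF0 (lvD a2) hf (d.zF g (by simp) gN)
        have := st.c_F1 h.toWF0 (lvA a1) (hn x xA) (d.wF x (by simp))
        have := st.c_F1 h.toWF0 (lvD a4) (nn z (Gr.inc_E z1) z3) (d.zF z (by simp) z3)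
        exact close d [y, g, x, z] (by simp; grind) (by simp [AN x xA, AN y yA, gN, z3]) (by simp)
          ⟨y, by rw [d.hX y (by simp), a3]; simp⟩ (by simp; omega)
    have caseF : ∀ x z, g ∈ (P.gr σ).inc x → z ∈ (P.gr σ).inc x → z ≠ g → z ∉ N0 →
        (P.gr σ).Feas ((P.gr σ).A.erase x) {g, z} → P.Good 2 := by
      intro x z g1 z1 z2 z3 hF
      have xA := ok.inc_A g1
      have a1 := tyA xA
      have a4 := tyI z1
      obtain ⟨t, m, d⟩ := h.del1 xA N0 {g, z} N0E (by simp [insert_subset_iff, g1, z1]) hF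
      have st := d.step h
      obtain ⟨s, s1, y, y4, y5, y6⟩ := d.fhead N0 Subset.rfl (by
        intro hc
        have b1 := hc (Y.erase x) (erase_subset_erase x y1)
        by_cases c : x ∈ Y
        · have b2 : (P.gr σ).nb (Y.erase x) \ ({g, z} ∪ N0) ⊆ ((P.gr σ).nb Y \ N0) \ {g, z} := by
            intro e he
            simp only [mem_sdiff, mem_union, not_or] at he ⊢
            exact ⟨⟨Gr.nb_mono (erase_subset _ _) he.1, he.2.2⟩, he.2.1⟩
          have b3 : ({g, z} : Finset α) ⊆ (P.gr σ).nb Y \ N0 := by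
            simp only [insert_subset_iff, singleton_subset_iff, mem_sdiff]
            exact ⟨⟨y2, gN⟩, Gr.mem_nb_of_inc c z1, z3⟩
          have b4 := card_le_card b2
          have b5 := card_le_card b3
          rw [card_sdiff_of_subset b3] at b4
          rw [card_pair z2.symm] at b4 b5
          rw [card_erase_of_mem c] at b1
          omega
        · rw [erase_eq_of_notMem c] at b1
          have b2 : (P.gr σ).nb Y \ ({g, z} ∪ N0) ⊆ ((P.gr σ).nb Y \ N0).erase g := by
            intro e he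
            simp only [mem_sdiff, mem_union, not_or, mem_erase, mem_insert] at he ⊢
            exact ⟨he.2.1.1, he.1, he.2.2⟩
          have b3 : g ∈ (P.gr σ).nb Y \ N0 := mem_sdiff.2 ⟨y2, gN⟩
          have b4 := card_le_card b2
          rw [card_erase_of_mem b3] at b4
          have := card_pos.2 ⟨g, b3⟩
          omega)
      obtain ⟨y7, yA⟩ := mem_erase.1 y4
      have a3 := tyA yA
      have := st.c_X5 h.toWF0 (neOA a1)
      have := st.c_F5 h.toWF0 (lvD a2) hf (d.zF g (by simp) gN)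
      have := st.c_F1 h.toWF0 (lvA a3) (hn y yA) y6
      have := st.c_F1 h.toWF0 (lvD a4) (nn z (Gr.inc_E z1) z3) (d.zF z (by simp) z3)
      exact close d [x, g, y, z] (by simp; grind) (by simp [AN x xA, AN y yA, gN, z3]) (by simp)
        ⟨x, by rw [d.hX x (by simp), a1]; simp⟩ (by simp; omega)
    have g1 : g ∈ (P.gr σ).inc (P.f g) := Gr.mem_inc.2 ⟨hg, Or.inl rfl⟩
    have g2 : g ∈ (P.gr σ).inc (P.g g) := Gr.mem_inc.2 ⟨hg, Or.inr rfl⟩
    have hne : P.f g ≠ P.g g := ok.ne g hg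
    generalize P.f g = x at g1 hne
    generalize P.g g = y at g2 hne
    by_cases c1 : ∀ e ∈ (P.gr σ).inc x, e ≠ g → e ∈ N0
    · by_cases c2 : ∀ e ∈ (P.gr σ).inc y, e ≠ g → e ∈ N0
      · by_cases f2 : P.Fix y
        · exact caseW y x g2 g1 hne.symm c2 (Or.inl f2)
        · exact caseW x y g1 g2 hne c1 (Or.inr (Or.inl f2))
      · push Not at c2
        exact caseW x y g1 g2 hne c1 (Or.inr (Or.inr c2))
    · push Not at c1
      by_cases c2 : ∀ e ∈ (P.gr σ).inc y, e ≠ g → e ∈ N0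
      · exact caseW y x g2 g1 hne.symm c2 (Or.inr (Or.inr c1))
      · push Not at c2
        obtain ⟨z, z1, z2, z3⟩ := c1
        obtain ⟨w, w1, w2, w3⟩ := c2
        by_cases c : (P.gr σ).Feas ((P.gr σ).A.erase x) {g, z}
        · exact caseF x z g1 z1 z2 z3 c
        · have d2 := ok.blocked_deg g1 z1 z2.symm c
          have : y = (P.gr σ).oth g x := (Gr.eq_or_oth g1 g2).resolve_left hne.symm
          rw [← this] at d2
          exact caseF y w g2 w1 w2 w3 (ok.feas_deg_two d2 g2 w1 w2.symm)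
  · rcases N0.eq_empty_or_nonempty with hE | ⟨s0, hs0⟩
    · exact h.b2_clean ih hf hg fun e he => nn e he (by rw [hE]; simp)
    obtain ⟨t, m, d⟩ := h.toWF0.del σ ∅ N0 ∅ ∅ _ (by simp) N0E (by simp)
      (by simp) rfl (by simp) (by simp) (by simp) (ok.feas_empty sdiff_subset)
    have st := d.step h
    have ch : ∃ s, t s ≠ P.ty s := ⟨s0, by rw [d.nX s0 hs0, tyE (N0E hs0)]; simp⟩
    by_cases hq : ∃ q, (P.ty q).live = true ∧ P.OppL q ∧ t q = F
    · obtain ⟨q, q1, q2, q3⟩ := hq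
      have qO := live_ne_O _ q1
      have := st.c_pair h.toWF0 q1 q2 q3
      have b1 : q ∉ N0 := fun a => by rw [d.nX q a] at q3; cases q3
      have b2 : P.lam q ∉ N0 := fun a => by
        have := (mem_filter.1 a).2
        unfold Null nullB at this
        rw [h.toWF0.opp_lam qO, h.lam_lam q qO, q2.1] at this
        simp only [if_true, decide_eq_true_eq] at this
        rw [this] at q1; cases q1
      have := h.lam_ne q qO
      exact close d [q, P.lam q] (by simp; grind) (by simp [b1, b2]) (by simp) ch (by simp; omega)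
    · have tg : t g = D := by
        by_contra hc
        rcases d.liveD g hg hc with a | ⟨Y, y1, y2, y3⟩
        · simp [Gr.nb_empty, gN] at a
        · exact hY ⟨Y, y1.trans sdiff_subset, y2, by simpa [Gr.nb_empty] using y3⟩
      have := st.wf.b2_clean (st.toRef.ih ih) (σ := σ) (fix_upd st.toRef hf)
        (mem_E.2 ⟨tg, (mem_E.1 hg).2⟩) (by
          intro e he hnull
          obtain ⟨e1, e2⟩ := mem_E.1 he
          have e3 : P.ty e = D := (ok_live _ _ (st.tr e) (by change t e = D at e1; rw [e1]; rfl)) ▸ e1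
          have e4 : e ∉ N0 := fun a => by
            change t e = D at e1; rw [d.nX e a] at e1; cases e1
          rcases null_upd st h (lvD e3) (nn e (mem_E.2 ⟨e3, e2⟩) e4) hnull with a | a
          · exact a.2.2 (st.off _ (fun b => side_of_eq a.1 (b.trans e2.symm)) ▸ a.2.1)
          · exact hq ⟨_, a.2.2.2, a.2.2.1, a.2.1⟩)
      have b0 : 0 ≤ ∑ s ∈ N0, P.c t s := sum_nonneg fun s hs =>
        st.c_null h.toWF0 (neOD (tyE (N0E hs))) (mem_filter.1 hs).2
      exact st.good h.toWF0 N0 (fun s a b => by simpa using d.newX s a b) this (by omega)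

def NoNull (P : St α) : Prop := ∀ s, (P.ty s).live = true → ¬ P.Null s

theorem Step.side_eq {σ : Bool} {t : α → Ty} {m : α → α} (st : P.Step σ t m) {s : α}
    (hs : t s ≠ P.ty s) : P.side s = σ := by
  by_contra a; exact hs (st.off s a)

/-- slots of the other side that become null -/
theorem Step.null_other {σ : Bool} {t : α → Ty} {m : α → α} (st : P.Step σ t m) (h : P.WF)
    (nn : P.NoNull) {q : α} (hq : (P.ty q).live = true) (hs : P.side q ≠ σ)
    (h1 : (P.upd t m).Null q) : t (P.lam q) = X ∧ P.ty (P.lam q) ≠ X ∧ P.opp (P.lam q) = false ∧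
      P.lam (P.lam q) = q := by
  have qO := live_ne_O _ hq
  rcases null_upd st h hq (nn q hq) h1 with a | a
  · exact ⟨a.2.1, a.2.2, (h.toWF0.opp_lam qO).trans a.1, h.lam_lam q qO⟩
  · have := st.off (P.lam q) (side_of_opp a.1 ▸ hs)
    have b := a.2.2.2
    rw [← this, a.2.1] at b; cases b

theorem Step.bonus {σ : Bool} {t : α → Ty} {m : α → α} (st : P.Step σ t m) (h : P.WF) (ih : P.IH)
    (nn : P.NoNull) {s : α} (hs : (P.ty s).live = true) (hF : t s = F) (ho : P.opp s = false)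
    (hD : P.ty (P.lam s) = D ∨ P.ty (P.lam s) = C)
    (hX : ∀ s, t s = X → P.ty s ≠ X → P.opp s = false → (P.ty (P.lam s)).live = true →
      P.ty (P.lam s) = D) : (P.upd t m).Good 2 := by
  have sO := live_ne_O _ hs
  have s1 : P.side s = σ := st.side_eq (by rw [hF]; intro a; rw [← a] at hs; cases hs)
  have s2 : P.side (P.lam s) ≠ σ := s1 ▸ side_of_eq ho
  have s3 := st.off _ s2
  have fx : (P.upd t m).Fix (P.lam s) := by
    unfold Fix fixB
    simp [h.toWF0.opp_lam sO, ho, h.lam_lam s sO, hF]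
  have key : ∀ q, P.side q = P.side (P.lam s) → (t q = A ∨ t q = C) → ¬ (P.upd t m).Null q := by
    intro q q1 q2 q3
    have q4 := st.off q (q1 ▸ s2)
    have q5 : (P.ty q).live = true := by rw [← q4]; rcases q2 with a | a <;> rw [a] <;> rfl
    obtain ⟨b1, b2, b3, b4⟩ := st.null_other h nn q5 (q1 ▸ s2) q3
    have := hX _ b1 b2 b3 (by rw [b4]; exact q5)
    rw [b4, ← q4] at this
    rcases q2 with a | a <;> rw [a] at this <;> cases this
  rcases hD with a | a
  · exact st.wf.b2 (st.toRef.ih ih) (σ := P.side (P.lam s)) fx (mem_E.2 ⟨s3.trans a, rfl⟩)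
      fun y hy => key y (mem_A.1 hy).2 (Or.inl (mem_A.1 hy).1)
  · exact st.wf.b2c (st.toRef.ih ih) (s3.trans a) fx fun v v1 v2 => key v v2 (Or.inr v1)

theorem Step.bonusN {σ : Bool} {t : α → Ty} {m : α → α} (st : P.Step σ t m) (h : P.WF) (ih : P.IH)
    (nn : P.NoNull) {w : α} (hs : (P.ty w).live = true) (hF : t w = X) (ho : P.opp w = false)
    (hD : P.ty (P.lam w) = A ∨ P.ty (P.lam w) = C)
    (hX : ∀ s, t s = X → P.ty s ≠ X → P.opp s = false → (P.ty (P.lam s)).live = true → s = w) :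
    (P.upd t m).Good 2 := by
  have sO := live_ne_O _ hs
  have s1 : P.side w = σ := st.side_eq (by rw [hF]; intro a; rw [← a] at hs; cases hs)
  have s2 : P.side (P.lam w) ≠ σ := s1 ▸ side_of_eq ho
  have s3 := st.off _ s2
  have nl : (P.upd t m).Null (P.lam w) := by
    unfold Null nullB
    simp [h.toWF0.opp_lam sO, ho, h.lam_lam w sO, hF]
  have key : ∀ q, P.side q = P.side (P.lam w) → q ≠ P.lam w → (t q).live = true →
      ¬ (P.upd t m).Null q := by
    intro q q1 q0 q2 q3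
    have q4 := st.off q (q1 ▸ s2)
    have q5 : (P.ty q).live = true := q4 ▸ q2
    obtain ⟨b1, b2, b3, b4⟩ := st.null_other h nn q5 (q1 ▸ s2) q3
    have := hX _ b1 b2 b3 (by rw [b4]; exact q5)
    exact q0 (by rw [← this, b4])
  rcases hD with a | a
  · have xA : P.lam w ∈ ((P.upd t m).gr (P.side (P.lam w))).A := mem_A.2 ⟨s3.trans a, rfl⟩
    exact st.wf.nh (st.toRef.ih ih) xA nl fun e he =>
      key e (mem_E.1 (Gr.inc_E he)).2 (ne_AE xA (Gr.inc_E he)).symm (lvD (tyI he))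
  · have c1 : (P.upd t m).ty (P.lam w) = C := s3.trans a
    have hl := st.wf.l_ty _ c1
    have hr := st.wf.r_ty _ c1
    exact st.wf.nc (st.toRef.ih ih) c1 nl
      (key _ (st.wf.c_side _ _ c1 hl.1 hl.2) (st.wf.l1 _ c1) (lvC hl.1))
      (key _ (st.wf.c_side _ _ c1 hr.1 hr.2) (st.wf.toWF0.r1 c1) (lvC hr.1))

end St
end Pool.Agent.P.MP_11624f_co
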