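import Pool.Agent.P.MP_11624f_co.Fix

set_option autoImplicit false
set_option linter.unusedSectionVars false
open Finset

namespace Pool.Agent.P.MP_11624f_co
open Ty

theorem Gr.Ok.feas_or {α : Type} [DecidableEq α] {G : Gr α} (h : G.Ok) {x u z z' : α}
    (hu : u ∈ G.inc x) (hz : z ∈ G.inc x) (hz' : z' ∈ G.inc x) (h1 : u ≠ z) (h2 : u ≠ z')
    (h3 : z ≠ z') : G.Feas (G.A.erase x) {u, z} ∨ G.Feas (G.A.erase x) {u, z'} := by
  by_contra hc
  rw [not_or] at hc
  exact h3 (h.blocked_unique hu hz hz' h1 h2 hc.1 hc.2)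

namespace St
variable {α : Type} [DecidableEq α] [Fintype α] {P : St α}

open Classical in
noncomputable def cap (P : St α) (x : α) : ℤ := if P.Fix x then 5 else if P.OppL x then 6 else 3
noncomputable def dl (P : St α) (σ : Bool) (x : α) : ℤ :=
  (P.gr σ).deg x + (P.Os σ x).card - P.cap x

theorem Red.lamO (h : P.Red) {σ : Bool} {x v : α} (hv : v ∈ P.Os σ x)
    (hl : P.lam v ∈ (P.gr σ).inc x) : P.lam v ∈ P.Os σ x ∧ P.lam v ≠ v ∧ P.lam (P.lam v) = v := by
  have a := neOD (tyI (mem_Os.1 hv).1)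
  exact ⟨mem_Os.2 ⟨hl, (h.wf.toWF0.opp_lam a).trans (mem_Os.1 hv).2⟩, h.wf.lam_ne v a,
    h.wf.lam_lam v a⟩

theorem Red.odd3 (h : P.Red) {σ : Bool} {x : α} (h3 : (P.Os σ x).card = 3) :
    ∃ v u p, P.Os σ x = {v, u, p} ∧ v ≠ u ∧ v ≠ p ∧ u ≠ p ∧ P.lam v ∉ (P.gr σ).inc x := by
  obtain ⟨a, b, c, h1, h2, h3, h4⟩ := card_eq_three.1 h3
  by_cases ca : P.lam a ∈ (P.gr σ).inc x
  swap
  · exact ⟨a, b, c, h4, h1, h2, h3, ca⟩
  by_cases cb : P.lam b ∈ (P.gr σ).inc x
  swap
  · exact ⟨b, a, c, by rw [h4, insert_comm], h1.symm, h3, h2, cb⟩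
  by_cases cc : P.lam c ∈ (P.gr σ).inc x
  swap
  · exact ⟨c, a, b, by rw [h4]; ext; simp; tauto, h2.symm, h3.symm, h1, cc⟩
  have e1 := h.lamO (v := a) (by simp [h4]) ca
  have e2 := h.lamO (v := b) (by simp [h4]) cb
  have e3 := h.lamO (v := c) (by simp [h4]) cc
  simp only [h4, mem_insert, mem_singleton] at e1 e2 e3
  grind

theorem lender {σ : Bool} {y a : α} (hd : (P.gr σ).deg y = 2) (ha : a ∈ (P.gr σ).inc y)
    (oa : P.opp a = false)
    (hh : ¬ P.Fix y → ¬ P.OppL y → ∀ g ∈ (P.gr σ).inc y, P.opp g = false) : P.dl σ y ≤ -1 := by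
  have h1 := card_Os_As (P := P) σ y
  have h2 : 0 < (P.As σ y).card := card_pos.2 ⟨a, mem_As.2 ⟨ha, oa⟩⟩
  unfold dl cap
  split_ifs with c1 c2
  · omega
  · omega
  · have : P.Os σ y = ∅ := by
      rw [eq_empty_iff_forall_notMem]
      intro g hg
      have := hh c1 c2 g (mem_Os.1 hg).1
      rw [(mem_Os.1 hg).2] at this; cases this
    rw [this]; simp; omega

theorem Red.cls (h : P.Red) (hg : ¬ P.Good 0) {σ : Bool} {x : α} (hx : x ∈ (P.gr σ).A) :
    P.dl σ x ≤ 0 ∨ (4 ≤ (P.gr σ).deg x ∧ P.dl σ x ≤ ((P.gr σ).deg x : ℤ) - 3 ∧ (P.gr σ).Big x) ∨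
      (P.dl σ x ≤ 1 ∧ 3 ≤ (P.gr σ).deg x ∧ ∃ Y, (P.gr σ).Petal x Y ∧ ∃ y ∈ Y, P.dl σ y ≤ -1) := by
  have w := h.wf.toWF0
  have ok := h.wf.ok σ
  have hc := card_Os_As (P := P) σ x
  have h2 := ok.two_le_deg hx
  have sm0 : ¬ P.kap x ≤ (P.Os σ x).card := fun a =>
    hg (h.sm hx ∅ ∅ (by simp) (by simp) (by simp) (ok.feas_empty (erase_subset _ _)) (by simpa using a))
  have sm1 : ∀ v ∈ P.Os σ x, P.lam v ∉ (P.gr σ).inc x → ¬ P.kap x ≤ (P.Os σ x).card + 1 :=
    fun v a b c => hg (h.sm hx ∅ {v} (by simp) (by simpa using a) (by simpa using b)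
      (by simpa using ok.feas_single (erase_subset _ _) v) (by simpa using c))
  have sm2 : ∀ u ∈ P.Os σ x, ∀ v ∈ P.Os σ x, u ≠ v → P.lam u ∉ (P.gr σ).inc x →
      P.lam v ∉ (P.gr σ).inc x → (P.gr σ).Feas ((P.gr σ).A.erase x) {u, v} →
      ¬ P.kap x ≤ (P.Os σ x).card + 2 :=
    fun u a v a' e b b' f c => hg (h.sm hx ∅ {u, v} (by simp) (by simp [insert_subset_iff, a, a'])
      (by simp [b, b']) (by simpa using f) (by rw [card_pair e]; simpa using c))
  have smA : ∀ a ∈ P.As σ x, ¬ P.kap x ≤ (P.Os σ x).card + 1 :=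
    fun v a c => hg (h.sm hx {v} ∅ (by simpa using a) (by simp) (by simp)
      (by simpa using ok.feas_single (erase_subset _ _) v) (by simpa using c))
  have small : ¬ (P.gr σ).Big x → (P.gr σ).deg x ≤ 4 := fun a => by
    obtain ⟨Q, q1, q2, q3⟩ := Gr.not_big a
    exact ok.small_deg q1 q2 q3
  have two : (P.Os σ x).card = 2 → ∃ u v, u ∈ (P.gr σ).inc x ∧ v ∈ (P.gr σ).inc x ∧ P.opp u = true ∧
      P.opp v = true ∧ u ≠ v ∧ P.Os σ x = {u, v} ∧ ((P.lam u = v ∧ P.lam v = u) ∨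
        (P.lam u ∉ (P.gr σ).inc x ∧ P.lam v ∉ (P.gr σ).inc x)) := by
    intro a
    obtain ⟨u, v, uv, e⟩ := card_eq_two.1 a
    have b1 : u ∈ P.Os σ x := by simp [e]
    have b2 : v ∈ P.Os σ x := by simp [e]
    refine ⟨u, v, (mem_Os.1 b1).1, (mem_Os.1 b2).1, (mem_Os.1 b1).2, (mem_Os.1 b2).2, uv, e, ?_⟩
    by_cases c1 : P.lam u ∈ (P.gr σ).inc x
    · have := h.lamO b1 c1
      simp only [e, mem_insert, mem_singleton] at this
      left; grind
    · by_cases c2 : P.lam v ∈ (P.gr σ).inc x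
      · have := h.lamO b2 c2
        simp only [e, mem_insert, mem_singleton] at this
        left; grind
      · exact Or.inr ⟨c1, c2⟩
  have neOA : ∀ u a, P.opp u = true → P.opp a = false → u ≠ a := by
    rintro u a b c rfl; rw [b] at c; cases c
  by_cases f : P.Fix x
  · have k := kap_fix f
    have no : ¬ P.OppL x := fun a => f.dead a.2
    have e : P.dl σ x = (P.gr σ).deg x + (P.Os σ x).card - 5 := by unfold dl cap; rw [if_pos f]
    by_cases o2 : (P.Os σ x).card ≤ 2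
    · by_cases big : (P.gr σ).Big x
      · by_cases a : P.dl σ x ≤ 0
        · exact Or.inl a
        · exact Or.inr (Or.inl ⟨by omega, by omega, big⟩)
      have := small big
      by_cases a : P.dl σ x ≤ 0
      · exact Or.inl a
      exfalso
      obtain ⟨u, v, u1, v1, u2, v2, uv, _, hl⟩ := two (by omega)
      obtain ⟨a1, a2, aa, ea⟩ := card_eq_two.1 (show (P.As σ x).card = 2 by omega)
      have b1 := mem_As.1 (show a1 ∈ P.As σ x by simp [ea])
      have b2 := mem_As.1 (show a2 ∈ P.As σ x by simp [ea])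
      have : ∃ a ∈ (P.gr σ).inc x, P.opp a = false ∧ (P.gr σ).Feas ((P.gr σ).A.erase x) {v, a} := by
        rcases ok.feas_or v1 b1.1 b2.1 (neOA _ _ v2 b1.2) (neOA _ _ v2 b2.2) aa with c | c
        · exact ⟨a1, b1.1, b1.2, c⟩
        · exact ⟨a2, b2.1, b2.2, c⟩
      obtain ⟨a, a3, a4, a5⟩ := this
      rcases hl with hl | hl
      · obtain ⟨Q, q1, q2, q3⟩ := Gr.not_big big
        have n1 := neOA _ _ u2 a4
        have n2 := neOA _ _ v2 a4
        refine hg (h.fh (Z0 := {v, a}) hx no (Gr.inc_E u1) u2 (by simp [hl.1]) (by simp [uv, n1])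
          (by simp [insert_subset_iff, v1, a3]) a5
          (Gr.small_not_triple q1 q2 q3 u1 v1 a3 uv n1 n2) (Or.inr ⟨?_, ?_⟩))
        · rw [card_pair n2]; omega
        · simp [hl.1, a4]
      · exact hg (h.ro_at2 no u1 u2 hl.1 v1 v2 hl.2 uv.symm a3 a4 a5)
    exfalso
    by_cases o3 : (P.Os σ x).card = 3
    · obtain ⟨v, u, p, eo, vu, vp, up, nv⟩ := h.odd3 o3
      have b1 : v ∈ P.Os σ x := by simp [eo]
      have b2 : u ∈ P.Os σ x := by simp [eo]
      have b3 : p ∈ P.Os σ x := by simp [eo]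
      obtain ⟨v1, v2⟩ := mem_Os.1 b1
      obtain ⟨u1, u2⟩ := mem_Os.1 b2
      obtain ⟨p1, p2⟩ := mem_Os.1 b3
      by_cases d3 : (P.gr σ).deg x = 3
      · by_cases c1 : P.lam u ∈ (P.gr σ).inc x
        · exact hg (h.f2 f u1 c1 u2 v1 nv v2 d3)
        have c2 : P.lam p ∉ (P.gr σ).inc x := by
          intro c
          have := h.lamO b3 c
          simp only [eo, mem_insert, mem_singleton] at this
          grind
        rcases ok.feas_or v1 u1 p1 vu vp up with c | c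
        · exact sm2 v b1 u b2 vu nv c1 c (by omega)
        · exact sm2 v b1 p b3 vp nv c2 c (by omega)
      · obtain ⟨a, ha⟩ := card_pos.1 (show 0 < (P.As σ x).card by omega)
        obtain ⟨a1, a2⟩ := mem_As.1 ha
        have n1 := neOA _ _ u2 a2
        have n2 := neOA _ _ p2 a2
        have n3 := neOA _ _ v2 a2
        exact hg (h.ro_at {a} no v1 v2 nv [a, u, p] (by simp; grind) (by simp; grind)
          (by simp [u2, p2]) (by simpa using a1) (ok.feas_single (erase_subset _ _) a) (by simp [k]))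
    have o4 : (P.Os σ x).card = 4 := by omega
    by_cases c : ∃ v ∈ P.Os σ x, P.lam v ∉ (P.gr σ).inc x
    · obtain ⟨v, v1, v2⟩ := c
      exact sm1 v v1 v2 (by omega)
    push Not at c
    by_cases d4 : (P.gr σ).deg x = 4
    · obtain ⟨u, hu⟩ := card_pos.1 (show 0 < (P.Os σ x).card by omega)
      obtain ⟨v, v1, v2⟩ := exists_mem_notMem_of_card_lt_card (s := {u, P.lam u}) (t := P.Os σ x)
        (by have := card_le_two (a := u) (b := P.lam u); omega)
      simp only [mem_insert, mem_singleton, not_or] at v2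
      exact hg (h.f4 f (mem_Os.1 hu).1 (c u hu) (mem_Os.1 hu).2 (mem_Os.1 v1).1 (c v v1)
        (mem_Os.1 v1).2 v2.1 v2.2 d4)
    · obtain ⟨a, ha⟩ := card_pos.1 (show 0 < (P.As σ x).card by omega)
      exact smA a ha (by omega)
  by_cases no : P.OppL x
  · have k := kap_opp no
    have e : P.dl σ x = (P.gr σ).deg x + (P.Os σ x).card - 6 := by
      unfold dl cap; rw [if_neg f, if_pos no]
    by_cases big : (P.gr σ).Big x
    · exfalso
      obtain ⟨u, hu⟩ := ok.exists_inc hx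
      obtain ⟨z, hz, z', hz', e1, e2, e3, hF⟩ := ok.triple_ext big hu
      exact hg (h.sm' hx {u, z, z'} ∅ (by simp [insert_subset_iff, hu, hz, hz']) (by simp) (by simp)
        (by simp) hF (by rw [card_eq_three.2 ⟨u, z, z', e1.symm, e2.symm, e3, rfl⟩, k]; simp))
    · have := small big
      left; omega
  have k : P.kap x = 4 := by unfold kap; rw [if_neg f, if_neg no]
  have e : P.dl σ x = (P.gr σ).deg x + (P.Os σ x).card - 3 := by
    unfold dl cap; rw [if_neg f, if_neg no]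
  have o3 : (P.Os σ x).card ≠ 3 := fun o3 => by
    obtain ⟨v, u, p, eo, _, _, _, nv⟩ := h.odd3 o3
    exact sm1 v (by simp [eo]) nv (by omega)
  by_cases o2 : (P.Os σ x).card = 2
  · exfalso
    obtain ⟨u, v, u1, v1, u2, v2, uv, eo, hl⟩ := two o2
    by_cases d2 : (P.gr σ).deg x = 2
    · rcases hl with hl | hl
      · exact hg (h.e1 f no u1 (hl.1 ▸ v1) u2 d2)
      · exact sm2 u (by simp [eo]) v (by simp [eo]) uv hl.1 hl.2 (ok.feas_deg_two d2 u1 v1 uv)
          (by omega)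
    obtain ⟨a, ha⟩ := card_pos.1 (show 0 < (P.As σ x).card by omega)
    obtain ⟨a1, a2⟩ := mem_As.1 ha
    have n1 := neOA _ _ u2 a2
    have n2 := neOA _ _ v2 a2
    rcases hl with hl | hl
    swap
    · exact hg (h.ro_at {a} no v1 v2 hl.2 [a, u] (by simp; grind) (by simp; grind)
          (by simp [u2]) (by simpa using a1) (ok.feas_single (erase_subset _ _) a) (by simp [k]))
    obtain ⟨Z, Ys, z1, z2, z3, z4, z5, _, z7⟩ :=
      (ok.feas_single (erase_subset x _) a).ext (P.As σ x)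
    by_cases c : ∃ a' ∈ Z, a' ≠ a
    · obtain ⟨a', b1, b2⟩ := c
      have b3 : a' ∈ P.As σ x := (mem_union.1 (z2 b1)).resolve_left (by simpa using b2)
      refine hg (h.sm hx {a, a'} ∅ (by simp [insert_subset_iff, ha, b3]) (by simp) (by simp)
        (z3.mono Subset.rfl fun e he _ => ?_) (by rw [card_pair b2.symm]; simp; omega))
      simp only [union_empty, mem_insert, mem_singleton] at he
      rcases he with rfl | rfl
      · exact z1 (by simp)
      · exact b1
    push Not at c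
    have xY : x ∉ Ys := fun b => by simpa using z4 b
    have hQ : insert x Ys ⊆ (P.gr σ).A := insert_subset hx (z4.trans (erase_subset _ _))
    have hs : ((P.gr σ).nb (insert x Ys)).card ≤ (insert x Ys).card + 2 := by
      have b1 : (P.gr σ).nb (insert x Ys) ⊆ ((P.gr σ).nb Ys \ Z) ∪ {a, u, v} := by
        intro e he
        by_cases b : e ∈ Z
        · simp [c e b]
        rw [Gr.nb_insert, mem_union] at he
        rcases he with he | he
        · cases oe : P.opp e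
          · exact mem_union_left _ (mem_sdiff.2
              ⟨(mem_union.1 (z7 (mem_As.2 ⟨he, oe⟩))).resolve_left b, b⟩)
          · have : e ∈ P.Os σ x := mem_Os.2 ⟨he, oe⟩
            rw [eo] at this
            exact mem_union_right _ (mem_insert_of_mem this)
        · exact mem_union_left _ (mem_sdiff.2 ⟨he, b⟩)
      have b2 := card_le_card b1
      have b3 := card_union_le ((P.gr σ).nb Ys \ Z) {a, u, v}
      have b4 : ({a, u, v} : Finset α).card ≤ 3 := card_le_three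
      rw [card_insert_of_notMem xY]; omega
    rcases ok.feas_or a1 u1 v1 n1.symm n2.symm uv with b | b
    · exact hg (h.e2 f no v1 (hl.2 ▸ u1) v2 a1 a2 (by rw [hl.2, pair_comm]; exact b) hQ
        (mem_insert_self _ _) hs)
    · exact hg (h.e2 f no u1 (hl.1 ▸ v1) u2 a1 a2 (by rw [hl.1, pair_comm]; exact b) hQ
        (mem_insert_self _ _) hs)
  by_cases a0 : P.dl σ x ≤ 0
  · exact Or.inl a0
  by_cases o1 : (P.Os σ x).card = 1
  · obtain ⟨u, eo⟩ := card_eq_one.1 o1
    have b0 : u ∈ P.Os σ x := by simp [eo]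
    obtain ⟨u1, u2⟩ := mem_Os.1 b0
    have nu : P.lam u ∉ (P.gr σ).inc x := fun c => by
      have := h.lamO b0 c
      simp only [eo, mem_singleton] at this
      exact this.2.1 this.1
    have nf : ∀ a ∈ P.As σ x, ∀ a' ∈ P.As σ x, a ≠ a' →
        ¬ (P.gr σ).Feas ((P.gr σ).A.erase x) {a, a'} := by
      intro a b a' b' aa hF
      obtain ⟨a1, a2⟩ := mem_As.1 b
      obtain ⟨a3, a4⟩ := mem_As.1 b'
      have n1 := neOA _ _ u2 a2
      have n2 := neOA _ _ u2 a4
      exact hg (h.ro_at {a, a'} no u1 u2 nu [a, a'] (by simp; grind) (by simp; grind)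
        (by simp) (by simp [insert_subset_iff, a1, a3]) hF (by simp [k]))
    have d3 : (P.gr σ).deg x = 3 := by
      by_contra c
      obtain ⟨a, b, c, h1, h2, h3, e1, e2, e3⟩ := two_lt_card_iff.1 (show 2 < (P.As σ x).card by omega)
      rcases ok.feas_or (mem_As.1 h1).1 (mem_As.1 h2).1 (mem_As.1 h3).1 e1 e2 e3 with d | d
      · exact nf a h1 b h2 e1 d
      · exact nf a h1 c h3 e2 d
    obtain ⟨a, h1, a', h3, aa⟩ := one_lt_card.1 (show 1 < (P.As σ x).card by omega)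
    obtain ⟨a1, a2⟩ := mem_As.1 h1
    obtain ⟨a3, a4⟩ := mem_As.1 h3
    obtain ⟨Y, y1, y2, y3, y4, y5⟩ := ok.blocked a1 a3 aa (nf a h1 a' h3 aa)
    have yY := Gr.oth_mem_of_nb a1 y2 y1.notMem
    have ay := Gr.oth_inc a1
    refine Or.inr (Or.inr ⟨by omega, by omega, Y, y1, _, yY, lender (y1.2.1 _ yY) ay a2 ?_⟩)
    intro _ _ g g1
    by_contra g2
    have g3 : P.opp g = true := by simpa using g2
    have n1 := neOA _ _ u2 a2
    have n2 := neOA _ _ u2 a4
    refine hg (h.l1 f u1 u2 nu a1 a2 ?_ y1.1 y4 yY (y1.2.1 _ yY) ay g1 g3 fun c => ?_)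
    · rw [pair_comm]
      exact (ok.feas_or a1 u1 a3 n1.symm aa n2).resolve_right (nf a h1 a' h3 aa)
    · rcases y5 g (Gr.mem_nb_of_inc yY g1) c with d | d
      · exact neOA _ _ g3 a2 d
      · exact neOA _ _ g3 a4 d
  have o0 : (P.Os σ x).card = 0 := by omega
  by_cases big : (P.gr σ).Big x
  · exact Or.inr (Or.inl ⟨by omega, by omega, big⟩)
  have := small big
  obtain ⟨Q, q1, q2, q3⟩ := Gr.not_big big
  obtain ⟨p1, p2⟩ := ok.petal_of_four q1 q2 q3 (by omega)
  refine Or.inr (Or.inr ⟨by omega, by omega, _, p1, ?_⟩)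
  have hA : ∀ e ∈ (P.gr σ).inc x, P.opp e = false := by
    intro e he
    by_contra c
    have : e ∈ P.Os σ x := mem_Os.2 ⟨he, by simpa using c⟩
    rw [card_eq_zero.1 o0] at this; simp at this
  by_contra hn
  push Not at hn
  have ex : ∀ e ∈ (P.gr σ).inc x, ∃ g ∈ (P.gr σ).inc ((P.gr σ).oth e x), P.opp g = true := by
    intro e he
    by_contra c
    push Not at c
    have := lender (p1.2.1 _ (p2 e he)) (Gr.oth_inc he) (hA e he) fun _ _ g g1 => by simpa using c g g1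
    have := hn _ (p2 e he)
    omega
  obtain ⟨a, b, c, h1, h2, h3, e1, e2, e3⟩ :=
    two_lt_card_iff.1 (show 2 < ((P.gr σ).inc x).card by unfold Gr.deg at *; omega)
  obtain ⟨ga, a1, a2⟩ := ex a h1
  obtain ⟨gb, b1, b2⟩ := ex b h2
  obtain ⟨gc, c1, c2⟩ := ex c h3
  have l2 : ∀ {e e' g g'}, e ∈ (P.gr σ).inc x → e' ∈ (P.gr σ).inc x →
      g ∈ (P.gr σ).inc ((P.gr σ).oth e x) → g' ∈ (P.gr σ).inc ((P.gr σ).oth e' x) →
      P.opp g = true → P.opp g' = true → g = g' := by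
    intro e e' g g' i1 i2 i3 i4 i5 i6
    by_contra i7
    exact hg (h.l2 f no q1 q2 q3 hA (Gr.mem_nb_of_inc (p2 e i1) i3) (Gr.mem_nb_of_inc (p2 e' i2) i4)
      i7 i5 i6)
  have dist : ∀ {e e' g}, e ∈ (P.gr σ).inc x → e' ∈ (P.gr σ).inc x → e ≠ e' →
      g ∈ (P.gr σ).inc ((P.gr σ).oth e x) → P.opp g = true →
      (P.gr σ).oth e x ≠ (P.gr σ).oth e' x := by
    intro e e' g i1 i2 i3 i4 i5 i6
    rcases Gr.eq_of_deg_two (p1.2.1 _ (p2 e i1)) (Gr.oth_inc i1) (i6 ▸ Gr.oth_inc i2) i3 i4 with d | d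
    · exact neOA _ _ i5 (hA e i1) d
    · exact neOA _ _ i5 (hA e' i2) d
  rw [← l2 h1 h2 a1 b1 a2 b2] at b1
  rw [← l2 h1 h3 a1 c1 a2 c2] at c1
  rcases Gr.two_ends a1 b1 c1 (dist h1 h2 e1 a1 a2) with d | d
  · exact dist h1 h3 e2 a1 a2 d.symm
  · exact dist h2 h3 e3 b1 a2 d.symm

end St
end Pool.Agent.P.MP_11624f_co
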