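import Pool.Agent.P.MP_11624f_co.Moves

set_option autoImplicit false
set_option linter.unusedSectionVars false
open Finset

namespace Pool.Agent.P.MP_11624f_co
open Ty

namespace St
variable {α : Type} [DecidableEq α] [Fintype α] {P : St α}

theorem kap_fix {x : α} (h : P.Fix x) : P.kap x = 5 := if_pos h
theorem kap_le4 {x : α} (h : ¬ P.Fix x) : P.kap x ≤ 4 := by
  unfold kap; rw [if_neg h]; split_ifs <;> omega
theorem kap_opp {x : α} (h : P.OppL x) : P.kap x = 3 := by
  unfold kap; rw [if_neg (not_fix_of_live h.2), if_pos h]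

theorem Red.sumZ (h : P.Red) {σ : Bool} {t : α → Ty} {m : α → α} (st : P.Step σ t m)
    {Z : Finset α} {s : α} (hZ : ∀ e ∈ Z, P.ty e = D ∧ t e = F) (hs : P.ty s = D)
    (ho : P.opp s = true) (hl : P.lam s ∈ Z) :
    (Z.card : ℤ) + 1 ≤ P.c t s + ∑ e ∈ Z, P.c t e := by
  have w := h.wf.toWF0
  have o := h.oppL hs ho
  have c1 := st.c_pair w o.2 (o.lam w (lvD hs)) (hZ _ hl).2
  rw [w.lam_lam s (neOD hs)] at c1
  rw [← add_sum_erase _ _ hl]
  have : ∑ e ∈ Z.erase (P.lam s), (1 : ℤ) ≤ ∑ e ∈ Z.erase (P.lam s), P.c t e :=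
    sum_le_sum fun e he => by
      have := hZ e (mem_of_mem_erase he)
      exact st.c_F1 w (lvD this.1) (h.nn e (lvD this.1)) this.2
  simp only [sum_const, card_erase_of_mem hl, nsmul_eq_mul, mul_one] at this
  have := card_pos.2 ⟨_, hl⟩
  omega

theorem Red.lemG (h : P.Red) {σ : Bool} {v y s : α} {Z0 Q : Finset α} (hv : v ∈ (P.gr σ).A)
    (hvo : ¬ P.OppL v) (ho : P.opp s = true) (hl : P.lam s ∈ Z0)
    (hs : s ∉ Z0) (hZ : Z0 ⊆ (P.gr σ).inc v)
    (hF : (P.gr σ).Feas ((P.gr σ).A.erase v) (insert s Z0)) (hk : P.kap v ≤ Z0.card + 2)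
    (hsy : s ∈ (P.gr σ).inc y) (hQ : Q ⊆ (P.gr σ).A.erase v) (hyQ : y ∈ Q)
    (ht : ((P.gr σ).nb Q \ insert s Z0).card ≤ Q.card)
    (hw : ∀ w, s ∈ (P.gr σ).inc w → w ≠ v → ¬ P.OppL w) : P.Good 0 := by
  have w := h.wf.toWF0
  have ok := h.wf.ok σ
  obtain ⟨g, y2, Z2, b1, b2, b3, b4, b5, b6, b7, b8, b9, b10⟩ := ok.lemG hs hF hsy hQ hyQ ht
  have a1 := tyA hv
  have a2 := tyA b1
  have a3 := tyI hsy
  have sE := Gr.inc_E hsy
  have Z0Z2 : Z0 ⊆ Z2 := (subset_insert _ _).trans b5
  have cZ : Z0.card + 1 ≤ Z2.card := by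
    have := card_le_card b5; rwa [card_insert_of_notMem b4] at this
  by_cases main : y2 = v ∨ (¬ P.Fix y2 ∧ Z0.card + 2 ≤ Z2.card) ∨ Z0.card + 3 ≤ Z2.card
  · have Z2nb : Z2 ⊆ (P.gr σ).nb {v, y2} := fun e he => by
      rcases mem_union.1 (b6 he) with a | a
      · exact Gr.mem_nb_of_inc (by simp) (hZ a)
      · exact Gr.mem_nb_of_inc (by simp) a
    have HA : ({v, y2} : Finset α) ⊆ (P.gr σ).A := by simp [insert_subset_iff, hv, b1]
    obtain ⟨t, m, d⟩ := w.del σ {v, y2} {s} ∅ Z2 (((P.gr σ).A.erase v).erase y2) HA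
      (by simpa using sE) (by simp) (by simp) (by ext; simp; tauto)
      (Z2nb.trans subset_union_right) (by simp) (by simp) b8
    have st := d.step h.wf
    obtain ⟨s', s1, y0, c1, c2, c3⟩ := d.fhead {s} Subset.rfl b9
    rw [mem_singleton.1 s1] at c2
    simp only [mem_erase] at c1
    have a4 := tyA c1.2.2
    have tyZ : ∀ e ∈ Z2, P.ty e = D := fun e he => tyE (Gr.nb_subset_E _ (Z2nb he))
    have k1 := h.sumZ st (fun e he => ⟨tyZ e he, d.zF e he (by simp; rintro rfl; exact b7 he)⟩) a3 ho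
      (Z0Z2 hl)
    have k2 := st.c_head w a1 (fun a => absurd a hvo)
    have k3 : ∃ j, (P.upd t m).Good j ∧ 3 ≤ j + P.c t y0 := by
      by_cases f : P.Fix y0
      · exact ⟨0, st.good0 h.ih (lvA a1) (d.hX v (by simp)),
          by have := st.c_F5 w (lvA a4) f c3; omega⟩
      · exact ⟨2, h.bonusH d HA (by simpa using ho) a4 c3 f (hw y0 c2 c1.2.1),
          by have := st.c_F1 w (lvA a4) (h.nn _ (lvA a4)) c3; omega⟩
    obtain ⟨j, k3, k4⟩ := k3
    have n0 : ∀ x, P.ty x = A → x ∉ Z2 := fun x a b => by rw [tyZ x b] at a; cases a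
    refine st.good w (insert y0 (insert s ({v, y2} ∪ Z2))) (fun q a b => ?_) k3 ?_
    · have := d.newX q a b
      simp only [mem_insert, mem_singleton, mem_union] at this ⊢; tauto
    · rw [sum_insert (by simp [n0 y0 a4]; grind), sum_insert (by simp [b7]; grind),
        sum_union (by simp [n0 v a1, n0 y2 a2])]
      by_cases e : y2 = v
      · rw [e, pair_eq_singleton, sum_singleton]; omega
      · rw [sum_pair (Ne.symm e)]
        have := st.c_X5 w (neOA a2)
        rcases main with a | a | a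
        · exact absurd a e
        · have := st.c_X4 w (neOA a2) a.1
          omega
        · omega
  · simp only [not_or, not_and, not_le] at main
    obtain ⟨c1, c2⟩ := b10.resolve_left main.1
    have f : P.Fix y2 := by by_contra a; have := main.2.1 a; omega
    obtain ⟨Q2, q1, q2, q3⟩ := c2.resolve_left (by omega)
    obtain ⟨t, m, d⟩ := h.wf.del1' hv {s} (insert s Z0) (by simpa using sE)
      (insert_subset (by simp) (hZ.trans subset_union_right)) hF
    have st := d.step h.wf
    have k1 := h.sumZ st (Z := Z0) (fun e he => ⟨tyI (hZ he),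
      d.zF e (mem_insert_of_mem he) (by simp; rintro rfl; exact hs he)⟩) a3 ho hl
    have k2 := st.c_head w a1 (fun a => absurd a hvo)
    have n0 : ∀ x, P.ty x = A → x ∉ Z0 := fun x a b => by rw [tyI (hZ b)] at a; cases a
    refine h.ft d (insert v (insert s Z0)) (by simp) (by simp) b1 f (d.tightA Q2 q1 q3 y2 q2)
      (by simp [n0 y2 a2]; grind) (fun e e1 _ e3 => ⟨?_, fun e4 e5 => ?_⟩) ?_
    · have := tyI e1
      simp only [mem_insert, not_or] at e3 ⊢; grind
    · have a5 := tyI e1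
      have o := h.oppL a5 e4
      have := d.newX _ e5 (live_ne_X o.2)
      simp only [mem_singleton] at this
      rcases this with a | a
      · exact hvo (a ▸ o.lam w (lvD a5))
      · exact e3 (mem_insert_of_mem (by rw [← a, w.lam_lam e (neOD a5)] at hl; exact hl))
    · rw [sum_insert (by simp [n0 v a1]; grind), sum_insert hs]; omega

theorem Red.opp_o (h : P.Red) {σ : Bool} {c p : α} (hc : P.OppL c) (hp : p ∈ (P.gr σ).inc c)
    (ho : P.opp p = true) (hl : P.lam p ∉ (P.gr σ).inc c) : P.Good 0 := by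
  have ok := h.wf.ok σ
  obtain ⟨z, z1, z2, z3⟩ := ok.pair_ext hp
  exact h.sm' (ok.inc_A hp) {p, z} {p} (by simp [insert_subset_iff, hp, z1]) (by simp)
    (by simpa using ho) (by simpa using hl) z3 (by rw [kap_opp hc, card_pair z2.symm]; simp)

theorem Red.e1 (h : P.Red) {σ : Bool} {x u : α} (hf : ¬ P.Fix x) (hx : ¬ P.OppL x)
    (hu : u ∈ (P.gr σ).inc x) (hp : P.lam u ∈ (P.gr σ).inc x) (ho : P.opp u = true)
    (hd : (P.gr σ).deg x = 2) : P.Good 0 := by
  have w := h.wf.toWF0
  have ok := h.wf.ok σ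
  have a2 := tyI hu
  have up := w.lam_ne u (neOD a2)
  have op : P.opp (P.lam u) = true := (w.opp_lam (neOD a2)).trans ho
  have cp := fun t m (st : P.Step σ t m) => st.c_pair w (lvD a2) (h.oppL a2 ho)
  generalize P.lam u = p at hp up op cp
  have a3 := tyI hp
  have xA := ok.inc_A hu
  have bA := ok.oth_A hu
  have bx := ok.oth_ne hu
  have ub := Gr.oth_inc hu
  generalize (P.gr σ).oth u x = b at bA bx ub
  have a1 := tyA xA
  have a4 := tyA bA
  have hinc : ∀ e ∈ (P.gr σ).inc x, e = u ∨ e = p := fun e he =>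
    Gr.eq_of_deg_two hd hu hp up.symm he
  have : ∃ z ∈ (P.gr σ).inc b, z ≠ u ∧ z ≠ p := by
    by_contra hc
    push Not at hc
    have b1 := ok.sur {b, x} (by simp [insert_subset_iff, xA, bA]) (by simp)
    have b2 : (P.gr σ).nb {b, x} ⊆ {u, p} := by
      intro e he
      obtain ⟨y, y1, y2⟩ := Gr.exists_inc_of_nb he
      simp only [mem_insert, mem_singleton] at y1 ⊢
      rcases y1 with rfl | rfl
      · by_cases a : e = u
        · exact Or.inl a
        · exact Or.inr (hc e y2 a)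
      · exact hinc e y2
    have b3 := card_le_card b2
    rw [card_pair up.symm] at b3
    rw [card_pair bx] at b1; omega
  obtain ⟨z, z1, z2, z3⟩ := this
  have a5 := tyI z1
  obtain ⟨t, m, d⟩ := w.del σ {b} {p} {x} {u, z} _ (by simpa using bA)
    (by simpa using Gr.inc_E hp) (by simpa using xA) (by simpa using bx.symm) rfl
    (by simp only [insert_subset_iff, singleton_subset_iff]
        exact ⟨mem_union_right _ ub, mem_union_right _ z1⟩)
    (by intro y hy e he; rw [mem_singleton.1 hy] at he; have := hinc e he; simp; tauto)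
    (by simpa using hp)
    (ok.feas_eff sdiff_subset z (by
      intro e he he'; simp only [mem_insert, mem_singleton] at he; rcases he with rfl | rfl
      · exact absurd he' (Gr.not_mem_nb_of_ends hu ub bx.symm (by simp) (by simp))
      · rfl))
  have st := d.step h.wf
  have := st.c_X5 w (neOA a4)
  have := cp t m st (d.zF u (by simp) (by simpa using up.symm))
  have := st.c_F1 w (lvA a1) (h.nn _ (lvA a1)) (d.wF x (by simp))
  have := st.c_F1 w (lvD a5) (h.nn _ (lvD a5)) (d.zF z (by simp) (by simpa using z3))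
  exact d.good h.wf [b, p, u, z, x] (by simp; grind) (by simp) (by simp)
    (h.bonusH d (by simpa using bA) (by simpa using op) a1 (d.wF x (by simp)) hf hx) (by simp; omega)

/-- the deleted edge frees a head -/
theorem Red.fh (h : P.Red) {σ : Bool} {v s : α} {Z0 : Finset α} (hv : v ∈ (P.gr σ).A)
    (hvo : ¬ P.OppL v) (hsE : s ∈ (P.gr σ).E) (ho : P.opp s = true) (hl : P.lam s ∈ Z0)
    (hs : s ∉ Z0) (hZ : Z0 ⊆ (P.gr σ).inc v)
    (hF : (P.gr σ).Feas ((P.gr σ).A.erase v) Z0)
    (hF' : ¬ (P.gr σ).Feas ((P.gr σ).A.erase v) (insert s Z0))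
    (hk : P.kap v ≤ Z0.card + 2 ∨ (P.kap v ≤ Z0.card + 3 ∧
      ∀ e ∈ Z0, P.opp e = true → e = P.lam s)) : P.Good 0 := by
  have w := h.wf.toWF0
  obtain ⟨t, m, d⟩ := h.wf.del1 hv {s} Z0 (by simpa using hsE) hZ hF
  have st := d.step h.wf
  have a1 := tyA hv
  have a3 := tyE hsE
  obtain ⟨s', s1, y0, c1, c2, c3⟩ := d.fhead {s} Subset.rfl (by
    rwa [union_comm, ← insert_eq])
  simp only [mem_erase] at c1
  have a4 := tyA c1.2
  have k1 := h.sumZ st (Z := Z0) (fun e he => ⟨tyI (hZ he),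
    d.zF e he (by simp; rintro rfl; exact hs he)⟩) a3 ho hl
  have k2 := st.c_head w a1 (fun a => absurd a hvo)
  have k3 := st.c_F1 w (lvA a4) (h.nn _ (lvA a4)) c3
  have n0 : ∀ x, P.ty x = A → x ∉ Z0 := fun x a b => by rw [tyI (hZ b)] at a; cases a
  have g0 := st.good0 h.ih (lvA a1) (d.hX v (by simp))
  have cov : ∀ q, t q = X → P.ty q ≠ X → q ∈ insert y0 (insert v (insert s Z0)) := fun q a b => by
    have := d.newX q a b
    simp only [mem_insert, mem_singleton] at this ⊢; tauto
  have sm : ∑ q ∈ insert y0 (insert v (insert s Z0)), P.c t q =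
      P.c t y0 + (P.c t v + (P.c t s + ∑ q ∈ Z0, P.c t q)) := by
    rw [sum_insert (by simp [n0 y0 a4]; grind), sum_insert (by simp [n0 v a1]; grind), sum_insert hs]
  rcases hk with hk | hk
  · exact st.good w _ cov g0 (by rw [sm]; omega)
  by_cases f : P.Fix y0
  · have := st.c_F5 w (lvA a4) f c3
    exact st.good w _ cov g0 (by rw [sm]; omega)
  by_cases o : P.OppL y0
  · have k4 := st.c_pair w (lvA a4) o c3
    have yO := neOA a4
    have ol := o.lam w (lvA a4)
    have inv : P.lam (P.lam y0) = y0 := w.lam_lam y0 yO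
    have n1 : P.lam y0 ∉ insert y0 (insert v (insert s Z0)) := by
      simp only [mem_insert, not_or]
      refine ⟨w.lam_ne y0 yO, fun a => hvo (a ▸ ol), fun a => n0 y0 a4 (by rw [← inv, a]; exact hl),
        fun a => ?_⟩
      have := w.lam_inj yO (neOD a3) (hk.2 _ a ol.1)
      rw [this, a3] at a4; cases a4
    exact st.good w (insert (P.lam y0) _) (fun q a b => mem_insert_of_mem (cov q a b)) g0
      (by rw [sum_insert n1, sm]; omega)
  · exact st.good w _ cov (h.bonusH d (by simpa using hv) (by simpa using ho) a4 c3 f o)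
      (by rw [sm]; omega)

theorem Red.e2 (h : P.Red) {σ : Bool} {x u a : α} {Q : Finset α} (hf : ¬ P.Fix x) (hx : ¬ P.OppL x)
    (hu : u ∈ (P.gr σ).inc x) (hp : P.lam u ∈ (P.gr σ).inc x) (ho : P.opp u = true)
    (ha : a ∈ (P.gr σ).inc x) (hao : P.opp a = false)
    (hF : (P.gr σ).Feas ((P.gr σ).A.erase x) {P.lam u, a})
    (hQ : Q ⊆ (P.gr σ).A) (hxQ : x ∈ Q) (hs : ((P.gr σ).nb Q).card ≤ Q.card + 2) : P.Good 0 := by
  have w := h.wf.toWF0
  have ok := h.wf.ok σ
  have a2 := tyI hu
  have up := w.lam_ne u (neOD a2)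
  have op : P.opp (P.lam u) = true := (w.opp_lam (neOD a2)).trans ho
  have lp : P.lam (P.lam u) = u := w.lam_lam u (neOD a2)
  obtain ⟨p, hpe⟩ : ∃ p, P.lam u = p := ⟨_, rfl⟩
  rw [hpe] at hp up op lp hF
  have a3 := tyI hp
  have a5 := tyI ha
  have au : a ≠ u := by rintro rfl; rw [ho] at hao; cases hao
  have ap : a ≠ p := by rintro rfl; rw [op] at hao; cases hao
  have xA := ok.inc_A hu
  have bA := ok.oth_A hu
  have bx := ok.oth_ne hu
  have ub := Gr.oth_inc hu
  have k4 := kap_le4 hf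
  have c2 : ({p, a} : Finset α).card = 2 := card_pair ap.symm
  have sub2 : ({p, a} : Finset α) ⊆ (P.gr σ).inc x := by simp [insert_subset_iff, hp, ha]
  have un : u ∉ ({p, a} : Finset α) := by simp [up.symm, au.symm]
  by_cases F1 : (P.gr σ).Feas ((P.gr σ).A.erase x) (insert u {p, a})
  swap
  · exact h.fh xA hx (Gr.inc_E hu) ho (by simp [hpe]) un sub2 hF F1 (Or.inl (by rw [c2]; omega))
  have d3 : (P.gr σ).deg x ≠ 2 := fun b => by
    rcases Gr.eq_of_deg_two b hu hp up.symm ha with c | c <;> contradiction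
  have ends : ∀ y, u ∈ (P.gr σ).inc y → y ≠ x → y = (P.gr σ).oth u x := fun y b c =>
    (Gr.eq_or_oth hu b).resolve_left c
  have xo : (P.gr σ).oth u ((P.gr σ).oth u x) = x := ((Gr.eq_or_oth ub hu).resolve_left bx.symm).symm
  generalize (P.gr σ).oth u x = b at bA bx ub ends xo
  have a1 := tyA xA
  have a4 := tyA bA
  by_cases tb : ∃ Q' ⊆ (P.gr σ).A.erase x, b ∈ Q' ∧
      ((P.gr σ).nb Q' \ insert u {p, a}).card ≤ Q'.card
  · obtain ⟨Q', q1, q2, q3⟩ := tb
    by_cases e : ¬ P.Fix b ∧ ¬ P.OppL b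
    · exact h.lemG xA hx ho (by simp [hpe]) un sub2 F1 (by rw [c2]; omega) ub q1 q2 q3
        (fun y b c => ends y b c ▸ e.2)
    obtain ⟨t, m, d⟩ := h.wf.del1 xA ∅ (insert u {p, a}) (by simp) (insert_subset hu sub2) F1
    have st := d.step h.wf
    have tb := d.tightA Q' q1 q3 b q2
    have := st.c_X4 w (neOA a1) hf
    have := st.c_F1 w (lvD a2) (h.nn _ (lvD a2)) (d.zF u (by simp) (by simp))
    have := st.c_F1 w (lvD a3) (h.nn _ (lvD a3)) (d.zF p (by simp) (by simp))
    have := st.c_F1 w (lvD a5) (h.nn _ (lvD a5)) (d.zF a (by simp) (by simp))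
    have nx : ∀ s, (P.ty s).live = true → P.OppL s → t (P.lam s) ≠ X := fun s b c e => by
      have := d.newX _ e (live_ne_X c.2)
      simp only [mem_singleton, notMem_empty, or_false] at this
      exact hx (this ▸ c.lam w b)
    by_cases fb : P.Fix b
    · refine h.ft d {x, u, p, a} (by simp) (by simp) bA fb tb (by simp; grind)
        (fun e e1 _ e3 => ⟨?_, fun e4 => nx e (lvD (tyI e1)) (h.oppL (tyI e1) e4)⟩) ?_
      · have := tyI e1
        simp only [mem_insert, mem_singleton, not_or] at e3 ⊢; grind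
      · rw [sum_insert (by simp; grind), sum_insert un, sum_pair ap.symm]; omega
    · have ob : P.OppL b := by by_contra c; exact e ⟨fb, c⟩
      have := st.c_K1 w (lvA a4) ob tb (nx b (lvA a4) ob)
      exact d.good h.wf [x, u, p, a, b] (by simp; grind) (by simp) (by simp)
        (st.good0 h.ih (lvA a1) (d.hX x (by simp))) (by simp; omega)
  -- b is not tight
  set I := ({u, p} : Finset α).filter (fun e => e ∈ (P.gr σ).inc b) with hI
  have uI : u ∈ I := by simp [hI, ub]
  have Isub : I ⊆ {u, p} := filter_subset _ _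
  have Ic : I.card ≤ 2 := (card_le_card Isub).trans card_le_two
  have FI : (P.gr σ).Feas ((P.gr σ).A.erase b) I := by
    by_cases c : p ∈ (P.gr σ).inc b
    · by_contra hc
      have := ok.blocked_deg ub c up.symm fun e => hc (e.mono Subset.rfl fun e he _ => Isub he)
      rw [xo] at this; exact d3 this
    · exact ok.feas_eff (erase_subset _ _) u fun e he _ => by
        simp only [hI, mem_filter, mem_insert, mem_singleton] at he
        rcases he.1 with rfl | rfl
        · rfl
        · exact absurd he.2 c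
  obtain ⟨Z, Ys, z1, z2, z3, z4, _, z6⟩ := Gr.ext_at (G := P.gr σ) (x := b) (notMem_erase _ _) FI
  have big : 2 ≤ (Z \ I).card := by
    by_contra hc
    apply tb
    have Q2A : insert b Ys ⊆ (P.gr σ).A := insert_subset bA (z4.trans (erase_subset _ _))
    refine ⟨(insert b Ys).erase x, erase_subset_erase _ Q2A, mem_erase.2 ⟨bx, by simp⟩, ?_⟩
    by_cases c : x ∈ insert b Ys
    · have b1 : (P.gr σ).nb ((insert b Ys).erase x) \ insert u {p, a} ⊆
          (P.gr σ).nb (insert b Ys) \ insert u {p, a} :=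
        sdiff_subset_sdiff (Gr.nb_mono (erase_subset _ _)) Subset.rfl
      have b2 := card_le_card b1
      have b3 : insert u {p, a} ⊆ (P.gr σ).nb (insert b Ys) :=
        (insert_subset hu sub2).trans (Gr.inc_subset_nb c)
      rw [card_sdiff_of_subset b3, card_insert_of_notMem un, c2] at b2
      have b4 := le_card_sdiff I ((P.gr σ).nb (insert b Ys))
      rw [card_erase_of_mem c]
      omega
    · rw [erase_eq_of_notMem c]
      have b1 : (P.gr σ).nb (insert b Ys) \ insert u {p, a} ⊆ (P.gr σ).nb (insert b Ys) \ I :=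
        sdiff_subset_sdiff Subset.rfl (Isub.trans (by simp [insert_subset_iff]))
      have b2 := card_le_card b1
      omega
  obtain ⟨z, z', zz, y1, y2, y3, y4⟩ := Gr.exists_two_of_card big
  have zi : ∀ z ∈ Z, z ∉ I → z ∈ (P.gr σ).inc b ∧ z ≠ u ∧ z ≠ p := fun z b c => by
    have := (mem_union.1 (z2 b)).resolve_left c
    exact ⟨this, fun e => c (e ▸ uI), fun e => c (by simp [hI, e ▸ this, e])⟩
  obtain ⟨r1, r2, r3⟩ := zi z y1 y2
  obtain ⟨r4, r5, r6⟩ := zi z' y3 y4
  have a6 := tyI r1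
  have a7 := tyI r4
  have sub3 : ({u, z, z'} : Finset α) ⊆ (P.gr σ).inc b := by simp [insert_subset_iff, ub, r1, r4]
  have F3 : (P.gr σ).Feas ((P.gr σ).A.erase b) {u, z, z'} := z3.mono Subset.rfl fun e he _ => by
    simp only [mem_insert, mem_singleton] at he
    rcases he with rfl | rfl | rfl
    · exact z1 uI
    · exact y1
    · exact y3
  have c3 : ({u, z, z'} : Finset α).card = 3 := card_eq_three.2 ⟨u, z, z', r2.symm, r5.symm, zz, rfl⟩
  have pn : p ∉ ({u, z, z'} : Finset α) := by simp [up, r3.symm, r6.symm]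
  by_cases fb : P.Fix b
  swap
  · obtain ⟨t, m, d⟩ := h.wf.del1 bA {p} {u, z, z'} (by simpa using Gr.inc_E hp) sub3 F3
    have st := d.step h.wf
    have := st.c_X4 w (neOA a4) fb
    have := st.c_pair w (lvD a2) (h.oppL a2 ho) (d.zF u (by simp) (by simpa using up.symm))
    rw [hpe] at this
    have := st.c_F1 w (lvD a6) (h.nn _ (lvD a6)) (d.zF z (by simp) (by simpa using r3))
    have := st.c_F1 w (lvD a7) (h.nn _ (lvD a7)) (d.zF z' (by simp) (by simpa using r6))
    exact d.good h.wf [b, p, u, z, z'] (by simp; grind) (by simp) (by simp)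
      (st.good0 h.ih (lvA a4) (d.hX b (by simp))) (by simp; omega)
  have ob : ¬ P.OppL b := fun c => fb.dead c.2
  by_cases F4 : (P.gr σ).Feas ((P.gr σ).A.erase b) (insert p {u, z, z'})
  swap
  · exact h.fh bA ob (Gr.inc_E hp) op (by simp [lp]) pn sub3 F3 F4
      (Or.inl (by rw [c3, kap_fix fb]; omega))
  by_cases oc : ∃ c, p ∈ (P.gr σ).inc c ∧ c ≠ b ∧ P.OppL c
  · obtain ⟨c, c1, c2, c3⟩ := oc
    refine h.opp_o c3 c1 op ?_
    rw [lp]; intro e
    rcases Gr.two_ends hu ub e bx.symm with rfl | rfl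
    · exact hx c3
    · exact c2 rfl
  push Not at oc
  have up2 : ({u, p} : Finset α) ⊆ (P.gr σ).nb Q :=
    by simp [insert_subset_iff, Gr.mem_nb_of_inc hxQ hu, Gr.mem_nb_of_inc hxQ hp]
  have bQ : b ∉ Q := by
    intro c
    have b0 := F4 (Q.erase b) (erase_subset_erase _ hQ)
    have b1 : (P.gr σ).nb (Q.erase b) \ insert p {u, z, z'} ⊆ (P.gr σ).nb Q \ insert p {u, z, z'} :=
      sdiff_subset_sdiff (Gr.nb_mono (erase_subset _ _)) Subset.rfl
    have b2 := card_le_card b1
    have b3 : insert p {u, z, z'} ⊆ (P.gr σ).nb Q :=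
      insert_subset (Gr.mem_nb_of_inc hxQ hp) (sub3.trans (Gr.inc_subset_nb c))
    rw [card_sdiff_of_subset b3, card_insert_of_notMem pn, c3] at b2
    rw [card_erase_of_mem c] at b0
    have := one_lt_card.2 ⟨b, c, x, hxQ, bx⟩
    omega
  refine h.lemG (Q := Q) bA ob op (by simp [lp]) pn sub3 F4 (by rw [c3, kap_fix fb]; omega) hp
    (fun e he => mem_erase.2 ⟨fun c => bQ (c ▸ he), hQ he⟩) hxQ ?_ oc
  have b1 : (P.gr σ).nb Q \ insert p {u, z, z'} ⊆ (P.gr σ).nb Q \ {u, p} :=
    sdiff_subset_sdiff Subset.rfl (by simp [insert_subset_iff])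
  have b2 := card_le_card b1
  rw [card_sdiff_of_subset up2, card_pair up.symm] at b2
  omega

end St
end Pool.Agent.P.MP_11624f_co
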