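import Pool.Agent.P.MP_11624f_co.State

set_option autoImplicit false
set_option linter.unusedSectionVars false
open Finset

namespace Pool.Agent.P.MP_11624f_co
open Ty

theorem Gr.Feas.matching {α : Type} [DecidableEq α] {G : Gr α} {B Z Ys : Finset α}
    (h : G.Feas B Z) (hY : Ys ⊆ B) (hc : (G.nb Ys \ Z).card = Ys.card) :
    ∃ φ ψ : α → α, (∀ y ∈ Ys, φ y ∈ G.inc y ∧ φ y ∉ Z ∧ ψ (φ y) = y) ∧
      ∀ e ∈ G.nb Ys \ Z, ψ e ∈ Ys ∧ φ (ψ e) = e := by
  classical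
  obtain ⟨f, hf1, hf2⟩ := (all_card_le_biUnion_card_iff_exists_injective
    (fun y : {y // y ∈ Ys} => G.inc y.1 \ Z)).1 (by
      intro s
      have h1 := h (s.map (Function.Embedding.subtype _)) (by
        intro y hy
        obtain ⟨a, _, rfl⟩ := mem_map.1 hy
        exact hY a.2)
      rw [card_map] at h1
      refine h1.trans (card_le_card ?_)
      intro e he
      obtain ⟨he1, he2⟩ := mem_sdiff.1 he
      obtain ⟨y, hy, hy'⟩ := Gr.exists_inc_of_nb he1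
      obtain ⟨a, ha, rfl⟩ := mem_map.1 hy
      exact mem_biUnion.2 ⟨a, ha, mem_sdiff.2 ⟨hy', he2⟩⟩)
  set φ : α → α := fun y => if hy : y ∈ Ys then f ⟨y, hy⟩ else y with hφ
  have φ1 : ∀ y ∈ Ys, φ y ∈ G.inc y \ Z := by
    intro y hy; simp only [hφ, dif_pos hy]; exact hf2 ⟨y, hy⟩
  have φ2 : Set.InjOn φ Ys := by
    intro a ha b hb hab
    have ha' : a ∈ Ys := ha
    have hb' : b ∈ Ys := hb
    simp only [hφ, dif_pos ha', dif_pos hb'] at hab
    exact congrArg Subtype.val (hf1 hab)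
  have φ3 : Ys.image φ = G.nb Ys \ Z := by
    refine eq_of_subset_of_card_le ?_ (by rw [card_image_of_injOn φ2, hc])
    intro e he
    obtain ⟨y, hy, rfl⟩ := mem_image.1 he
    have := mem_sdiff.1 (φ1 y hy)
    exact mem_sdiff.2 ⟨Gr.mem_nb_of_inc hy this.1, this.2⟩
  have hex : ∀ e, ∃ y, e ∈ G.nb Ys \ Z → y ∈ Ys ∧ φ y = e := by
    intro e
    by_cases he : e ∈ G.nb Ys \ Z
    · rw [← φ3] at he
      obtain ⟨y, hy, hy'⟩ := mem_image.1 he
      exact ⟨y, fun _ => ⟨hy, hy'⟩⟩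
    · exact ⟨e, fun a => absurd a he⟩
  choose ψ hψ using hex
  refine ⟨φ, ψ, fun y hy => ?_, hψ⟩
  have h1 := mem_sdiff.1 (φ1 y hy)
  have h2 := hψ (φ y) (by rw [← φ3]; exact mem_image_of_mem _ hy)
  exact ⟨h1.1, h1.2, φ2 h2.1 hy h2.2⟩

namespace St
variable {α : Type} [DecidableEq α] [Fintype α] {P : St α}

theorem gr_off {σ τ : Bool} {t : α → Ty} {m : α → α} (hoff : ∀ s, P.side s ≠ σ → t s = P.ty s)
    (hτ : τ ≠ σ) : (P.upd t m).gr τ = P.gr τ := by
  unfold gr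
  congr 1
  · refine filter_congr fun s _ => ?_
    simp only [upd_ty, upd_side]
    constructor <;> rintro ⟨a, b⟩
    · exact ⟨(hoff s (b ▸ hτ)) ▸ a, b⟩
    · exact ⟨(hoff s (b ▸ hτ)).trans a, b⟩
  · refine filter_congr fun s _ => ?_
    simp only [upd_ty, upd_side]
    constructor <;> rintro ⟨a, b⟩
    · exact ⟨(hoff s (b ▸ hτ)) ▸ a, b⟩
    · exact ⟨(hoff s (b ▸ hτ)).trans a, b⟩

theorem ne_AE {σ : Bool} {y e : α} (hy : y ∈ (P.gr σ).A) (he : e ∈ (P.gr σ).E) : y ≠ e := by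
  rintro rfl
  have := (mem_A.1 hy).1.symm.trans (mem_E.1 he).1
  cases this

structure DelOut (P : St α) (σ : Bool) (H N W Z B : Finset α) (t : α → Ty) (m : α → α) : Prop where
  tr : ∀ s, (P.ty s).ok (t s) = true
  sat : ∀ S, (P.upd t m).Sat S → P.Sat S
  off : ∀ s, P.side s ≠ σ → t s = P.ty s
  wf0 : (P.upd t m).WF0
  sur : ∀ Y ⊆ ((P.upd t m).gr σ).A, Y.Nonempty → Y.card + 1 ≤ (((P.upd t m).gr σ).nb Y).card
  hX : ∀ s ∈ H, t s = X
  nX : ∀ s ∈ N, t s = X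
  newX : ∀ s, t s = X → P.ty s ≠ X → s ∈ H ∨ s ∈ N
  wF : ∀ s ∈ W, t s = F
  zF : ∀ s ∈ Z, s ∉ N → t s = F
  cC : ∀ s, P.ty s = C → t s = C
  tightA : ∀ Y ⊆ B, ((P.gr σ).nb Y \ Z).card ≤ Y.card → ∀ y ∈ Y, t y = K ∨ t y = F
  tightE : ∀ Y ⊆ B, ((P.gr σ).nb Y \ Z).card ≤ Y.card →
    ∀ e ∈ (P.gr σ).nb Y, e ∉ N → t e = K ∨ t e = F
  opt : ∀ x ∈ H, ∀ e ∈ (P.gr σ).inc x, e ∉ N → t e = K ∨ t e = F
  fhead : ∀ N0 ⊆ N, ¬ (P.gr σ).Feas B (Z ∪ N0) → ∃ s ∈ N0, ∃ y ∈ B, s ∈ (P.gr σ).inc y ∧ t y = F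
  mateA : ∀ y ∈ (P.gr σ).A, t y = K → m y ∈ (P.gr σ).inc y ∧ m y ∉ N ∧ m y ∉ Z
  mateD : ∀ e ∈ (P.gr σ).E, t e = K → e ∈ (P.gr σ).inc (m e) ∧ m e ∈ B
  liveD : ∀ e ∈ (P.gr σ).E, t e ≠ D → e ∈ N ∪ (P.gr σ).nb H ∨
    ∃ Y ⊆ B, e ∈ (P.gr σ).nb Y ∧ ((P.gr σ).nb Y \ (N ∪ (P.gr σ).nb H)).card ≤ Y.card

theorem DelOut.step {σ : Bool} {H N W Z B : Finset α} {t : α → Ty} {m : α → α}
    (d : P.DelOut σ H N W Z B t m) (h : P.WF) : P.Step σ t m := by
  refine ⟨⟨d.tr, d.sat, ⟨d.wf0, fun τ => ?_⟩⟩, d.off⟩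
  by_cases hτ : τ = σ
  · subst hτ; exact d.sur
  · rw [gr_off d.off hτ]; exact h.sur τ

theorem WF0.del (h : P.WF0) (σ : Bool) (H N W Z B : Finset α)
    (hH : H ⊆ (P.gr σ).A) (hN : N ⊆ (P.gr σ).E) (hW : W ⊆ (P.gr σ).A)
    (hHW : ∀ s ∈ W, s ∉ H) (hB : B = (P.gr σ).A \ (H ∪ W))
    (hZ : Z ⊆ N ∪ (P.gr σ).nb H)
    (hW1 : ∀ w ∈ W, (P.gr σ).inc w ⊆ N ∪ Z) (hW2 : ∀ w ∈ W, ∃ e ∈ N, e ∈ (P.gr σ).inc w)
    (hF : (P.gr σ).Feas B Z) : ∃ t m, P.DelOut σ H N W Z B t m := by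
  classical
  set G := P.gr σ with hG
  obtain ⟨Zp, Xs, z1, z2, z3, x1, x2, x3, x4⟩ := hF.ext (N ∪ G.nb H)
  obtain ⟨φ, ψ, hφ, hψ⟩ := z3.matching x1 x2
  set M := G.nb Xs \ Zp with hM
  have z2' : Zp ⊆ N ∪ G.nb H := fun e he => by
    rcases mem_union.1 (z2 he) with a | a
    · exact hZ a
    · exact a
  have hBA : ∀ y, y ∈ B ↔ y ∈ G.A ∧ y ∉ H ∧ y ∉ W := by intro y; rw [hB]; simp
  have tyH : ∀ s ∈ H, P.ty s = A := fun s hs => (mem_A.1 (hH hs)).1
  have tyW : ∀ s ∈ W, P.ty s = A := fun s hs => (mem_A.1 (hW hs)).1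
  have XsA : ∀ s ∈ Xs, s ∈ G.A := fun s hs => ((hBA s).1 (x1 hs)).1
  have tyXs : ∀ s ∈ Xs, P.ty s = A := fun s hs => (mem_A.1 (XsA s hs)).1
  have XsH : ∀ s ∈ Xs, s ∉ H := fun s hs => ((hBA s).1 (x1 hs)).2.1
  have XsW : ∀ s ∈ Xs, s ∉ W := fun s hs => ((hBA s).1 (x1 hs)).2.2
  have ZpE : ∀ s ∈ Zp, s ∈ G.E := fun s hs => by
    rcases mem_union.1 (z2' hs) with a | a
    · exact hN a
    · exact Gr.nb_subset_E _ a
  have ME : ∀ s ∈ M, s ∈ G.E := fun s hs => Gr.nb_subset_E _ (mem_sdiff.1 hs).1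
  have tyN : ∀ s ∈ N, P.ty s = D := fun s hs => (mem_E.1 (hN hs)).1
  have tyZp : ∀ s ∈ Zp, P.ty s = D := fun s hs => (mem_E.1 (ZpE s hs)).1
  have tyM : ∀ s ∈ M, P.ty s = D := fun s hs => (mem_E.1 (ME s hs)).1
  have MZ : ∀ s ∈ M, s ∉ Zp := fun s hs => (mem_sdiff.1 hs).2
  have φM : ∀ y ∈ Xs, φ y ∈ M := fun y hy =>
    mem_sdiff.2 ⟨Gr.mem_nb_of_inc hy (hφ y hy).1, (hφ y hy).2.1⟩
  set t : α → Ty := fun s => if s ∈ H ∨ s ∈ N then X else if s ∈ W ∨ s ∈ Zp then F else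
    if s ∈ Xs then (if φ s ∈ N then F else K) else if s ∈ M then K else P.ty s with ht
  set m : α → α := fun s => if s ∈ Xs then φ s else if s ∈ M then ψ s else P.mate s with hm
  have tcase : ∀ s, ((s ∈ H ∨ s ∈ N) ∧ t s = X) ∨
      (s ∉ H ∧ s ∉ N ∧ (s ∈ W ∨ s ∈ Zp) ∧ t s = F) ∨
      (s ∈ Xs ∧ φ s ∈ N ∧ t s = F) ∨ (s ∈ Xs ∧ φ s ∉ N ∧ t s = K) ∨
      (s ∈ M ∧ s ∉ N ∧ t s = K) ∨
      (s ∉ H ∧ s ∉ N ∧ s ∉ W ∧ s ∉ Zp ∧ s ∉ Xs ∧ s ∉ M ∧ t s = P.ty s) := by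
    intro s
    by_cases a1 : s ∈ H ∨ s ∈ N
    · exact Or.inl ⟨a1, if_pos a1⟩
    have a1' := not_or.1 a1
    by_cases a2 : s ∈ W ∨ s ∈ Zp
    · exact Or.inr (Or.inl ⟨a1'.1, a1'.2, a2, (if_neg a1).trans (if_pos a2)⟩)
    have a2' := not_or.1 a2
    by_cases a3 : s ∈ Xs
    · by_cases a4 : φ s ∈ N
      · exact Or.inr (Or.inr (Or.inl ⟨a3, a4,
          (if_neg a1).trans ((if_neg a2).trans ((if_pos a3).trans (if_pos a4)))⟩))
      · exact Or.inr (Or.inr (Or.inr (Or.inl ⟨a3, a4,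
          (if_neg a1).trans ((if_neg a2).trans ((if_pos a3).trans (if_neg a4)))⟩)))
    by_cases a5 : s ∈ M
    · exact Or.inr (Or.inr (Or.inr (Or.inr (Or.inl ⟨a5, a1'.2,
          (if_neg a1).trans ((if_neg a2).trans ((if_neg a3).trans (if_pos a5)))⟩))))
    · exact Or.inr (Or.inr (Or.inr (Or.inr (Or.inr ⟨a1'.1, a1'.2, a2'.1, a2'.2, a3, a5,
          (if_neg a1).trans ((if_neg a2).trans ((if_neg a3).trans (if_neg a5)))⟩))))
  have tH : ∀ s ∈ H, t s = X := fun s hs => by simp only [ht]; rw [if_pos (Or.inl hs)]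
  have tN : ∀ s ∈ N, t s = X := fun s hs => by simp only [ht]; rw [if_pos (Or.inr hs)]
  have tW : ∀ s ∈ W, t s = F := fun s hs => by
    have a : s ∉ N := fun b => by have := (tyW s hs).symm.trans (tyN s b); cases this
    simp only [ht]; rw [if_neg (by have := hHW s hs; tauto), if_pos (Or.inl hs)]
  have tZ : ∀ s ∈ Zp, s ∉ N → t s = F := fun s hs a => by
    have b : s ∉ H := fun b => by have := (tyH s b).symm.trans (tyZp s hs); cases this
    simp only [ht]; rw [if_neg (by tauto), if_pos (Or.inr hs)]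
  have tXs : ∀ s ∈ Xs, t s = if φ s ∈ N then F else K := fun s hs => by
    have a : s ∉ N := fun b => by have := (tyXs s hs).symm.trans (tyN s b); cases this
    have b : s ∉ Zp := fun b => by have := (tyXs s hs).symm.trans (tyZp s b); cases this
    have := XsH s hs
    have := XsW s hs
    simp only [ht]; rw [if_neg (by tauto), if_neg (by tauto), if_pos hs]
  have MXs : ∀ s ∈ M, s ∉ Xs := fun s hs b => by
    have := (tyXs s b).symm.trans (tyM s hs); cases this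
  have tM : ∀ s ∈ M, s ∉ N → t s = K := fun s hs a => by
    have b : s ∉ H := fun b => by have := (tyH s b).symm.trans (tyM s hs); cases this
    have c : s ∉ W := fun b => by have := (tyW s b).symm.trans (tyM s hs); cases this
    have := MZ s hs
    simp only [ht]; rw [if_neg (by tauto), if_neg (by tauto), if_neg (MXs s hs), if_pos hs]
  have mXs : ∀ s ∈ Xs, m s = φ s := fun s hs => by simp only [hm]; rw [if_pos hs]
  have mM : ∀ s ∈ M, m s = ψ s := fun s hs => by simp only [hm]; rw [if_neg (MXs s hs), if_pos hs]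
  have keep : ∀ s, P.ty s ≠ A → P.ty s ≠ D → t s = P.ty s ∧ m s = P.mate s := by
    intro s a b
    have c1 : s ∉ H := fun c => a (tyH s c)
    have c2 : s ∉ N := fun c => b (tyN s c)
    have c3 : s ∉ W := fun c => a (tyW s c)
    have c4 : s ∉ Zp := fun c => b (tyZp s c)
    have c5 : s ∉ Xs := fun c => a (tyXs s c)
    have c6 : s ∉ M := fun c => b (tyM s c)
    simp [ht, hm, c1, c2, c3, c4, c5, c6]
  have tr : ∀ s, (P.ty s).ok (t s) = true := by
    intro s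
    rcases tcase s with ⟨a | a, b⟩ | ⟨_, _, a | a, b⟩ | ⟨a, _, b⟩ | ⟨a, _, b⟩ | ⟨a, _, b⟩ | a
    · rw [b, tyH s a]; rfl
    · rw [b, tyN s a]; rfl
    · rw [b, tyW s a]; rfl
    · rw [b, tyZp s a]; rfl
    · rw [b, tyXs s a]; rfl
    · rw [b, tyXs s a]; rfl
    · rw [b, tyM s a]; rfl
    · rw [a.2.2.2.2.2.2]; simp [Ty.ok]
  have tlive : ∀ s, (t s).live = true → s ∉ H ∧ s ∉ N ∧ s ∉ W ∧ s ∉ Zp ∧ s ∉ Xs ∧ s ∉ M ∧
      t s = P.ty s := by
    intro s hs
    rcases tcase s with ⟨_, b⟩ | ⟨_, _, _, b⟩ | ⟨_, _, b⟩ | ⟨_, _, b⟩ | ⟨_, _, b⟩ | a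
    all_goals first | exact a | (rw [b] at hs; cases hs)
  have tO : ∀ s, t s = O ↔ P.ty s = O := fun s => ok_O _ _ (tr s)
  have tC : ∀ s, t s = C ↔ P.ty s = C := fun s =>
    ⟨fun a => (tlive s (by rw [a]; rfl)).2.2.2.2.2.2 ▸ a,
     fun a => ((keep s (by rw [a]; simp) (by rw [a]; simp)).1).trans a⟩
  have tK : ∀ s, t s = K → (P.ty s = K ∧ m s = P.mate s) ∨ (s ∈ Xs ∧ φ s ∉ N) ∨ (s ∈ M ∧ s ∉ N) := by
    intro s hs
    rcases tcase s with ⟨_, b⟩ | ⟨_, _, _, b⟩ | ⟨_, _, b⟩ | ⟨a, b, _⟩ | ⟨a, b, _⟩ | a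
    · rw [b] at hs; cases hs
    · rw [b] at hs; cases hs
    · rw [b] at hs; cases hs
    · exact Or.inr (Or.inl ⟨a, b⟩)
    · exact Or.inr (Or.inr ⟨a, b⟩)
    · have b : P.ty s = K := a.2.2.2.2.2.2 ▸ hs
      exact Or.inl ⟨b, (keep s (by rw [b]; simp) (by rw [b]; simp)).2⟩
  have kK : ∀ s, P.ty s = K → t s = K ∧ m s = P.mate s := fun s b => by
    have := keep s (by rw [b]; simp) (by rw [b]; simp)
    exact ⟨this.1.trans b, this.2⟩
  have sideA : ∀ s ∈ G.A, P.side s = σ := fun s hs => (mem_A.1 hs).2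
  have sideE : ∀ s ∈ G.E, P.side s = σ := fun s hs => (mem_E.1 hs).2
  have off : ∀ s, P.side s ≠ σ → t s = P.ty s := by
    intro s hs
    rcases tcase s with ⟨a | a, b⟩ | ⟨_, _, a | a, b⟩ | ⟨a, _, b⟩ | ⟨a, _, b⟩ | ⟨a, _, b⟩ | a
    · exact absurd (sideA s (hH a)) hs
    · exact absurd (sideE s (hN a)) hs
    · exact absurd (sideA s (hW a)) hs
    · exact absurd (sideE s (ZpE s a)) hs
    · exact absurd (sideA s (XsA s a)) hs
    · exact absurd (sideA s (XsA s a)) hs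
    · exact absurd (sideE s (ME s a)) hs
    · exact a.2.2.2.2.2.2
  -- ends of surviving edges survive
  have endA : ∀ e y, t e = D → P.ty y = A → P.side y = P.side e → (P.f e = y ∨ P.g e = y) →
      t y = A := by
    intro e y he hy hs hey
    obtain ⟨_, a2, _, a4, _, a6, a7⟩ := tlive e (by rw [he]; rfl)
    by_cases hσ : P.side e = σ
    · have eE : e ∈ G.E := mem_E.2 ⟨a7 ▸ he, hσ⟩
      have ey : e ∈ G.inc y := Gr.mem_inc.2 ⟨eE, hey⟩
      have nX : e ∉ G.nb Xs := fun b => a6 (mem_sdiff.2 ⟨b, a4⟩)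
      rcases tcase y with ⟨a | a, b⟩ | ⟨_, _, a | a, b⟩ | ⟨a, _, b⟩ | ⟨a, _, b⟩ | ⟨a, _, b⟩ | a
      · have := x4 (mem_union_right _ (Gr.mem_nb_of_inc a ey))
        rcases mem_union.1 this with c | c <;> contradiction
      · have := hy.symm.trans (tyN y a); cases this
      · rcases mem_union.1 (hW1 y a ey) with c | c
        · exact absurd c a2
        · exact absurd (z1 c) a4
      · have := hy.symm.trans (tyZp y a); cases this
      · exact absurd (Gr.mem_nb_of_inc a ey) nX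
      · exact absurd (Gr.mem_nb_of_inc a ey) nX
      · have := hy.symm.trans (tyM y a); cases this
      · exact a.2.2.2.2.2.2.trans hy
    · exact (off y (hs ▸ hσ)).trans hy
  have tDD : ∀ e, t e = D → P.ty e = D := fun e he =>
    (tlive e (by rw [he]; rfl)).2.2.2.2.2.2 ▸ he
  have tAA : ∀ e, t e = A → P.ty e = A := fun e he =>
    (tlive e (by rw [he]; rfl)).2.2.2.2.2.2 ▸ he
  have ψinc : ∀ e ∈ M, e ∈ G.inc (ψ e) := fun e he => by
    have := (hφ _ (hψ e he).1).1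
    rwa [(hψ e he).2] at this
  have ψK : ∀ e ∈ M, e ∉ N → t (ψ e) = K := fun e he a => by
    rw [tXs _ (hψ e he).1, (hψ e he).2, if_neg a]
  have wf0 : (P.upd t m).WF0 := by
    refine ⟨fun s hs => ?_, fun s hs => ?_, fun s hs => ?_, fun s hs => ?_, fun s hs => ?_,
      fun s hs => ?_, fun s hs => ?_, fun e he => ?_, fun e he => ?_, fun e he => h.fg e (tDD e he),
      fun c hc => ?_, fun c hc => ?_, fun c v hc hv => ?_, fun c hc => h.rl c ((tC c).1 hc),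
      fun c hc => h.lr c ((tC c).1 hc), fun c hc => h.l1 c ((tC c).1 hc),
      fun c hc => h.l2 c ((tC c).1 hc), fun c hc => h.l3 c ((tC c).1 hc),
      fun c hc => h.l4 c ((tC c).1 hc), fun c v hc hv => ?_⟩
    · exact fun a => h.lam_ty s (fun b => hs ((tO s).2 b)) ((tO _).1 a)
    · exact h.lam_lam s (fun b => hs ((tO s).2 b))
    · exact h.lam_ne s (fun b => hs ((tO s).2 b))
    · change t (m s) = K
      rcases tK s hs with a | a | a
      · rw [a.2]; exact (kK _ (h.mate_ty s a.1)).1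
      · rw [mXs s a.1]; exact tM _ (φM s a.1) a.2
      · rw [mM s a.1]; exact ψK s a.1 a.2
    · change m (m s) = s
      rcases tK s hs with a | a | a
      · rw [a.2, (kK _ (h.mate_ty s a.1)).2]; exact h.mate_mate s a.1
      · rw [mXs s a.1, mM _ (φM s a.1)]; exact (hφ s a.1).2.2
      · rw [mM s a.1, mXs _ (hψ s a.1).1]; exact (hψ s a.1).2
    · change m s ≠ s
      rcases tK s hs with a | a | a
      · rw [a.2]; exact h.mate_ne s a.1
      · rw [mXs s a.1]; exact (ne_AE (XsA s a.1) (ME _ (φM s a.1))).symm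
      · rw [mM s a.1]; exact ne_AE (XsA _ (hψ s a.1).1) (ME _ a.1)
    · change P.side (m s) = P.side s
      rcases tK s hs with a | a | a
      · rw [a.2]; exact h.mate_side s a.1
      · rw [mXs s a.1, sideA s (XsA s a.1), sideE _ (ME _ (φM s a.1))]
      · rw [mM s a.1, sideA _ (XsA _ (hψ s a.1).1), sideE _ (ME _ a.1)]
    · have := h.f_ty e (tDD e he)
      exact ⟨endA e _ he this.1 this.2 (Or.inl rfl), this.2⟩
    · have := h.g_ty e (tDD e he)
      exact ⟨endA e _ he this.1 this.2 (Or.inr rfl), this.2⟩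
    · have := h.l_ty c ((tC c).1 hc)
      exact ⟨(tC _).2 this.1, this.2⟩
    · have := h.r_ty c ((tC c).1 hc)
      exact ⟨(tC _).2 this.1, this.2⟩
    · exact h.c_side c v ((tC c).1 hc) ((tC v).1 hv)
    · intro a1 a2 a3 a4
      have := h.m_ok c v ((tC c).1 hc) ((tC v).1 hv) a1 a2 a3 a4
      exact ⟨(tC _).2 this.1, this.2⟩
  have tXX : ∀ s, P.ty s = X → t s = X := fun s b =>
    (keep s (by rw [b]; simp) (by rw [b]; simp)).1.trans b
  refine ⟨t, m, tr, ?_, off, wf0, ?_, tH, tN, ?_, tW, fun s hs => tZ s (z1 hs),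
    fun s hs => (tC s).2 hs, ?_, ?_, ?_, ?_, ?_, ?_, ?_⟩
  · -- sat
    intro S hS
    have inH : ∀ s ∈ H, s ∈ S := fun s hs => hS.x s (tH s hs)
    have inN : ∀ s ∈ N, s ∈ S := fun s hs => hS.x s (tN s hs)
    refine ⟨fun s hs => hS.x s (tXX s hs), fun s hs => ?_, fun e he => ?_, fun y hy => ?_,
      fun c0 hc => ?_, fun s hs ho => hS.o s (fun a => hs ((tO s).1 a)) ho⟩
    · have := hS.k s (kK s hs).1
      rwa [upd_mate, (kK s hs).2] at this
    · have inc_S : ∀ y, e ∈ G.inc y → y ∈ S → e ∈ S ∨ P.f e ∈ S ∨ P.g e ∈ S := by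
        intro y hy hyS
        rcases (Gr.mem_inc.1 hy).2 with a | a
        · exact Or.inr (Or.inl (by rw [← a] at hyS; exact hyS))
        · exact Or.inr (Or.inr (by rw [← a] at hyS; exact hyS))
      rcases tcase e with ⟨a | a, b⟩ | ⟨_, c, a | a, b⟩ | ⟨a, _, b⟩ | ⟨a, _, b⟩ | ⟨a, c, b⟩ | a
      · exact Or.inl (inH e a)
      · exact Or.inl (inN e a)
      · have := he.symm.trans (tyW e a); cases this
      · rcases mem_union.1 (z2' a) with d | d
        · exact absurd d c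
        · obtain ⟨y, hy, hy'⟩ := Gr.exists_inc_of_nb d
          exact inc_S y hy' (inH y hy)
      · have := he.symm.trans (tyXs e a); cases this
      · have := he.symm.trans (tyXs e a); cases this
      · rcases hS.k e b with d | d
        · exact Or.inl d
        · rw [upd_mate, mM e a] at d
          exact inc_S _ (ψinc e a) d
      · exact hS.d e (a.2.2.2.2.2.2.trans he)
    · have inc_S : ∀ e, e ∈ G.inc y → e ∈ S →
          y ∈ S ∨ ∃ e, P.ty e = D ∧ (P.f e = y ∨ P.g e = y) ∧ e ∈ S := by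
        intro e he heS
        have := Gr.mem_inc.1 he
        exact Or.inr ⟨e, (mem_E.1 this.1).1, this.2, heS⟩
      rcases tcase y with ⟨a | a, b⟩ | ⟨_, c, a | a, b⟩ | ⟨a, c, b⟩ | ⟨a, _, b⟩ | ⟨a, c, b⟩ | a
      · exact Or.inl (inH y a)
      · exact Or.inl (inN y a)
      · obtain ⟨e, he, he'⟩ := hW2 y a
        exact inc_S e he' (inN e he)
      · have := hy.symm.trans (tyZp y a); cases this
      · exact inc_S _ (hφ y a).1 (inN _ c)
      · rcases hS.k y b with d | d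
        · exact Or.inl d
        · rw [upd_mate, mXs y a] at d
          exact inc_S _ (hφ y a).1 d
      · have := hy.symm.trans (tyM y a); cases this
      · rcases hS.a y (a.2.2.2.2.2.2.trans hy) with d | ⟨e, d1, d2, d3⟩
        · exact Or.inl d
        · exact Or.inr ⟨e, tDD e d1, d2, d3⟩
    · obtain ⟨c, c1, c2, c3, c4⟩ := hS.c c0 ((tC c0).2 hc)
      exact ⟨c, (tC c).1 c1, c2, c3, fun v hv => c4 v ((tC v).2 hv)⟩
  · -- surplus
    intro Y hY hne
    have hYB : ∀ y ∈ Y, y ∈ B ∧ y ∉ Xs := by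
      intro y hy
      obtain ⟨a, b⟩ := mem_A.1 (hY hy)
      obtain ⟨a1, _, a3, _, a5, _, _⟩ := tlive y (by change t y = A at a; rw [a]; rfl)
      exact ⟨(hBA y).2 ⟨mem_A.2 ⟨tAA y a, b⟩, a1, a3⟩, a5⟩
    have b2 : Y ∪ Xs ⊆ B := union_subset (fun y hy => (hYB y hy).1) x1
    have b3 : Disjoint Y Xs := disjoint_left.2 fun y hy => (hYB y hy).2
    have b4 := card_union_of_disjoint b3
    have b5 : G.nb (Y ∪ Xs) \ Zp ⊆ ((P.upd t m).gr σ).nb Y ∪ M := by
      intro e he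
      obtain ⟨e1, e2⟩ := mem_sdiff.1 he
      by_cases e3 : e ∈ M
      · exact mem_union_right _ e3
      · have e4 : e ∉ G.nb Xs := fun a => e3 (mem_sdiff.2 ⟨a, e2⟩)
        rw [Gr.nb_union, mem_union] at e1
        have e5 : e ∈ G.nb Y := by tauto
        have e6 : e ∉ N := fun a => by
          rcases mem_union.1 (x4 (mem_union_left _ a)) with c | c <;> contradiction
        obtain ⟨e7, e8⟩ := Gr.mem_nb.1 e5
        obtain ⟨e9, e10⟩ := mem_E.1 e7
        refine mem_union_left _ (Gr.mem_nb.2 ⟨mem_E.2 ⟨?_, e10⟩, e8⟩)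
        rcases tcase e with ⟨a | a, b⟩ | ⟨_, c, a | a, b⟩ | ⟨a, _, b⟩ | ⟨a, _, b⟩ | ⟨a, c, b⟩ | a
        · have := e9.symm.trans (tyH e a); cases this
        · exact absurd a e6
        · have := e9.symm.trans (tyW e a); cases this
        · exact absurd a e2
        · have := e9.symm.trans (tyXs e a); cases this
        · have := e9.symm.trans (tyXs e a); cases this
        · exact absurd a e3
        · exact a.2.2.2.2.2.2.trans e9
    have b6 := card_le_card b5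
    have b7 := card_union_le (((P.upd t m).gr σ).nb Y) M
    by_contra hc
    have := x3 (Y ∪ Xs) b2 (by omega)
    obtain ⟨y, hy⟩ := hne
    exact (hYB y hy).2 (this (mem_union_left _ hy))
  · intro s hs hs'
    rcases tcase s with ⟨a, _⟩ | ⟨_, _, _, b⟩ | ⟨_, _, b⟩ | ⟨_, _, b⟩ | ⟨_, _, b⟩ | a
    · exact a
    · rw [b] at hs; cases hs
    · rw [b] at hs; cases hs
    · rw [b] at hs; cases hs
    · rw [b] at hs; cases hs
    · exact absurd (a.2.2.2.2.2.2 ▸ hs) hs'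
  · intro Y hY hc y hy
    have := x3 Y hY ((card_le_card (sdiff_subset_sdiff Subset.rfl z1)).trans hc) hy
    rw [tXs y this]; split_ifs <;> simp
  · intro Y hY hc e he heN
    have := Gr.nb_mono (G := G) (x3 Y hY ((card_le_card (sdiff_subset_sdiff Subset.rfl z1)).trans hc)) he
    by_cases a : e ∈ Zp
    · exact Or.inr (tZ e a heN)
    · exact Or.inl (tM e (mem_sdiff.2 ⟨this, a⟩) heN)
  · intro x hx e he heN
    by_cases a : e ∈ Zp
    · exact Or.inr (tZ e a heN)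
    · rcases mem_union.1 (x4 (mem_union_right _ (Gr.mem_nb_of_inc hx he))) with c | c
      · exact absurd c a
      · exact Or.inl (tM e (mem_sdiff.2 ⟨c, a⟩) heN)
  · intro N0 hN0 hnf
    have : ∃ s ∈ N0, s ∉ Zp := by
      by_contra hc
      push Not at hc
      exact hnf (z3.mono Subset.rfl fun e he _ => by
        rcases mem_union.1 he with a | a
        · exact z1 a
        · exact hc e a)
    obtain ⟨s, hs, hs'⟩ := this
    have sM : s ∈ M := by
      rcases mem_union.1 (x4 (mem_union_left _ (hN0 hs))) with c | c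
      · exact absurd c hs'
      · exact mem_sdiff.2 ⟨c, hs'⟩
    refine ⟨s, hs, ψ s, x1 (hψ s sM).1, ψinc s sM, ?_⟩
    rw [tXs _ (hψ s sM).1, (hψ s sM).2, if_pos (hN0 hs)]
  · intro y hy hk
    rcases tK y hk with a | a | a
    · have := (mem_A.1 hy).1.symm.trans a.1; cases this
    · rw [mXs y a.1]; exact ⟨(hφ y a.1).1, a.2, fun b => (hφ y a.1).2.1 (z1 b)⟩
    · exact absurd rfl (ne_AE hy (ME y a.1))
  · intro e he hk
    rcases tK e hk with a | a | a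
    · have := (mem_E.1 he).1.symm.trans a.1; cases this
    · exact absurd rfl (ne_AE (XsA e a.1) he)
    · rw [mM e a.1]; exact ⟨ψinc e a.1, x1 (hψ e a.1).1⟩
  · intro e he hne
    have e9 := (mem_E.1 he).1
    rcases tcase e with ⟨a | a, b⟩ | ⟨_, c, a | a, b⟩ | ⟨a, _, b⟩ | ⟨a, _, b⟩ | ⟨a, c, b⟩ | a
    · have := e9.symm.trans (tyH e a); cases this
    · exact Or.inl (mem_union_left _ a)
    · have := e9.symm.trans (tyW e a); cases this
    · exact Or.inl (z2' a)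
    · have := e9.symm.trans (tyXs e a); cases this
    · have := e9.symm.trans (tyXs e a); cases this
    · exact Or.inr ⟨Xs, x1, (mem_sdiff.1 a).1,
        (card_le_card (sdiff_subset_sdiff Subset.rfl z2')).trans x2.le⟩
    · exact absurd (a.2.2.2.2.2.2.trans e9) hne

end St
end Pool.Agent.P.MP_11624f_co
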