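import Pool.Agent.P.MP_11624f_co.Cls

set_option autoImplicit false
set_option linter.unusedSectionVars false
open Finset

namespace Pool.Agent.P.MP_11624f_co
open Ty

theorem Gr.Ok.sum_filter {α : Type} [DecidableEq α] {G : Gr α} (h : G.Ok) (p : α → Prop)
    [DecidablePred p] :
    ∑ x ∈ G.A, ((G.inc x).filter p).card = 2 * (G.E.filter p).card := by
  have h1 : ∀ y ∈ G.A, ((G.inc y).filter p).card =
      ∑ e ∈ G.E.filter p, ((if G.f e = y then 1 else 0) + (if G.g e = y then 1 else 0)) := by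
    intro y _
    have : (G.inc y).filter p = (G.E.filter p).filter (fun e => G.f e = y ∨ G.g e = y) := by
      ext e; simp only [mem_filter, Gr.mem_inc]; tauto
    rw [this, card_filter]
    refine sum_congr rfl fun e he => ?_
    have := h.ne e (mem_filter.1 he).1
    by_cases h1 : G.f e = y <;> by_cases h2 : G.g e = y <;> simp_all
  rw [sum_congr rfl h1, sum_comm, card_eq_sum_ones, mul_sum]
  refine sum_congr rfl fun e he => ?_
  have a := h.fA e (mem_filter.1 he).1
  have b := h.gA e (mem_filter.1 he).1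
  rw [sum_add_distrib]; simp [a, b]

def bs (o : Bool) (t u : Ty) : ℤ := if t.live && u.live && (o || t = A) then 1 else 0
def hs (o : Bool) (t u : Ty) : ℤ :=
  if t.live && u.live && !o then (if t = A then 3 else -3) else 0
def nx (t t' : Ty) : ℤ := if t' = X ∧ t ≠ X then 5 else 0

def hyp2 (o : Bool) (t u : Ty) : Bool :=
  t ≠ O && u ≠ O && t ≠ K && u ≠ K && (!t.live || !nullB o u) && (!u.live || !nullB o t) &&
    (o || !t.live || !u.live || (t = A && u = D) || (t = D && u = A))

theorem bs_le : ∀ o t t' u u', hyp2 o t u → t.ok t' → u.ok u' → t'.live = false →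
    u'.live = false → (bs o t u - nx t t') + (bs o u t - nx u u') ≤ phi o t' u' - phi o t u := by
  decide +kernel

theorem hs_le : ∀ o t u, hyp2 o t u → 0 ≤ hs o t u + hs o u t := by decide +kernel

namespace St
variable {α : Type} [DecidableEq α] [Fintype α] {P : St α}

theorem WF.resolve (h : P.WF) (σ : Bool) {T Z : Finset α} (hT : T ⊆ (P.gr σ).A)
    (hZ : Z ⊆ (P.gr σ).nb T) (hF : (P.gr σ).Feas ((P.gr σ).A \ T) Z) :
    ∃ t m, P.Step σ t m ∧ (∀ s, P.side s = σ → P.ty s = A ∨ P.ty s = D → (t s).live = false) ∧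
      (univ.filter (fun s => t s = X ∧ P.ty s ≠ X)).card + Z.card + (P.gr σ).A.card ≤
        2 * T.card + (P.gr σ).E.card := by
  set G := P.gr σ with hG
  obtain ⟨Z', Ys, z1, z2, z3, y1, y2, y3, y4⟩ := hF.ext G.E
  have hZE : Z ⊆ G.E := hZ.trans (Gr.nb_subset_E _)
  have hZ'E : Z' ⊆ G.E := z2.trans (union_subset hZE Subset.rfl)
  have e1 : G.E \ Z' = G.nb Ys \ Z' := by
    ext e; simp only [mem_sdiff]
    exact ⟨fun a => ⟨(mem_union.1 (y4 a.1)).resolve_left a.2, a.2⟩,
      fun a => ⟨Gr.nb_subset_E _ a.1, a.2⟩⟩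
  have e2 : (G.nb (G.A \ T) \ Z').card ≤ (G.A \ T).card := by
    have a : G.nb (G.A \ T) \ Z' ⊆ G.E \ Z' := sdiff_subset_sdiff (Gr.nb_subset_E _) Subset.rfl
    have := card_le_card a
    have := card_le_card y1
    rw [e1] at *; omega
  have e3 : Ys = G.A \ T := Subset.antisymm y1 (y3 _ Subset.rfl e2)
  obtain ⟨t, m, d⟩ := h.toWF0.del σ T (Z' \ Z) ∅ Z' (G.A \ T) hT (sdiff_subset.trans hZ'E)
    (empty_subset _) (by simp) (by simp [hG]) (by
      intro e he
      by_cases a : e ∈ Z
      · exact mem_union_right _ (hZ a)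
      · exact mem_union_left _ (mem_sdiff.2 ⟨he, a⟩)) (by simp) (by simp) z3
  refine ⟨t, m, d.step h, fun s hs hs' => ?_, ?_⟩
  · rcases hs' with a | a
    · by_cases b : s ∈ T
      · rw [d.hX s b]; rfl
      · rcases d.tightA _ Subset.rfl e2 s (mem_sdiff.2 ⟨mem_A.2 ⟨a, hs⟩, b⟩) with c | c <;>
          rw [c] <;> rfl
    · by_cases b : s ∈ Z' \ Z
      · rw [d.nX s b]; rfl
      by_cases c : s ∈ Z'
      · rw [d.zF s c b]; rfl
      · have : s ∈ G.nb (G.A \ T) := by
          rw [← e3]; exact (mem_union.1 (y4 (mem_E.2 ⟨a, hs⟩))).resolve_left c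
        rcases d.tightE _ Subset.rfl e2 s this b with c | c <;> rw [c] <;> rfl
  · have a1 : univ.filter (fun s => t s = X ∧ P.ty s ≠ X) ⊆ T ∪ (Z' \ Z) := by
      intro s hs
      have := (mem_filter.1 hs).2
      exact mem_union.2 (d.newX s this.1 this.2)
    have a2 := card_le_card a1
    have a3 := card_union_le T (Z' \ Z)
    have a4 := card_sdiff_add_card_eq_card z1
    have a5 := card_sdiff_add_card_eq_card hZ'E
    have a6 := card_sdiff_add_card_eq_card hT
    rw [e1, y2, e3] at a5
    omega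

theorem Red.hyp2 (h : P.Red) {s : α} (hs : P.ty s ≠ O) :
    hyp2 (P.opp s) (P.ty s) (P.ty (P.lam s)) = true := by
  have w := h.wf.toWF0
  have a1 := w.lam_ty s hs
  have a2 := h.nk s
  have a3 := h.nk (P.lam s)
  have a4 := h.nn s
  have a5 := h.nn (P.lam s)
  have a6 := h.noC s
  have a7 := h.noC (P.lam s)
  have a8 := h.hd s
  have a9 := h.ed s
  unfold Null at a4 a5
  unfold Fix OppL at a8
  unfold OppL at a9
  rw [w.opp_lam hs, w.lam_lam s hs] at a5
  revert hs a1 a2 a3 a4 a5 a6 a7 a8 a9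
  generalize P.opp s = o
  generalize P.ty s = t
  generalize P.ty (P.lam s) = u
  revert o t u
  decide +kernel

/-- per side accounting -/
theorem Red.side_sum (h : P.Red) (σ : Bool) :
    ∑ s ∈ univ.filter (fun s => P.side s = σ), hs (P.opp s) (P.ty s) (P.ty (P.lam s)) ≤
      ∑ s ∈ univ.filter (fun s => P.side s = σ), bs (P.opp s) (P.ty s) (P.ty (P.lam s)) +
        ∑ x ∈ (P.gr σ).A, P.dl σ x + 5 * (P.gr σ).A.card - 5 * (P.gr σ).E.card := by
  have ok := h.wf.ok σ
  have e1 : ∑ x ∈ (P.gr σ).A, ((P.gr σ).deg x : ℤ) = 2 * (P.gr σ).E.card := by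
    exact_mod_cast ok.sum_deg
  have e2 : ∑ x ∈ (P.gr σ).A, ((P.Os σ x).card : ℤ) =
      2 * ((P.gr σ).E.filter (fun e => P.opp e = true)).card := by
    exact_mod_cast ok.sum_filter (fun e => P.opp e = true)
  have e3 : ∑ x ∈ (P.gr σ).A, P.dl σ x = 2 * (P.gr σ).E.card +
      2 * ((P.gr σ).E.filter (fun e => P.opp e = true)).card - ∑ x ∈ (P.gr σ).A, P.cap x := by
    unfold dl
    rw [sum_sub_distrib, sum_add_distrib, e1, e2]
  have e4 : ∑ s ∈ univ.filter (fun s => P.side s = σ),
      (hs (P.opp s) (P.ty s) (P.ty (P.lam s)) - bs (P.opp s) (P.ty s) (P.ty (P.lam s))) ≤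
      ∑ s ∈ univ.filter (fun s => P.side s = σ), ((if P.ty s = A then 5 - P.cap s else 0) +
        (if P.ty s = D then (-3 + if P.opp s = true then 2 else 0) else 0)) := by
    refine sum_le_sum fun s _ => ?_
    have a6 := h.noC s
    have a8 := h.hd s
    have a9 := h.ed s
    unfold cap
    unfold Fix OppL at *
    revert a6 a8 a9
    generalize P.opp s = o
    generalize P.ty s = t
    generalize P.ty (P.lam s) = u
    cases o <;> cases t <;> cases u <;> simp [hs, bs, live, fixB]
  rw [sum_sub_distrib, sum_add_distrib, ← sum_filter, ← sum_filter, filter_filter,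
    filter_filter] at e4
  have e5 : univ.filter (fun s => P.side s = σ ∧ P.ty s = A) = (P.gr σ).A := by
    ext s; simp [mem_A, and_comm]
  have e6 : univ.filter (fun s => P.side s = σ ∧ P.ty s = D) = (P.gr σ).E := by
    ext s; simp [mem_E, and_comm]
  rw [e5, e6, sum_sub_distrib, sum_add_distrib, ← sum_filter] at e4
  simp only [sum_const, smul_eq_mul, nsmul_eq_mul] at e4
  omega

theorem Red.glob (h : P.Red) {s0 : α} (hs0 : (P.ty s0).live = true) : P.Good 0 := by
  by_contra hg
  have w := h.wf.toWF0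
  obtain ⟨T1, hT1, Z1, hZ1, hF1, hs1⟩ := (h.wf.ok false).global (P.dl false) fun x hx => h.cls hg hx
  obtain ⟨T2, hT2, Z2, hZ2, hF2, hs2⟩ := (h.wf.ok true).global (P.dl true) fun x hx => h.cls hg hx
  obtain ⟨t1, m1, st1, d1, c1⟩ := h.wf.resolve false hT1 hZ1 hF1
  have eg : (P.upd t1 m1).gr true = P.gr true := gr_off st1.off (by simp)
  obtain ⟨t, m, st2, d2, c2⟩ := st1.wf.resolve true (T := T2) (Z := Z2) (by rw [eg]; exact hT2)
    (by rw [eg]; exact hZ2) (by rw [eg]; exact hF2)
  rw [eg] at c2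
  have o1 : ∀ s, P.side s = true → t1 s = P.ty s := fun s a => st1.off s (by simp [a])
  have o2 : ∀ s, P.side s = false → t s = t1 s := fun s a => st2.off s (by simp [a])
  have ref : P.Ref t m := by
    refine ⟨fun s => ?_, fun S hS => st1.sat S (st2.sat S hS), st2.wf⟩
    cases a : P.side s
    · rw [o2 s a]; exact st1.tr s
    · rw [← o1 s a]; exact st2.tr s
  have dead : ∀ s, (t s).live = false := by
    intro s
    by_cases b : P.ty s = A ∨ P.ty s = D
    · cases a : P.side s
      · rw [o2 s a]; exact d1 s a b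
      · exact d2 s a (by rw [upd_ty, o1 s a]; exact b)
    · have b2 := h.noC s
      have b3 := ref.tr s
      revert b b2 b3
      generalize P.ty s = u
      generalize t s = u'
      revert u u'; decide
  have net := w.net_of_claims (t := t) (m := m) (fun s a => (ok_O _ _ (ref.tr s)).2 a)
    (fun s => bs (P.opp s) (P.ty s) (P.ty (P.lam s)) - nx (P.ty s) (t s))
    (fun s a => by
      have := (ok_O _ _ (ref.tr s)).2 a
      simp [a, this, bs, nx, live])
    (fun s a => by
      have := bs_le _ _ _ _ _ (h.hyp2 a) (ref.tr s) (ref.tr _) (dead s) (dead _)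
      rw [w.opp_lam a, w.lam_lam s a]; exact this)
  have hsum : 0 ≤ ∑ s, hs (P.opp s) (P.ty s) (P.ty (P.lam s)) := by
    have a1 := w.sum_lam (fun s => hs (P.opp s) (P.ty s) (P.ty (P.lam s)))
      (fun s a => by simp [a, hs, live])
    have a2 : 0 ≤ ∑ s, (hs (P.opp s) (P.ty s) (P.ty (P.lam s)) + if P.ty s = O then 0 else
        hs (P.opp (P.lam s)) (P.ty (P.lam s)) (P.ty (P.lam (P.lam s)))) := by
      refine sum_nonneg fun s _ => ?_
      by_cases a : P.ty s = O
      · simp [a, hs, live]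
      · rw [if_neg a, w.opp_lam a, w.lam_lam s a]; exact hs_le _ _ _ (h.hyp2 a)
    rw [sum_add_distrib, a1] at a2
    omega
  have split : ∀ c : α → ℤ, ∑ s, c s = ∑ s ∈ univ.filter (fun s => P.side s = false), c s +
      ∑ s ∈ univ.filter (fun s => P.side s = true), c s := by
    intro c
    rw [← sum_filter_add_sum_filter_not univ (fun s => P.side s = false)]
    simp
  have q1 := h.side_sum false
  have q2 := h.side_sum true
  have q3 := split (fun s => hs (P.opp s) (P.ty s) (P.ty (P.lam s)))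
  have q4 := split (fun s => bs (P.opp s) (P.ty s) (P.ty (P.lam s)))
  have q5 : ∑ s, nx (P.ty s) (t s) ≤ 5 * ((univ.filter (fun s => t1 s = X ∧ P.ty s ≠ X)).card : ℤ) +
      5 * ((univ.filter (fun s => t s = X ∧ (P.upd t1 m1).ty s ≠ X)).card : ℤ) := by
    rw [card_filter, card_filter]
    push_cast
    rw [mul_sum, mul_sum, ← sum_add_distrib]
    refine sum_le_sum fun s _ => ?_
    unfold nx
    simp only [upd_ty]
    by_cases a : t s = X <;> by_cases b : t1 s = X <;> by_cases c : P.ty s = X <;> simp [a, b, c]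
  rw [sum_sub_distrib] at net
  have g0 := ref.good0 h.ih (s := s0) (by
    intro a; have := dead s0; rw [a, hs0] at this; cases this)
  exact hg ((ref.good net g0).mono (by omega))

theorem WF.good (h : P.WF) : P.Good 0 := by
  induction hn : P.mu using Nat.strong_induction_on generalizing P with
  | _ n IH =>
  have ih : P.IH := fun P' h1 h2 => IH _ (hn ▸ h2) h1 rfl
  by_cases a : ∃ y, P.ty y = K
  · obtain ⟨y, hy⟩ := a; exact h.fold0 ih hy
  by_cases b : ∃ s, (P.ty s).live = true ∧ P.Null s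
  · obtain ⟨s, h1, h2⟩ := b; exact h.null_del ih h1 h2
  push Not at a b
  by_contra hg
  have r := Cl.red ⟨h, ih, b, a⟩ hg
  by_cases c : ∃ s, (P.ty s).live = true
  · obtain ⟨s, hs⟩ := c; exact hg (r.glob hs)
  push Not at c
  refine hg (h.terminal fun s => ?_)
  have a1 := a s
  have a2 := c s
  revert a1 a2
  cases P.ty s <;> simp [live, wt]

end St
end Pool.Agent.P.MP_11624f_co
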