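import Pool.Agent.P.MP_11624f_co.Conf

set_option autoImplicit false
set_option linter.unusedSectionVars false
open Finset

namespace Pool.Agent.P.MP_11624f_co
open Ty

theorem Gr.mem_of_deg {α : Type} [DecidableEq α] {G : Gr α} {x : α} {S : Finset α}
    (hS : S ⊆ G.inc x) (hc : G.deg x ≤ S.card) {e : α} (he : e ∈ G.inc x) : e ∈ S := by
  rw [eq_of_subset_of_card_le hS hc]; exact he

namespace St
variable {α : Type} [DecidableEq α] [Fintype α] {P : St α}

theorem Red.sub_move (h : P.Red) {σ : Bool} {x b u : α} (hb : P.Fix b) (bx : b ≠ x)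
    (hu : u ∈ (P.gr σ).inc x) (ub : u ∈ (P.gr σ).inc b) (hp : P.lam u ∈ (P.gr σ).inc x)
    (ho : P.opp u = true) (hsub : (P.gr σ).inc b ⊆ (P.gr σ).inc x) : P.Good 0 := by
  have w := h.wf.toWF0
  have ok := h.wf.ok σ
  have a2 := tyI hu
  have up := w.lam_ne u (neOD a2)
  have op : P.opp (P.lam u) = true := (w.opp_lam (neOD a2)).trans ho
  have lp : P.lam (P.lam u) = u := w.lam_lam u (neOD a2)
  generalize P.lam u = p at hp up op lp
  have a3 := tyI hp
  have xA := ok.inc_A hu
  have bA := ok.inc_A ub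
  have a1 := tyA xA
  have a4 := tyA bA
  obtain ⟨t, m, d⟩ := w.del σ {x} {u} {b} (insert p ((P.gr σ).inc b)) _ (by simpa using xA)
    (by simpa using Gr.inc_E hu) (by simpa using bA) (by simpa using bx) rfl
    ((insert_subset hp hsub).trans subset_union_right)
    (by intro y hy e he; rw [mem_singleton.1 hy] at he; simp [he])
    (by simpa using ub)
    (ok.feas_eff sdiff_subset p (by
      intro e he he'
      rcases mem_insert.1 he with c | c
      · exact c
      · exact absurd he' (Gr.not_mem_nb_of_ends (hsub c) c bx.symm (by simp) (by simp))))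
  have st := d.step h.wf
  have := st.c_X5 w (neOA a1)
  have := st.c_pair w (lvD a3) (h.oppL a3 op) (d.zF p (by simp) (by simpa using up))
  rw [lp] at this
  have := st.c_F5 w (lvA a4) hb (d.wF b (by simp))
  exact d.good h.wf [x, u, p, b] (by simp; grind (splits := 60)) (by simp) (by simp)
    (st.good0 h.ih (lvA a1) (d.hX x (by simp))) (by simp; omega)

theorem Red.f2 (h : P.Red) {σ : Bool} {x u v : α} (hf : P.Fix x)
    (hu : u ∈ (P.gr σ).inc x) (hp : P.lam u ∈ (P.gr σ).inc x) (ho : P.opp u = true)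
    (hv : v ∈ (P.gr σ).inc x) (hv' : P.lam v ∉ (P.gr σ).inc x) (ov : P.opp v = true)
    (hd : (P.gr σ).deg x = 3) : P.Good 0 := by
  have w := h.wf.toWF0
  have ok := h.wf.ok σ
  have a2 := tyI hu
  have up := w.lam_ne u (neOD a2)
  have lp : P.lam (P.lam u) = u := w.lam_lam u (neOD a2)
  have vu : v ≠ u := by rintro rfl; exact hv' hp
  have vp : v ≠ P.lam u := by rintro rfl; rw [lp] at hv'; exact hv' hu
  obtain ⟨p, hpe⟩ : ∃ p, P.lam u = p := ⟨_, rfl⟩
  have hp0 := hp
  rw [hpe] at hp up lp vp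
  have a3 := tyI hp
  have a5 := tyI hv
  have o5 := h.oppL a5 ov
  have vx := h.own σ x v hv o5
  have vv := w.lam_ne v (neOD a5)
  have v1 : P.lam v ≠ u := fun a => hv' (a ▸ hu)
  have v2 : P.lam v ≠ p := fun a => hv' (a ▸ hp)
  have xA := ok.inc_A hu
  have bA := ok.oth_A hu
  have bx := ok.oth_ne hu
  have ub := Gr.oth_inc hu
  have zA := ok.oth_A hv
  have zx := ok.oth_ne hv
  have vz := Gr.oth_inc hv
  generalize (P.gr σ).oth u x = b at bA bx ub
  generalize (P.gr σ).oth v x = z at zA zx vz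
  have a1 := tyA xA
  have a4 := tyA bA
  have a6 := tyA zA
  have hinc : ∀ e ∈ (P.gr σ).inc x, e ∈ ({u, p, v} : Finset α) := fun e he =>
    Gr.mem_of_deg (by simp [insert_subset_iff, hu, hp, hv])
      (by rw [hd, card_eq_three.2 ⟨u, p, v, up.symm, vu.symm, vp.symm, rfl⟩]) he
  have dl : ∀ z1 ∈ (P.gr σ).inc b, ∃ B t m, P.DelOut σ {b, z} {p} {x} {u, v, z1} B t m :=
    fun z1 h1 => ⟨_, w.del σ {b, z} {p} {x} {u, v, z1} _ (by simp [insert_subset_iff, bA, zA])
      (by simpa using Gr.inc_E hp) (by simpa using xA) (by simp [bx.symm, zx.symm]) rfl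
      (by simp only [insert_subset_iff, singleton_subset_iff]
          exact ⟨mem_union_right _ (Gr.mem_nb_of_inc (by simp) ub),
            mem_union_right _ (Gr.mem_nb_of_inc (by simp) vz),
            mem_union_right _ (Gr.mem_nb_of_inc (by simp) h1)⟩)
      (by intro y hy e he; rw [mem_singleton.1 hy] at he; have := hinc e he; simp at this ⊢; tauto)
      (by simpa using hp)
      (ok.feas_eff sdiff_subset z1 (by
        intro e he he'; simp only [mem_insert, mem_singleton] at he; rcases he with rfl | rfl | rfl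
        · exact absurd he' (Gr.not_mem_nb_of_ends hu ub bx.symm (by simp) (by simp))
        · exact absurd he' (Gr.not_mem_nb_of_ends hv vz zx.symm (by simp) (by simp))
        · rfl))⟩
  by_cases easy : b = z ∨ ¬ P.Fix b ∨ ¬ P.Fix z
  · obtain ⟨B, t, m, d⟩ := dl u ub
    have st := d.step h.wf
    have g0 := st.good0 h.ih (lvA a4) (d.hX b (by simp))
    have := st.c_X5 w (neOA a4)
    have := st.c_X5 w (neOA a6)
    have := st.c_pair w (lvD a2) (h.oppL a2 ho) (d.zF u (by simp) (by simpa using up.symm))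
    rw [hpe] at this
    have := st.c_F5 w (lvA a1) hf (d.wF x (by simp))
    have k := st.c_pair w (lvD a5) o5 (d.zF v (by simp) (by simpa using vp))
    by_cases e1 : b = z
    · exact d.good h.wf [b, p, u, x] (by simp; grind (splits := 60)) (by simp [e1]) (by simp) g0 (by simp; omega)
    by_cases e2 : P.lam v = b
    · rw [e2] at k
      exact d.good h.wf [b, z, p, u, v, x] (by simp; grind (splits := 60)) (by simp) (by simp) g0 (by simp; omega)
    by_cases e3 : P.lam v = z
    · rw [e3] at k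
      exact d.good h.wf [b, z, p, u, v, x] (by simp; grind (splits := 60)) (by simp) (by simp) g0 (by simp; omega)
    refine d.good h.wf [b, z, p, u, v, P.lam v, x] (by simp; grind (splits := 60)) (by simp) (by simp) g0 ?_
    rcases easy with a | a | a
    · exact absurd a e1
    · have := st.c_X4 w (neOA a4) a
      simp; omega
    · have := st.c_X4 w (neOA a6) a
      simp; omega
  simp only [not_or, not_not] at easy
  obtain ⟨e1, fb, fz⟩ := easy
  by_cases ex : ∃ z1 ∈ (P.gr σ).inc b, z1 ∉ (P.gr σ).inc x ∧ z1 ≠ P.lam v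
  · obtain ⟨z1, y1, y2, y3⟩ := ex
    have a7 := tyI y1
    have y4 : z1 ≠ u := fun a => y2 (a ▸ hu)
    have y5 : z1 ≠ p := fun a => y2 (a ▸ hp)
    have y6 : z1 ≠ v := fun a => y2 (a ▸ hv)
    have e2 : P.lam v ≠ b := fun a => fb.dead (by rw [← a, w.lam_lam v (neOD a5)]; exact lvD a5)
    have e3 : P.lam v ≠ z := fun a => fz.dead (by rw [← a, w.lam_lam v (neOD a5)]; exact lvD a5)
    obtain ⟨B, t, m, d⟩ := dl z1 y1
    have st := d.step h.wf
    have g0 := st.good0 h.ih (lvA a4) (d.hX b (by simp))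
    have := st.c_X5 w (neOA a4)
    have := st.c_X5 w (neOA a6)
    have := st.c_pair w (lvD a2) (h.oppL a2 ho) (d.zF u (by simp) (by simpa using up.symm))
    rw [hpe] at this
    have := st.c_F5 w (lvA a1) hf (d.wF x (by simp))
    have k := st.c_pair w (lvD a5) o5 (d.zF v (by simp) (by simpa using vp))
    have := st.c_F1 w (lvD a7) (h.nn _ (lvD a7)) (d.zF z1 (by simp) (by simpa using y5))
    exact d.good h.wf [b, z, p, u, v, P.lam v, x, z1] (by simp; grind (splits := 60)) (by simp) (by simp) g0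
      (by simp; omega)
  push Not at ex
  by_cases c : P.lam v ∈ (P.gr σ).inc b
  · obtain ⟨t, m, d⟩ := w.del σ {x} {P.lam v} {b} (insert v ((P.gr σ).inc b ∩ (P.gr σ).inc x)) _
      (by simpa using xA) (by simpa using Gr.inc_E c) (by simpa using bA) (by simpa using bx) rfl
      ((insert_subset hv inter_subset_right).trans subset_union_right)
      (by
        intro y hy e he; rw [mem_singleton.1 hy] at he
        by_cases a : e ∈ (P.gr σ).inc x
        · simp [he, a]
        · simp [ex e he a])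
      (by simpa using c)
      (ok.feas_eff sdiff_subset v (by
        intro e he he'
        rcases mem_insert.1 he with c | c
        · exact c
        · exact absurd he' (Gr.not_mem_nb_of_ends (mem_inter.1 c).2 (mem_inter.1 c).1 bx.symm
            (by simp) (by simp))))
    have st := d.step h.wf
    have a7 := tyI c
    have := st.c_X5 w (neOA a1)
    have := st.c_pair w (lvD a5) o5 (d.zF v (by simp) (by simpa using vv.symm))
    have := st.c_F5 w (lvA a4) fb (d.wF b (by simp))
    exact d.good h.wf [x, v, P.lam v, b] (by simp; grind (splits := 60)) (by simp) (by simp)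
      (st.good0 h.ih (lvA a1) (d.hX x (by simp))) (by simp; omega)
  · exact h.sub_move fb bx hu ub hp0 ho fun e he => by
      by_contra a; exact c (ex e he a ▸ he)

theorem Red.f4 (h : P.Red) {σ : Bool} {x u v : α} (hf : P.Fix x)
    (hu : u ∈ (P.gr σ).inc x) (hp : P.lam u ∈ (P.gr σ).inc x) (ho : P.opp u = true)
    (hv : v ∈ (P.gr σ).inc x) (hq : P.lam v ∈ (P.gr σ).inc x) (ov : P.opp v = true)
    (vu : v ≠ u) (vp : v ≠ P.lam u) (hd : (P.gr σ).deg x = 4) : P.Good 0 := by
  have w := h.wf.toWF0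
  have ok := h.wf.ok σ
  have a2 := tyI hu
  have a5 := tyI hv
  have up := w.lam_ne u (neOD a2)
  have lp : P.lam (P.lam u) = u := w.lam_lam u (neOD a2)
  have vq := w.lam_ne v (neOD a5)
  have lq : P.lam (P.lam v) = v := w.lam_lam v (neOD a5)
  have qu : P.lam v ≠ u := fun a => vp (by rw [← a, lq])
  have qp : P.lam v ≠ P.lam u := fun a => vu (w.lam_inj (neOD a5) (neOD a2) a)
  obtain ⟨p, hpe⟩ : ∃ p, P.lam u = p := ⟨_, rfl⟩
  obtain ⟨q, hqe⟩ : ∃ p, P.lam v = p := ⟨_, rfl⟩
  have hp0 := hp
  rw [hpe] at hp up lp vp qp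
  rw [hqe] at hq vq lq qu qp
  have a3 := tyI hp
  have a8 := tyI hq
  have xA := ok.inc_A hu
  have bA := ok.oth_A hu
  have bx := ok.oth_ne hu
  have ub := Gr.oth_inc hu
  have zA := ok.oth_A hv
  have zx := ok.oth_ne hv
  have vz := Gr.oth_inc hv
  generalize (P.gr σ).oth u x = b at bA bx ub
  generalize (P.gr σ).oth v x = z at zA zx vz
  have a1 := tyA xA
  have a4 := tyA bA
  have a6 := tyA zA
  have hinc : ∀ e ∈ (P.gr σ).inc x, e ∈ ({u, p, v, q} : Finset α) := fun e he =>
    Gr.mem_of_deg (by simp [insert_subset_iff, hu, hp, hv, hq])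
      (by rw [hd, card_insert_of_notMem (by simp; grind (splits := 60)),
        card_eq_three.2 ⟨p, v, q, vp.symm, qp.symm, vq.symm, rfl⟩]) he
  have dl : ∀ z1 ∈ (P.gr σ).inc b, ∃ B t m, P.DelOut σ {b, z} {p, q} {x} {u, v, z1} B t m :=
    fun z1 h1 => ⟨_, w.del σ {b, z} {p, q} {x} {u, v, z1} _ (by simp [insert_subset_iff, bA, zA])
      (by simp [insert_subset_iff, Gr.inc_E hp, Gr.inc_E hq]) (by simpa using xA)
      (by simp [bx.symm, zx.symm]) rfl
      (by simp only [insert_subset_iff, singleton_subset_iff]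
          exact ⟨mem_union_right _ (Gr.mem_nb_of_inc (by simp) ub),
            mem_union_right _ (Gr.mem_nb_of_inc (by simp) vz),
            mem_union_right _ (Gr.mem_nb_of_inc (by simp) h1)⟩)
      (by intro y hy e he; rw [mem_singleton.1 hy] at he; have := hinc e he; simp at this ⊢; tauto)
      (by simp [hp])
      (ok.feas_eff sdiff_subset z1 (by
        intro e he he'; simp only [mem_insert, mem_singleton] at he; rcases he with rfl | rfl | rfl
        · exact absurd he' (Gr.not_mem_nb_of_ends hu ub bx.symm (by simp) (by simp))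
        · exact absurd he' (Gr.not_mem_nb_of_ends hv vz zx.symm (by simp) (by simp))
        · rfl))⟩
  by_cases easy : b = z ∨ ¬ P.Fix b ∨ ¬ P.Fix z
  · obtain ⟨B, t, m, d⟩ := dl u ub
    have st := d.step h.wf
    have g0 := st.good0 h.ih (lvA a4) (d.hX b (by simp))
    have := st.c_X5 w (neOA a4)
    have := st.c_X5 w (neOA a6)
    have := st.c_pair w (lvD a2) (h.oppL a2 ho) (d.zF u (by simp) (by simp; grind (splits := 60)))
    rw [hpe] at this
    have := st.c_F5 w (lvA a1) hf (d.wF x (by simp))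
    have k := st.c_pair w (lvD a5) (h.oppL a5 ov) (d.zF v (by simp) (by simp; grind (splits := 60)))
    rw [hqe] at k
    by_cases e1 : b = z
    · exact d.good h.wf [b, p, u, x, v, q] (by simp; grind (splits := 60)) (by simp [e1]) (by simp) g0
        (by simp; omega)
    refine d.good h.wf [b, z, p, u, v, q, x] (by simp; grind (splits := 60)) (by simp) (by simp) g0 ?_
    rcases easy with a | a | a
    · exact absurd a e1
    · have := st.c_X4 w (neOA a4) a
      simp; omega
    · have := st.c_X4 w (neOA a6) a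
      simp; omega
  simp only [not_or, not_not] at easy
  obtain ⟨e1, fb, fz⟩ := easy
  by_cases ex : ∃ z1 ∈ (P.gr σ).inc b, z1 ∉ (P.gr σ).inc x
  · obtain ⟨z1, y1, y2⟩ := ex
    have a7 := tyI y1
    have y4 : z1 ≠ u := fun a => y2 (a ▸ hu)
    have y5 : z1 ≠ p := fun a => y2 (a ▸ hp)
    have y6 : z1 ≠ v := fun a => y2 (a ▸ hv)
    have y7 : z1 ≠ q := fun a => y2 (a ▸ hq)
    obtain ⟨B, t, m, d⟩ := dl z1 y1
    have st := d.step h.wf
    have g0 := st.good0 h.ih (lvA a4) (d.hX b (by simp))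
    have := st.c_X5 w (neOA a4)
    have := st.c_X5 w (neOA a6)
    have := st.c_pair w (lvD a2) (h.oppL a2 ho) (d.zF u (by simp) (by simp; grind (splits := 60)))
    rw [hpe] at this
    have := st.c_F5 w (lvA a1) hf (d.wF x (by simp))
    have k := st.c_pair w (lvD a5) (h.oppL a5 ov) (d.zF v (by simp) (by simp; grind (splits := 60)))
    rw [hqe] at k
    have := st.c_F1 w (lvD a7) (h.nn _ (lvD a7)) (d.zF z1 (by simp) (by simp; grind (splits := 60)))
    exact d.good h.wf [b, z, p, u, v, q, x, z1] (by simp; grind (splits := 60)) (by simp) (by simp) g0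
      (by simp; omega)
  push Not at ex
  exact h.sub_move fb bx hu ub hp0 ho ex

/-- a retained edge with an opposite link, two freed plain or one plain and one opposite edge -/
theorem Red.ro_at (h : P.Red) {σ : Bool} {x v : α} (ZA : Finset α) (hx : ¬ P.OppL x)
    (hv : v ∈ (P.gr σ).inc x) (ov : P.opp v = true) (hv' : P.lam v ∉ (P.gr σ).inc x)
    (L : List α) (hnd : L.Nodup) (hL : ∀ s ∈ L, s ∈ (P.gr σ).inc x ∧ s ≠ v)
    (hL' : ∀ s ∈ L, s ∈ ZA ∨ (P.opp s = true))
    (hA : ZA ⊆ (P.gr σ).inc x) (hF : (P.gr σ).Feas ((P.gr σ).A.erase x) ZA)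
    (hk : P.kap x ≤ L.length + 2) : P.Good 0 := by
  have w := h.wf.toWF0
  have ok := h.wf.ok σ
  have xA := ok.inc_A hv
  have a1 := tyA xA
  have a2 := tyI hv
  obtain ⟨t, m, d⟩ := h.wf.del1 xA ∅ ZA (by simp) hA hF
  have st := d.step h.wf
  have k2 := st.c_head w a1 (fun a => absurd a hx)
  have k3 : (L.length : ℤ) ≤ (L.map (P.c t)).sum := by
    have : ∀ s ∈ L, 1 ≤ P.c t s := by
      intro s hs
      have a3 := tyI (hL s hs).1
      rcases hL' s hs with a | a
      · exact st.c_F1 w (lvD a3) (h.nn _ (lvD a3)) (d.zF s a (by simp))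
      · have o := h.oppL a3 a
        refine st.c_K1 w (lvD a3) o (d.opt x (by simp) s (hL s hs).1 (by simp)) fun b => ?_
        have := d.newX _ b (live_ne_X o.2)
        simp only [mem_singleton, notMem_empty, or_false] at this
        exact h.own σ x s (hL s hs).1 o this
    have := List.sum_le_sum (l := L) (f := fun _ => (1 : ℤ)) (g := P.c t) this
    simpa using this
  have xL : x ∉ L := fun a => ne_AE xA (Gr.inc_E (hL x a).1) rfl
  refine h.ro d (x :: L) (by simp [hnd, xL]) (by simp) (by simp) (Gr.inc_E hv) ov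
    (d.opt x (by simp) v hv (by simp)) ?_ ?_ ?_ (by simp; omega)
  · simp only [List.mem_cons, not_or]
    exact ⟨(ne_AE xA (Gr.inc_E hv)).symm, fun a => (hL v a).2 rfl⟩
  · simp only [List.mem_cons, not_or]
    exact ⟨h.own σ x v hv (h.oppL a2 ov), fun a => hv' (hL _ a).1⟩
  · intro y hy hyB
    rcases List.mem_cons.1 hy with a | a
    · simp [a] at hyB
    · exact absurd rfl (ne_AE (mem_of_mem_erase hyB) (Gr.inc_E (hL y a).1))

theorem Red.ro_at2 (h : P.Red) {σ : Bool} {x u v a : α} (hx : ¬ P.OppL x)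
    (hv : v ∈ (P.gr σ).inc x) (ov : P.opp v = true) (hv' : P.lam v ∉ (P.gr σ).inc x)
    (hu : u ∈ (P.gr σ).inc x) (ou : P.opp u = true) (hu' : P.lam u ∉ (P.gr σ).inc x) (uv : u ≠ v)
    (ha : a ∈ (P.gr σ).inc x) (oa : P.opp a = false)
    (hF : (P.gr σ).Feas ((P.gr σ).A.erase x) {u, a}) : P.Good 0 := by
  have w := h.wf.toWF0
  have ok := h.wf.ok σ
  have xA := ok.inc_A hv
  have a1 := tyA xA
  have a2 := tyI hv
  have a3 := tyI hu
  have a4 := tyI ha
  obtain ⟨t, m, d⟩ := h.wf.del1 xA ∅ {u, a} (by simp) (by simp [insert_subset_iff, hu, ha]) hF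
  have st := d.step h.wf
  have tu := d.zF u (by simp) (by simp)
  have := st.c_X5 w (neOA a1)
  have := st.c_pair w (lvD a3) (h.oppL a3 ou) tu
  have := st.c_F1 w (lvD a4) (h.nn _ (lvD a4)) (d.zF a (by simp) (by simp))
  have n1 := h.own σ x u hu (h.oppL a3 ou)
  have n2 := h.own σ x v hv (h.oppL a2 ov)
  have n3 : P.lam u ≠ u := fun e => hu' (by rw [e]; exact hu)
  have n4 : P.lam u ≠ a := fun e => hu' (by rw [e]; exact ha)
  have n5 : P.lam u ≠ v := fun e => hu' (by rw [e]; exact hv)
  have n6 : P.lam v ≠ u := fun e => hv' (by rw [e]; exact hu)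
  have n7 : P.lam v ≠ a := fun e => hv' (by rw [e]; exact ha)
  have n8 : P.lam v ≠ P.lam u := fun e => uv (w.lam_inj (neOD a2) (neOD a3) e).symm
  refine h.ro d [x, u, P.lam u, a] (by simp; grind (splits := 60)) (by simp) (by simp) (Gr.inc_E hv) ov
    (d.opt x (by simp) v hv (by simp)) (by simp; grind (splits := 60)) (by simp; grind (splits := 60)) ?_ (by simp; omega)
  intro y hy hyB
  have := tyA (mem_of_mem_erase hyB)
  have := (mem_erase.1 hyB).1
  have e : y = P.lam u := by simp at hy; grind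
  rw [e, w.lam_lam u (neOD a3)]; exact tu

theorem Red.l1 (h : P.Red) {σ : Bool} {x u a g y : α} {Y : Finset α} (hf : ¬ P.Fix x)
    (hu : u ∈ (P.gr σ).inc x) (ou : P.opp u = true) (hu' : P.lam u ∉ (P.gr σ).inc x)
    (ha : a ∈ (P.gr σ).inc x) (oa : P.opp a = false)
    (hF : (P.gr σ).Feas ((P.gr σ).A.erase x) {u, a}) (hY : Y ⊆ (P.gr σ).A.erase x)
    (hs : ((P.gr σ).nb Y).card ≤ Y.card + 1) (hy : y ∈ Y) (hd : (P.gr σ).deg y = 2)
    (ay : a ∈ (P.gr σ).inc y) (gy : g ∈ (P.gr σ).inc y) (og : P.opp g = true)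
    (gx : g ∉ (P.gr σ).inc x) : P.Good 0 := by
  have w := h.wf.toWF0
  have ok := h.wf.ok σ
  have xA := ok.inc_A hu
  have yA := ok.inc_A ay
  have yx := (mem_erase.1 (hY hy)).1
  have a1 := tyA xA
  have a2 := tyI gy
  have a3 := tyI hu
  have a4 := tyI ha
  have a5 := tyA yA
  have n1 := h.own σ x u hu (h.oppL a3 ou)
  have n3 : P.lam u ≠ u := fun e => hu' (by rw [e]; exact hu)
  have n4 : P.lam u ≠ a := fun e => hu' (by rw [e]; exact ha)
  have n5 : g ≠ u := fun e => gx (by rw [e]; exact hu)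
  have n6 : g ≠ a := fun e => gx (by rw [e]; exact ha)
  have n7 : u ≠ a := by rintro rfl; rw [ou] at oa; cases oa
  by_cases c : g = P.lam u
  · obtain ⟨t, m, d⟩ := w.del σ {x} {g} {y} {u, a} _ (by simpa using xA)
      (by simpa using Gr.inc_E gy) (by simpa using yA) (by simpa using yx) rfl
      (by simp only [insert_subset_iff, singleton_subset_iff]
          exact ⟨mem_union_right _ hu, mem_union_right _ ha⟩)
      (by
        intro y' hy' e he; rw [mem_singleton.1 hy'] at he
        have := Gr.eq_of_deg_two hd ay gy n6.symm he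
        simp; tauto)
      (by simpa using gy)
      (hF.mono (by intro e; simp; tauto) fun e he _ => he)
    have st := d.step h.wf
    have := st.c_X4 w (neOA a1) hf
    have := st.c_pair w (lvD a3) (h.oppL a3 ou) (d.zF u (by simp) (by simpa using n5.symm))
    rw [← c] at this
    have := st.c_F1 w (lvD a4) (h.nn _ (lvD a4)) (d.zF a (by simp) (by simpa using n6.symm))
    have := st.c_F1 w (lvA a5) (h.nn _ (lvA a5)) (d.wF y (by simp))
    exact d.good h.wf [x, u, g, a, y] (by simp; grind (splits := 60)) (by simp) (by simp)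
      (st.good0 h.ih (lvA a1) (d.hX x (by simp))) (by simp; omega)
  · obtain ⟨t, m, d⟩ := h.wf.del1 xA ∅ {u, a} (by simp) (by simp [insert_subset_iff, hu, ha]) hF
    have st := d.step h.wf
    have := st.c_X4 w (neOA a1) hf
    have := st.c_pair w (lvD a3) (h.oppL a3 ou) (d.zF u (by simp) (by simp))
    have := st.c_F1 w (lvD a4) (h.nn _ (lvD a4)) (d.zF a (by simp) (by simp))
    have o := h.oppL a2 og
    have tg := d.tightE Y hY (by
      have b1 : (P.gr σ).nb Y \ {u, a} ⊆ ((P.gr σ).nb Y).erase a := by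
        intro e; simp; tauto
      have b2 := card_le_card b1
      rw [card_erase_of_mem (Gr.mem_nb_of_inc hy ay)] at b2
      omega) g (Gr.mem_nb_of_inc hy gy) (by simp)
    by_cases e : P.lam g = x
    · have k := st.c_X3 w (neOA a1) (e ▸ o.lam w (lvD a2)) (by
        rw [← e, w.lam_lam g (neOD a2)]; rcases tg with b | b <;> rw [b] <;> simp)
      exact d.good h.wf [x, u, P.lam u, a] (by simp; grind (splits := 60)) (by simp) (by simp)
        (st.good0 h.ih (lvA a1) (d.hX x (by simp))) (by simp; omega)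
    have := st.c_K1 w (lvD a2) o tg fun b => e (by simpa using d.newX _ b (live_ne_X o.2))
    exact d.good h.wf [x, u, P.lam u, a, g] (by simp; grind (splits := 60)) (by simp) (by simp)
      (st.good0 h.ih (lvA a1) (d.hX x (by simp))) (by simp; omega)

theorem Red.l2 (h : P.Red) {σ : Bool} {x g g' : α} {Q : Finset α} (hf : ¬ P.Fix x) (hx : ¬ P.OppL x)
    (hQ : Q ⊆ (P.gr σ).A) (xQ : x ∈ Q) (hs : ((P.gr σ).nb Q).card ≤ Q.card + 1)
    (hA : ∀ e ∈ (P.gr σ).inc x, P.opp e = false)
    (g1 : g ∈ (P.gr σ).nb (Q.erase x)) (g2 : g' ∈ (P.gr σ).nb (Q.erase x)) (gg : g ≠ g')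
    (og : P.opp g = true) (og' : P.opp g' = true) : P.Good 0 := by
  have w := h.wf.toWF0
  have ok := h.wf.ok σ
  have xA := hQ xQ
  obtain ⟨u, hu⟩ := ok.exists_inc xA
  obtain ⟨z, hz, hzu, hF⟩ := ok.pair_ext hu
  obtain ⟨t, m, d⟩ := h.wf.del1 xA ∅ {u, z} (by simp) (by simp [insert_subset_iff, hu, hz]) hF
  have st := d.step h.wf
  have a1 := tyA xA
  have a2 := tyI hu
  have a3 := tyI hz
  have a4 := tyE (Gr.nb_subset_E _ g1)
  have a5 := tyE (Gr.nb_subset_E _ g2)
  have := st.c_X4 w (neOA a1) hf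
  have := st.c_F1 w (lvD a2) (h.nn _ (lvD a2)) (d.zF u (by simp) (by simp))
  have := st.c_F1 w (lvD a3) (h.nn _ (lvD a3)) (d.zF z (by simp) (by simp))
  have tg := d.tightE (Q.erase x) (erase_subset_erase _ hQ) (Gr.tight_erase xQ hs hu hz hzu.symm)
  have nx : ∀ s, (P.ty s).live = true → P.OppL s → t (P.lam s) ≠ X := fun s b c e => by
    have := d.newX _ e (live_ne_X c.2)
    simp only [mem_singleton, notMem_empty, or_false] at this
    exact hx (this ▸ c.lam w b)
  have := st.c_K1 w (lvD a4) (h.oppL a4 og) (tg g g1 (by simp)) (nx _ (lvD a4) (h.oppL a4 og))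
  have := st.c_K1 w (lvD a5) (h.oppL a5 og') (tg g' g2 (by simp)) (nx _ (lvD a5) (h.oppL a5 og'))
  have := hA u hu
  have := hA z hz
  exact d.good h.wf [x, u, z, g, g'] (by simp; grind (splits := 60)) (by simp) (by simp)
    (st.good0 h.ih (lvA a1) (d.hX x (by simp))) (by simp; omega)

end St
end Pool.Agent.P.MP_11624f_co
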