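import Pool.Agent.P.MP_11624f_co.Del

set_option autoImplicit false
set_option linter.unusedSectionVars false
open Finset

namespace Pool.Agent.P.MP_11624f_co
open Ty

def fg (oy oe : Bool) (ta tb : Ty) : ℤ :=
  (if oy || oe then 10 else 0) + phi (oy == oe) ta tb - phi oy K ta - phi oe K tb

theorem fg_nonneg : ∀ oy oe ta tb, ta ≠ O → tb ≠ O → 0 ≤ fg oy oe ta tb := by decide +kernel
theorem phi_comm : ∀ o t u, t ≠ O → u ≠ O → phi o t u = phi o u t := by decide +kernel

namespace St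
variable {α : Type} [DecidableEq α] [Fintype α] {P : St α}

theorem gr_congr {P' : St α} (σ : Bool) (hs : P'.side = P.side) (hf : P'.f = P.f) (hg : P'.g = P.g)
    (hA : ∀ s, P'.ty s = A ↔ P.ty s = A) (hD : ∀ s, P'.ty s = D ↔ P.ty s = D) :
    P'.gr σ = P.gr σ := by
  unfold gr
  simp only [hs, hf, hg, hA, hD]

theorem WF.delC (h : P.WF) {c : α} (hc : P.ty c = C) :
    ∃ t m, P.Step (P.side c) t m ∧ t c = X ∧ t (P.l c) = F ∧ t (P.r c) = F ∧
      (∀ v, P.ty v = C → P.cid v = P.cid c → v ≠ c → t v = K ∨ t v = F) ∧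
      (∀ s, t s = X → P.ty s ≠ X → s = c) ∧ (∀ s, P.ty s ≠ C → t s = P.ty s) := by
  set t : α → Ty := fun s => if s = c then X else if s = P.l c ∨ s = P.r c then F else
    if P.ty s = C ∧ P.cid s = P.cid c then K else P.ty s with ht
  set m : α → α := fun s => if P.ty s = C ∧ P.cid s = P.cid c then P.m c s else P.mate s with hm
  have hl := h.l_ty c hc
  have hr := h.r_ty c hc
  have r1 : P.r c ≠ c := fun a => h.l1 c hc (by have := h.lr c hc; rwa [a] at this)
  have tcase : ∀ s, (s = c ∧ t s = X) ∨ (s ≠ c ∧ (s = P.l c ∨ s = P.r c) ∧ t s = F) ∨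
      (s ≠ c ∧ s ≠ P.l c ∧ s ≠ P.r c ∧ P.ty s = C ∧ P.cid s = P.cid c ∧ t s = K ∧ m s = P.m c s) ∨
      (¬ (P.ty s = C ∧ P.cid s = P.cid c) ∧ t s = P.ty s ∧ m s = P.mate s) := by
    intro s
    by_cases a1 : s = c
    · exact Or.inl ⟨a1, if_pos a1⟩
    by_cases a2 : s = P.l c ∨ s = P.r c
    · exact Or.inr (Or.inl ⟨a1, a2, (if_neg a1).trans (if_pos a2)⟩)
    by_cases a3 : P.ty s = C ∧ P.cid s = P.cid c
    · exact Or.inr (Or.inr (Or.inl ⟨a1, (not_or.1 a2).1, (not_or.1 a2).2, a3.1, a3.2,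
        (if_neg a1).trans ((if_neg a2).trans (if_pos a3)), if_pos a3⟩))
    · exact Or.inr (Or.inr (Or.inr ⟨a3, (if_neg a1).trans ((if_neg a2).trans (if_neg a3)), if_neg a3⟩))
  have piece : ∀ s, s = c ∨ s = P.l c ∨ s = P.r c → P.ty s = C ∧ P.cid s = P.cid c := by
    rintro s (rfl | rfl | rfl)
    · exact ⟨hc, rfl⟩
    · exact hl
    · exact hr
  have keep : ∀ s, ¬ (P.ty s = C ∧ P.cid s = P.cid c) → t s = P.ty s ∧ m s = P.mate s := by
    intro s hs
    rcases tcase s with a | a | a | a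
    · exact absurd (piece s (Or.inl a.1)) hs
    · exact absurd (piece s (Or.inr a.2.1)) hs
    · exact absurd ⟨a.2.2.2.1, a.2.2.2.2.1⟩ hs
    · exact a.2
  have keep' : ∀ s, P.ty s ≠ C → t s = P.ty s ∧ m s = P.mate s := fun s hs => keep s fun a => hs a.1
  have tK : ∀ s, s ≠ c → s ≠ P.l c → s ≠ P.r c → P.ty s = C → P.cid s = P.cid c →
      t s = K ∧ m s = P.m c s := by
    intro s a1 a2 a3 a4 a5
    rcases tcase s with a | a | a | a
    · exact absurd a.1 a1
    · rcases a.2.1 with b | b <;> contradiction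
    · exact a.2.2.2.2.2
    · exact absurd ⟨a4, a5⟩ a.1
  have tr : ∀ s, (P.ty s).ok (t s) = true := by
    intro s
    rcases tcase s with a | a | a | a
    · rw [a.2, (piece s (Or.inl a.1)).1]; rfl
    · rw [a.2.2, (piece s (Or.inr a.2.1)).1]; rfl
    · rw [a.2.2.2.2.2.1, a.2.2.2.1]; rfl
    · rw [a.2.1]; simp [Ty.ok]
  have tO : ∀ s, t s = O ↔ P.ty s = O := fun s => ok_O _ _ (tr s)
  have tA : ∀ s, t s = A ↔ P.ty s = A := fun s =>
    ⟨fun a => (ok_live _ _ (tr s) (by rw [a]; rfl)) ▸ a,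
     fun a => (keep' s (by rw [a]; simp)).1.trans a⟩
  have tD : ∀ s, t s = D ↔ P.ty s = D := fun s =>
    ⟨fun a => (ok_live _ _ (tr s) (by rw [a]; rfl)) ▸ a,
     fun a => (keep' s (by rw [a]; simp)).1.trans a⟩
  have tC : ∀ s, t s = C ↔ P.ty s = C ∧ P.cid s ≠ P.cid c := by
    intro s
    constructor
    · intro a
      rcases tcase s with b | b | b | b
      · rw [b.2] at a; cases a
      · rw [b.2.2] at a; cases a
      · rw [b.2.2.2.2.2.1] at a; cases a
      · exact ⟨b.2.1 ▸ a, fun d => b.1 ⟨b.2.1 ▸ a, d⟩⟩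
    · intro a
      exact (keep s fun b => a.2 b.2).1.trans a.1
  have tKK : ∀ s, t s = K → (P.ty s = K ∧ m s = P.mate s) ∨
      (s ≠ c ∧ s ≠ P.l c ∧ s ≠ P.r c ∧ P.ty s = C ∧ P.cid s = P.cid c ∧ m s = P.m c s) := by
    intro s a
    rcases tcase s with b | b | b | b
    · rw [b.2] at a; cases a
    · rw [b.2.2] at a; cases a
    · exact Or.inr ⟨b.1, b.2.1, b.2.2.1, b.2.2.2.1, b.2.2.2.2.1, b.2.2.2.2.2.2⟩
    · exact Or.inl ⟨b.2.1 ▸ a, b.2.2⟩
  have kK : ∀ s, P.ty s = K → t s = K ∧ m s = P.mate s := fun s b => by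
    have := keep' s (by rw [b]; simp)
    exact ⟨this.1.trans b, this.2⟩
  have wf0 : (P.upd t m).WF0 := by
    refine ⟨fun s hs => ?_, fun s hs => ?_, fun s hs => ?_, fun s hs => ?_, fun s hs => ?_,
      fun s hs => ?_, fun s hs => ?_, fun e he => ?_, fun e he => ?_,
      fun e he => h.fg e ((tD e).1 he),
      fun c hc => ?_, fun c hc => ?_, fun c v hc hv => ?_, fun c hc => h.rl c ((tC c).1 hc).1,
      fun c hc => h.lr c ((tC c).1 hc).1, fun c hc => h.l1 c ((tC c).1 hc).1,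
      fun c hc => h.l2 c ((tC c).1 hc).1, fun c hc => h.l3 c ((tC c).1 hc).1,
      fun c hc => h.l4 c ((tC c).1 hc).1, fun c v hc hv => ?_⟩
    · exact fun a => h.lam_ty s (fun b => hs ((tO s).2 b)) ((tO _).1 a)
    · exact h.lam_lam s (fun b => hs ((tO s).2 b))
    · exact h.lam_ne s (fun b => hs ((tO s).2 b))
    · change t (m s) = K
      rcases tKK s hs with a | ⟨a1, a2, a3, a4, a5, a6⟩
      · rw [a.2]; exact (kK _ (h.mate_ty s a.1)).1
      · obtain ⟨b1, b2, b3, b4, b5, _, _⟩ := h.m_ok c s hc a4 a5 a1 a2 a3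
        rw [a6]; exact (tK _ b3 b4 b5 b1 b2).1
    · change m (m s) = s
      rcases tKK s hs with a | ⟨a1, a2, a3, a4, a5, a6⟩
      · rw [a.2, (kK _ (h.mate_ty s a.1)).2]; exact h.mate_mate s a.1
      · obtain ⟨b1, b2, b3, b4, b5, _, b7⟩ := h.m_ok c s hc a4 a5 a1 a2 a3
        rw [a6, (tK _ b3 b4 b5 b1 b2).2, b7]
    · change m s ≠ s
      rcases tKK s hs with a | ⟨a1, a2, a3, a4, a5, a6⟩
      · rw [a.2]; exact h.mate_ne s a.1
      · obtain ⟨b1, b2, b3, b4, b5, b6, b7⟩ := h.m_ok c s hc a4 a5 a1 a2 a3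
        rw [a6]; exact b6
    · change P.side (m s) = P.side s
      rcases tKK s hs with a | ⟨a1, a2, a3, a4, a5, a6⟩
      · rw [a.2]; exact h.mate_side s a.1
      · obtain ⟨b1, b2, _⟩ := h.m_ok c s hc a4 a5 a1 a2 a3
        rw [a6, h.c_side c _ hc b1 b2, h.c_side c _ hc a4 a5]
    · have := h.f_ty e ((tD e).1 he)
      exact ⟨(tA _).2 this.1, this.2⟩
    · have := h.g_ty e ((tD e).1 he)
      exact ⟨(tA _).2 this.1, this.2⟩
    · have := h.l_ty c ((tC c).1 hc).1
      exact ⟨(tC _).2 ⟨this.1, this.2 ▸ ((tC c).1 hc).2⟩, this.2⟩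
    · have := h.r_ty c ((tC c).1 hc).1
      exact ⟨(tC _).2 ⟨this.1, this.2 ▸ ((tC c).1 hc).2⟩, this.2⟩
    · exact h.c_side c v ((tC c).1 hc).1 ((tC v).1 hv).1
    · intro a1 a2 a3 a4
      have := h.m_ok c v ((tC c).1 hc).1 ((tC v).1 hv).1 a1 a2 a3 a4
      exact ⟨(tC _).2 ⟨this.1, this.2.1 ▸ ((tC c).1 hc).2⟩, this.2⟩
  have tc : t c = X := if_pos rfl
  refine ⟨t, m, ⟨⟨tr, ?_, ⟨wf0, fun σ => ?_⟩⟩, ?_⟩, tc, ?_, ?_, ?_, ?_, fun s hs => (keep' s hs).1⟩
  · intro S hS
    refine ⟨fun s hs => hS.x s ((keep' s (by rw [hs]; simp)).1.trans hs), fun s hs => ?_,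
      fun e he => hS.d e ((tD e).2 he), fun y hy => ?_,
      fun c0 hc0 => ?_, fun s hs ho => hS.o s (fun a => hs ((tO s).1 a)) ho⟩
    · have := hS.k s (kK s hs).1
      rwa [upd_mate, (kK s hs).2] at this
    · rcases hS.a y ((tA y).2 hy) with d | ⟨e, d1, d2, d3⟩
      · exact Or.inl d
      · exact Or.inr ⟨e, (tD e).1 d1, d2, d3⟩
    · by_cases a : P.cid c0 = P.cid c
      · refine ⟨c, hc, a.symm, hS.x c tc, fun v a1 a2 a3 a4 a5 => ?_⟩
        have := tK v a3 a4 a5 a1 a2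
        have b := hS.k v this.1
        rwa [upd_mate, this.2] at b
      · obtain ⟨c1, b1, b2, b3, b4⟩ := hS.c c0 ((tC c0).2 ⟨hc0, a⟩)
        have b5 := (tC c1).1 b1
        exact ⟨c1, b5.1, b2, b3, fun v a1 a2 => b4 v ((tC v).2 ⟨a1, a2 ▸ b5.2⟩) a2⟩
  · rw [gr_congr (P := P) (P' := P.upd t m) σ rfl rfl rfl tA tD]; exact h.sur σ
  · intro s hs
    exact (keep s fun a => hs (h.c_side c s hc a.1 a.2)).1
  · exact (if_neg (h.l1 c hc)).trans (if_pos (Or.inl rfl))
  · exact (if_neg r1).trans (if_pos (Or.inr rfl))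
  · intro v a1 a2 a3
    rcases tcase v with a | a | a | a
    · exact absurd a.1 a3
    · exact Or.inr a.2.2
    · exact Or.inl a.2.2.2.2.2.1
    · exact absurd ⟨a1, a2⟩ a.1
  · intro s a1 a2
    rcases tcase s with a | a | a | a
    · exact a.1
    · rw [a.2.2] at a1; cases a1
    · rw [a.2.2.2.2.2.1] at a1; cases a1
    · exact absurd (a.2.1 ▸ a1) a2

/-- retyping of a matched pair, links kept or rerouted -/
theorem WF.retype (h : P.WF) {y : α} (hy : P.ty y = K) (t : α → Ty) (lam : α → α)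
    (ht : ∀ s, s ≠ y → s ≠ P.mate y → t s = P.ty s)
    (h1 : (t y).wt = 0) (h2 : (t (P.mate y)).wt = 0)
    (l1 : ∀ s, t s ≠ O → t (lam s) ≠ O) (l2 : ∀ s, t s ≠ O → lam (lam s) = s)
    (l3 : ∀ s, t s ≠ O → lam s ≠ s) :
    ({ P with ty := t, lam := lam } : St α).WF := by
  have hm := h.mate_ty y hy
  have big : ∀ s, (t s).wt ≠ 0 → s ≠ y ∧ s ≠ P.mate y ∧ t s = P.ty s := fun s hs =>
    ⟨fun a => hs (a ▸ h1), fun a => hs (a ▸ h2), ht s (fun a => hs (a ▸ h1)) (fun a => hs (a ▸ h2))⟩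
  have keep : ∀ s, P.ty s ≠ K → t s = P.ty s := fun s hs =>
    ht s (fun a => hs (a ▸ hy)) (fun a => hs (a ▸ hm))
  have tA : ∀ s, t s = A ↔ P.ty s = A := fun s =>
    ⟨fun a => (big s (by rw [a]; simp [wt])).2.2 ▸ a, fun a => (keep s (by rw [a]; simp)).trans a⟩
  have tD : ∀ s, t s = D ↔ P.ty s = D := fun s =>
    ⟨fun a => (big s (by rw [a]; simp [wt])).2.2 ▸ a, fun a => (keep s (by rw [a]; simp)).trans a⟩
  have tC : ∀ s, t s = C ↔ P.ty s = C := fun s =>
    ⟨fun a => (big s (by rw [a]; simp [wt])).2.2 ▸ a, fun a => (keep s (by rw [a]; simp)).trans a⟩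
  have tK : ∀ s, t s = K → P.ty s = K ∧ s ≠ y ∧ s ≠ P.mate y := fun s a => by
    have := big s (by rw [a]; simp [wt])
    exact ⟨this.2.2 ▸ a, this.1, this.2.1⟩
  refine ⟨⟨l1, l2, l3, fun s hs => ?_, fun s hs => h.mate_mate s (tK s hs).1,
      fun s hs => h.mate_ne s (tK s hs).1, fun s hs => h.mate_side s (tK s hs).1,
      fun e he => ?_, fun e he => ?_, fun e he => h.fg e ((tD e).1 he),
      fun c hc => ?_, fun c hc => ?_, fun c v hc hv => ?_, fun c hc => h.rl c ((tC c).1 hc),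
      fun c hc => h.lr c ((tC c).1 hc), fun c hc => h.l1 c ((tC c).1 hc),
      fun c hc => h.l2 c ((tC c).1 hc), fun c hc => h.l3 c ((tC c).1 hc),
      fun c hc => h.l4 c ((tC c).1 hc), fun c v hc hv => ?_⟩, fun σ => ?_⟩
  · obtain ⟨a1, a2, a3⟩ := tK s hs
    change t (P.mate s) = K
    rw [ht _ (fun b => a3 (by rw [← b, h.mate_mate s a1]))
      (fun b => a2 (by rw [← h.mate_mate s a1, b, h.mate_mate y hy]))]
    exact h.mate_ty s a1
  · have := h.f_ty e ((tD e).1 he)
    exact ⟨(tA _).2 this.1, this.2⟩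
  · have := h.g_ty e ((tD e).1 he)
    exact ⟨(tA _).2 this.1, this.2⟩
  · have := h.l_ty c ((tC c).1 hc)
    exact ⟨(tC _).2 this.1, this.2⟩
  · have := h.r_ty c ((tC c).1 hc)
    exact ⟨(tC _).2 this.1, this.2⟩
  · exact h.c_side c v ((tC c).1 hc) ((tC v).1 hv)
  · intro a1 a2 a3 a4
    have := h.m_ok c v ((tC c).1 hc) ((tC v).1 hv) a1 a2 a3 a4
    exact ⟨(tC _).2 this.1, this.2⟩
  · rw [gr_congr (P := P) (P' := { P with ty := t, lam := lam }) σ rfl rfl rfl tA tD]
    exact h.sur σ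

/-- constraints of `P` from those of a retyped state -/
theorem WF.sat_retype (h : P.WF) {y : α} (hy : P.ty y = K) (t : α → Ty) (lam : α → α)
    (ht : ∀ s, s ≠ y → s ≠ P.mate y → t s = P.ty s)
    (h1 : (t y).wt = 0) (h2 : (t (P.mate y)).wt = 0) {S S' : Finset α}
    (hS : ({ P with ty := t, lam := lam } : St α).Sat S')
    (hSS : ∀ s, s ≠ y → s ≠ P.mate y → (s ∈ S ↔ s ∈ S')) (hk : y ∈ S ∨ P.mate y ∈ S)
    (ho : ∀ s, P.ty s ≠ O → P.opp s = true → s ∈ S ∨ P.lam s ∈ S) : P.Sat S := by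
  have hm := h.mate_ty y hy
  have keep : ∀ s, P.ty s ≠ K → t s = P.ty s ∧ (s ∈ S ↔ s ∈ S') := fun s hs =>
    ⟨ht s (fun a => hs (a ▸ hy)) (fun a => hs (a ▸ hm)),
     hSS s (fun a => hs (a ▸ hy)) (fun a => hs (a ▸ hm))⟩
  have kA : ∀ s, P.ty s = A → t s = A ∧ (s ∈ S ↔ s ∈ S') := fun s a => by
    have := keep s (by rw [a]; simp); exact ⟨this.1.trans a, this.2⟩
  have kD : ∀ s, P.ty s = D → t s = D ∧ (s ∈ S ↔ s ∈ S') := fun s a => by
    have := keep s (by rw [a]; simp); exact ⟨this.1.trans a, this.2⟩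
  have kC : ∀ s, P.ty s = C → t s = C ∧ (s ∈ S ↔ s ∈ S') := fun s a => by
    have := keep s (by rw [a]; simp); exact ⟨this.1.trans a, this.2⟩
  refine ⟨fun s hs => ?_, fun s hs => ?_, fun e he => ?_, fun x hx => ?_, fun c0 hc => ?_, ho⟩
  · have := keep s (by rw [hs]; simp)
    exact this.2.2 (hS.x s (this.1.trans hs))
  · by_cases a2 : s = y
    · rw [a2]; exact hk
    by_cases a3 : s = P.mate y
    · rw [a3, h.mate_mate y hy]; exact hk.symm
    have b1 : P.mate s ≠ y := fun b => a3 (by rw [← b, h.mate_mate s hs])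
    have b2 : P.mate s ≠ P.mate y := fun b => a2 (by rw [← h.mate_mate s hs, b, h.mate_mate y hy])
    rw [hSS s a2 a3, hSS _ b1 b2]
    exact hS.k s ((ht s a2 a3).trans hs)
  · rw [(kD e he).2, (kA _ (h.f_ty e he).1).2, (kA _ (h.g_ty e he).1).2]
    exact hS.d e (kD e he).1
  · rcases hS.a x (kA x hx).1 with d | ⟨e, d1, d2, d3⟩
    · exact Or.inl ((kA x hx).2.2 d)
    · have d1' : t e = D := d1
      have a1 : e ≠ y := fun a => by rw [← a, d1'] at h1; cases h1
      have a2 : e ≠ P.mate y := fun a => by rw [← a, d1'] at h2; cases h2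
      exact Or.inr ⟨e, (ht e a1 a2) ▸ d1', d2, (hSS e a1 a2).2 d3⟩
  · obtain ⟨c, c1, c2, c3, c4⟩ := hS.c c0 (kC c0 hc).1
    have d1' : t c = C := c1
    have a1 : c ≠ y := fun a => by rw [← a, d1'] at h1; cases h1
    have a2 : c ≠ P.mate y := fun a => by rw [← a, d1'] at h2; cases h2
    have c5 : P.ty c = C := (ht c a1 a2) ▸ d1'
    refine ⟨c, c5, c2, (kC c c5).2.2 c3, fun v b1 b2 b3 b4 b5 => ?_⟩
    rw [(kC v b1).2, (kC _ (h.m_ok c v c5 b1 b2 b3 b4 b5).1).2]
    exact c4 v (kC v b1).1 b2 b3 b4 b5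

theorem Step.kill {σ : Bool} {t : α → Ty} {m : α → α} (st : P.Step σ t m) {y : α}
    (hy : t y = K) (h1 : (P.ty y).live = true) (h2 : (P.ty (m y)).live = true) :
    ∃ t2, P.Step σ t2 m ∧ t2 y = F ∧ t2 (m y) = X ∧ ∀ s, s ≠ y → s ≠ m y → t2 s = t s := by
  set t2 : α → Ty := fun s => if s = y then F else if s = m y then X else t s with ht2
  have hne : m y ≠ y := st.wf.mate_ne y hy
  have hk : t (m y) = K := st.wf.mate_ty y hy
  have a1 : t2 y = F := if_pos rfl
  have a2 : t2 (m y) = X := (if_neg hne).trans (if_pos rfl)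
  have a3 : ∀ s, s ≠ y → s ≠ m y → t2 s = t s := fun s a b => (if_neg a).trans (if_neg b)
  have tO : ∀ s, t2 s = O ↔ t s = O := by
    intro s
    by_cases b1 : s = y
    · rw [b1, a1, hy]; simp
    by_cases b2 : s = m y
    · rw [b2, a2, hk]; simp
    rw [a3 s b1 b2]
  have wf : (P.upd t2 m).WF := st.wf.retype (y := y) hy t2 P.lam a3 (by rw [a1]; rfl)
    (by change (t2 (m y)).wt = 0; rw [a2]; rfl)
    (fun s hs a => st.wf.lam_ty s (fun b => hs ((tO s).2 b)) ((tO _).1 a))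
    (fun s hs => st.wf.lam_lam s (fun b => hs ((tO s).2 b)))
    (fun s hs => st.wf.lam_ne s (fun b => hs ((tO s).2 b)))
  refine ⟨t2, ⟨⟨fun s => ?_, fun S hS => st.sat S ?_, wf⟩, fun s hs => ?_⟩, a1, a2, a3⟩
  · by_cases b1 : s = y
    · rw [b1, a1]; simp [Ty.ok, h1]
    by_cases b2 : s = m y
    · rw [b2, a2]; simp [Ty.ok, h2]
    rw [a3 s b1 b2]; exact st.tr s
  · exact st.wf.sat_retype (y := y) hy t2 P.lam a3 (by rw [a1]; rfl)
      (by change (t2 (m y)).wt = 0; rw [a2]; rfl) (S := S) (S' := S) hS (fun _ _ _ => Iff.rfl)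
      (Or.inr (hS.x _ a2)) (fun s hs ho => hS.o s (fun a => hs ((tO s).1 a)) ho)
  · have b1 : s ≠ y := by
      rintro rfl
      rw [← st.off s hs, hy] at h1; cases h1
    have b2 : s ≠ m y := by
      rintro rfl
      rw [← st.off _ hs, hk] at h2; cases h2
    rw [a3 s b1 b2]; exact st.off s hs

theorem WF.fold (h : P.WF) (ih : P.IH) {y : α} (hy : P.ty y = K) :
    P.Good (if P.lam y = P.mate y then 0 else
      fg (P.opp y) (P.opp (P.mate y)) (P.ty (P.lam y)) (P.ty (P.lam (P.mate y)))) := by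
  set e := P.mate y with he
  set a := P.lam y with ha
  set b := P.lam e with hb
  have ek : P.ty e = K := h.mate_ty y hy
  have ey : e ≠ y := h.mate_ne y hy
  have yO : P.ty y ≠ O := by rw [hy]; simp
  have eO : P.ty e ≠ O := by rw [ek]; simp
  have aO : P.ty a ≠ O := h.lam_ty y yO
  have bO : P.ty b ≠ O := h.lam_ty e eO
  have la : P.lam a = y := h.lam_lam y yO
  have lb : P.lam b = e := h.lam_lam e eO
  have ay : a ≠ y := h.lam_ne y yO
  have be : b ≠ e := h.lam_ne e eO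
  have ab : a ≠ b := fun c => ey (h.lam_inj yO eO c).symm
  have sey : P.side e = P.side y := h.mate_side y hy
  set t : α → Ty := fun s => if s = y ∨ s = e then O else P.ty s with ht
  set lam : α → α := fun s => if s = a then b else if s = b then a else P.lam s with hlam
  have ty' : t y = O := if_pos (Or.inl rfl)
  have te' : t e = O := if_pos (Or.inr rfl)
  have tk : ∀ s, s ≠ y → s ≠ e → t s = P.ty s := fun s c d => if_neg (not_or.2 ⟨c, d⟩)
  have tO : ∀ s, t s ≠ O → s ≠ y ∧ s ≠ e ∧ P.ty s ≠ O := fun s hs =>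
    ⟨fun c => hs (c ▸ ty'), fun c => hs (c ▸ te'),
      tk s (fun c => hs (c ▸ ty')) (fun c => hs (c ▸ te')) ▸ hs⟩
  have lama : lam a = b := if_pos rfl
  have lamb : lam b = a := (if_neg ab.symm).trans (if_pos rfl)
  have lamk : ∀ s, s ≠ a → s ≠ b → lam s = P.lam s := fun s c d => (if_neg c).trans (if_neg d)
  have aeby : a = e ↔ b = y := ⟨fun c => by rw [hb, ← c, la], fun c => by rw [ha, ← c, lb]⟩
  have other : ∀ s, P.ty s ≠ O → s ≠ a → s ≠ b → s ≠ y → s ≠ e →
      P.lam s ≠ a ∧ P.lam s ≠ b ∧ P.lam s ≠ y ∧ P.lam s ≠ e := by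
    intro s c c1 c2 c3 c4
    exact ⟨fun d => c3 (h.lam_inj c yO d), fun d => c4 (h.lam_inj c eO d),
      fun d => c1 (by rw [ha, ← d, h.lam_lam s c]), fun d => c2 (by rw [hb, ← d, h.lam_lam s c])⟩
  set P' : St α := { P with ty := t, lam := lam } with hP'
  have wf : P'.WF := by
    refine h.retype hy t lam tk (by rw [ty']; rfl) (by rw [te']; rfl) ?_ ?_ ?_
    · intro s hs
      obtain ⟨c1, c2, c3⟩ := tO s hs
      by_cases d1 : s = a
      · rw [d1, lama, tk b (fun d => c2 (d1.trans (aeby.2 d))) be]; exact bO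
      by_cases d2 : s = b
      · rw [d2, lamb, tk a ay (fun d => c1 (d2.trans (aeby.1 d)))]; exact aO
      obtain ⟨_, _, d5, d6⟩ := other s c3 d1 d2 c1 c2
      rw [lamk s d1 d2, tk _ d5 d6]; exact h.lam_ty s c3
    · intro s hs
      obtain ⟨c1, c2, c3⟩ := tO s hs
      by_cases d1 : s = a
      · rw [d1, lama, lamb]
      by_cases d2 : s = b
      · rw [d2, lamb, lama]
      obtain ⟨d3, d4, _, _⟩ := other s c3 d1 d2 c1 c2
      rw [lamk s d1 d2, lamk _ d3 d4]; exact h.lam_lam s c3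
    · intro s hs
      obtain ⟨c1, c2, c3⟩ := tO s hs
      by_cases d1 : s = a
      · rw [d1, lama]; exact ab.symm
      by_cases d2 : s = b
      · rw [d2, lamb]; exact ab
      rw [lamk s d1 d2]; exact h.lam_ne s c3
  have hmu : P'.mu < P.mu := by
    refine sum_lt_sum (fun s _ => ?_) ⟨y, mem_univ _, ?_⟩
    · change (t s).wt ≤ _
      by_cases c : s = y ∨ s = e
      · rw [show t s = O from if_pos c]; exact Nat.zero_le _
      · rw [show t s = P.ty s from if_neg c]
    · change (t y).wt < _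
      rw [ty', hy]; decide
  obtain ⟨S', hS', hv⟩ := ih P' wf hmu
  set cy : Prop := if a = e then True else if P.opp e then b ∈ S' else
    if P.opp y then a ∉ S' else a ∈ S' with hcy
  set ce : Prop := if a = e then False else if P.opp e then b ∉ S' else
    if P.opp y then a ∈ S' else b ∈ S' with hce
  classical
  set S : Finset α := univ.filter (fun s => if s = y then cy else if s = e then ce else s ∈ S') with hS
  have Sy : y ∈ S ↔ cy := by simp [hS]
  have Se : e ∈ S ↔ ce := by simp [hS, ey]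
  have Sk : ∀ s, s ≠ y → s ≠ e → (s ∈ S ↔ s ∈ S') := fun s c d => by simp [hS, c, d]
  have oa : P.opp a = P.opp y := h.opp_lam yO
  have ob : P.opp b = P.opp e := h.opp_lam eO
  have oab : P'.opp a = (P.opp y == P.opp e) := by
    change (P.side a == P.side (lam a)) = _
    rw [lama]; unfold opp; rw [← ha, ← hb, sey]
    cases P.side y <;> cases P.side a <;> cases P.side b <;> rfl
  have oba : P'.opp b = (P.opp y == P.opp e) := by
    change (P.side b == P.side (lam b)) = _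
    rw [lamb]; unfold opp; rw [← ha, ← hb, sey]
    cases P.side y <;> cases P.side a <;> cases P.side b <;> rfl
  have hab : a ≠ e → P.opp y = P.opp e → a ∈ S' ∨ b ∈ S' := by
    intro c d
    have := hS'.o a (by change t a ≠ O; rw [tk a ay c]; exact aO) (by rw [oab, d]; simp)
    change a ∈ S' ∨ lam a ∈ S' at this
    rwa [lama] at this
  have oth : ∀ s, s ≠ a → s ≠ b → s ≠ y → s ≠ e → P'.opp s = P.opp s := fun s c1 c2 _ _ => by
    change (P.side s == P.side (lam s)) = _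
    rw [lamk s c1 c2]; rfl
  have sat : P.Sat S := by
    refine h.sat_retype hy t lam tk (by rw [ty']; rfl) (by rw [te']; rfl) hS' Sk ?_ ?_
    · rw [Sy, Se, hcy, hce]
      by_cases c : a = e
      · simp [c]
      · have := hab c
        rw [if_neg c, if_neg c]
        revert this
        cases P.opp y <;> cases P.opp e <;> by_cases e1 : a ∈ S' <;>
          by_cases e2 : b ∈ S' <;> simp [e1, e2]
    · have oy : P.opp y = true → y ∈ S ∨ a ∈ S := by
        intro d1
        by_cases c : a = e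
        · left; rw [Sy, hcy]; simp [c]
        · have := hab c
          rw [Sy, Sk a ay c, hcy, if_neg c]
          revert this
          rw [d1]
          cases P.opp e <;> by_cases e1 : a ∈ S' <;> by_cases e2 : b ∈ S' <;> simp [e1, e2]
      have oe : P.opp e = true → e ∈ S ∨ b ∈ S := by
        intro d1
        by_cases c : a = e
        · right; rw [aeby.1 c, Sy, hcy]; simp [c]
        · rw [Se, Sk b (fun d => c (aeby.2 d)) be, hce]
          by_cases e2 : b ∈ S' <;> simp [c, d1, e2]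
      intro s hs ho
      by_cases c1 : s = y
      · rw [c1] at ho ⊢; exact oy ho
      by_cases c2 : s = e
      · rw [c2] at ho ⊢; exact oe ho
      by_cases c3 : s = a
      · rw [c3] at ho ⊢; rw [la]; exact (oy (oa ▸ ho)).symm
      by_cases c4 : s = b
      · rw [c4] at ho ⊢; rw [lb]; exact (oe (ob ▸ ho)).symm
      obtain ⟨_, _, d5, d6⟩ := other s hs c3 c4 c1 c2
      rw [Sk s c1 c2, Sk _ d5 d6]
      have := hS'.o s (by change t s ≠ O; rw [tk s c1 c2]; exact hs) (by rw [oth s c3 c4 c1 c2, ho])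
      change s ∈ S' ∨ lam s ∈ S' at this
      rwa [lamk s c3 c4] at this
  refine ⟨S, sat, ?_⟩
  set w : α → ℤ := fun s => (P.vs S s - phi (P.opp s) (P.ty s) (P.ty (P.lam s))) -
    (P'.vs S' s - phi (P'.opp s) (P'.ty s) (P'.ty (P'.lam s))) with hw
  have w0 : ∀ s, s ≠ a → s ≠ b → s ≠ y → s ≠ e → w s = 0 := by
    intro s c3 c4 c1 c2
    simp only [hw, vs, oth s c3 c4 c1 c2]
    change _ - ((if t s = O then 0 else if _ then (if s ∉ S' ∨ lam s ∉ S' then 10 else 0) else
      (if s ∉ S' ∧ lam s ∉ S' then 10 else 0)) - phi _ (t s) (t (lam s))) = (0 : ℤ)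
    rw [tk s c1 c2, lamk s c3 c4]
    by_cases hs : P.ty s = O
    · simp [hs, phi]
    · obtain ⟨_, _, d5, d6⟩ := other s hs c3 c4 c1 c2
      simp only [tk _ d5 d6, Sk s c1 c2, Sk _ d5 d6]; simp
  have wsum : ∑ s, w s = (P.val S - P.Phi) - (P'.val S' - P'.Phi) := by
    simp only [hw, val, Phi, sum_sub_distrib]
  have vO : ∀ s, t s = O → P'.vs S' s - phi (P'.opp s) (P'.ty s) (P'.ty (P'.lam s)) = 0 := by
    intro s hs
    have : P'.ty s = O := hs
    simp [vs, this, phi]
  by_cases c : a = e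
  · have hsum : ∑ s, w s = ∑ s ∈ ({y, e} : Finset α), w s := by
      refine (sum_subset (subset_univ _) fun s _ hs => ?_).symm
      simp only [mem_insert, mem_singleton, not_or] at hs
      exact w0 s (c ▸ hs.2) (aeby.1 c ▸ hs.1) hs.1 hs.2
    have oy : P.opp y = true := by unfold opp; rw [← ha, c, sey]; simp
    have oe : P.opp e = true := by rw [← c, oa, oy]
    have eS : e ∉ S := by rw [Se, hce]; simp [c]
    rw [sum_pair ey.symm] at hsum
    have w1 : w y = 0 := by
      simp only [hw, vO y ty']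
      simp only [vs, ← ha, c, oy, hy, ek]; simp [eS, phi]
    have w2 : w e = 0 := by
      simp only [hw, vO e te']
      simp only [vs, ← hb, aeby.1 c, oe, hy, ek]; simp [eS, phi]
    rw [if_pos c]; omega
  · have c' : b ≠ y := fun d => c (aeby.2 d)
    have hsum : ∑ s, w s = ∑ s ∈ ({y, e, a, b} : Finset α), w s := by
      refine (sum_subset (subset_univ _) fun s _ hs => ?_).symm
      simp only [mem_insert, mem_singleton, not_or] at hs
      exact w0 s hs.2.2.1 hs.2.2.2 hs.1 hs.2.1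
    rw [sum_insert (by simp [ey.symm, ay.symm, c'.symm]), sum_insert (by simp [Ne.symm c, be.symm]),
      sum_pair ab] at hsum
    have ta : P'.ty a = P.ty a := tk a ay c
    have tb : P'.ty b = P.ty b := tk b c' be
    have la' : P'.lam a = b := lama
    have lb' : P'.lam b = a := lamb
    have key : 2 * fg (P.opp y) (P.opp e) (P.ty a) (P.ty b) ≤ w y + (w e + (w a + w b)) := by
      simp only [hw, vO y ty', vO e te']
      simp only [vs, ← ha, ← hb, la, lb, oa, ob, oab, oba, ta, tb, la', lb', hy, ek, aO, bO, Sy, Se,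
        Sk a ay c, Sk b c' be, hcy, hce, c, if_false, fg]
      rw [phi_comm _ (P.ty a) K aO (by simp), phi_comm _ (P.ty b) K bO (by simp),
        phi_comm _ (P.ty b) (P.ty a) bO aO]
      have := hab c
      revert this
      cases P.opp y <;> cases P.opp e <;> by_cases e1 : a ∈ S' <;>
        by_cases e2 : b ∈ S' <;> simp [e1, e2] <;> omega
    rw [if_neg c]; omega

theorem WF.fold0 (h : P.WF) (ih : P.IH) {y : α} (hy : P.ty y = K) : P.Good 0 := by
  refine (h.fold ih hy).mono ?_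
  split_ifs
  · exact le_rfl
  · exact fg_nonneg _ _ _ _ (h.lam_ty _ (by rw [hy]; simp))
      (h.lam_ty _ (by rw [h.mate_ty y hy]; simp))

theorem WF.terminal (h : P.WF) (h0 : ∀ s, (P.ty s).wt = 0) : P.Good 0 := by
  classical
  set rk := Fintype.equivFin α with hrk
  set S : Finset α := univ.filter (fun s => P.ty s = X ∨
    (P.ty s = F ∧ P.opp s = true ∧ P.ty (P.lam s) = F ∧ rk s < rk (P.lam s))) with hS
  have mS : ∀ s, s ∈ S ↔ P.ty s = X ∨
    (P.ty s = F ∧ P.opp s = true ∧ P.ty (P.lam s) = F ∧ rk s < rk (P.lam s)) := by simp [hS]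
  have tys : ∀ s, P.ty s ≠ O → P.ty s = X ∨ P.ty s = F := by
    intro s hs
    have := h0 s
    revert hs this
    cases P.ty s <;> simp [wt]
  refine ⟨S, ⟨fun s hs => (mS s).2 (Or.inl hs), fun s hs => ?_, fun s hs => ?_, fun s hs => ?_,
    fun s hs => ?_, fun s hs ho => ?_⟩, ?_⟩
  · have := h0 s; rw [hs] at this; cases this
  · have := h0 s; rw [hs] at this; cases this
  · have := h0 s; rw [hs] at this; cases this
  · have := h0 s; rw [hs] at this; cases this
  · rw [mS, mS, h.opp_lam hs, h.lam_lam s hs]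
    have a : rk s ≠ rk (P.lam s) := fun c => h.lam_ne s hs (rk.injective c).symm
    rcases tys s hs with b | b <;> rcases tys _ (h.lam_ty s hs) with c | c <;> simp [b, c, ho]
    exact (h.lam_ne s hs).symm
  · simp only [mul_zero, add_zero]
    refine sum_le_sum fun s _ => ?_
    by_cases hs : P.ty s = O
    · simp [vs, hs, phi]
    · unfold vs
      simp only [mS, h.opp_lam hs, h.lam_lam s hs]
      rcases tys s hs with b | b <;> rcases tys _ (h.lam_ty s hs) with c | c <;>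
        cases d : P.opp s <;> simp [b, c, phi]
      by_cases e1 : rk s < rk (P.lam s)
      · simp [le_of_lt e1]
      · simp [not_lt.1 e1]

end St
end Pool.Agent.P.MP_11624f_co
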