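import Pool.Agent.P.MP_11624f_co.Hall

set_option autoImplicit false
open Finset

namespace Pool.Agent.P.MP_11624f_co
namespace Gr
variable {α : Type} [DecidableEq α] {G : Gr α}

theorem loan_sum (s N : Finset α) (hN : N ⊆ s) (δ β : α → ℤ) (φ : α → α)
    (hinj : Set.InjOn φ N) (hφ : ∀ x ∈ N, φ x ∈ s) (h1 : ∀ x ∈ s, x ∉ N → δ x ≤ β x)
    (h2 : ∀ x ∈ N, δ x ≤ β x + 1) (h3 : ∀ x ∈ N, δ (φ x) ≤ β (φ x) - 1) :
    ∑ x ∈ s, δ x ≤ ∑ x ∈ s, β x := by
  have key : ∀ x ∈ s, δ x + (if x ∈ N.image φ then 1 else 0) ≤ β x + (if x ∈ N then 1 else 0) := by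
    intro x hx
    by_cases a : x ∈ N.image φ
    · obtain ⟨y, hy, rfl⟩ := mem_image.1 a
      have := h3 y hy
      rw [if_pos a]; split_ifs <;> omega
    · rw [if_neg a]
      by_cases b : x ∈ N
      · have := h2 x b; rw [if_pos b]; omega
      · have := h1 x hx b; rw [if_neg b]; omega
  have h4 := sum_le_sum key
  rw [sum_add_distrib, sum_add_distrib, sum_ite_mem, sum_ite_mem, inter_eq_right.2 hN,
    inter_eq_right.2 (image_subset_iff.2 hφ)] at h4
  simp only [sum_const, card_image_of_injOn hinj] at h4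
  omega

theorem Ok.sum_deg (h : G.Ok) : ∑ y ∈ G.A, G.deg y = 2 * G.E.card := by
  have h1 := h.handshake G.A
  have h2 : G.cut G.A = ∅ := by
    rw [eq_empty_iff_forall_notMem]
    intro e he
    simp only [cut, mem_filter] at he
    have := h.fA e he.1
    have := h.gA e he.1
    tauto
  have h3 : G.nb G.A = G.E := by
    ext e; rw [mem_nb]
    exact ⟨fun a => a.1, fun a => ⟨a, Or.inl (h.fA e a)⟩⟩
  rw [h2, h3] at h1; simpa using h1

theorem nb_subset_E (Y : Finset α) : G.nb Y ⊆ G.E := filter_subset _ _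

theorem Ok.global (h : G.Ok) (δ : α → ℤ)
    (hδ : ∀ x ∈ G.A, δ x ≤ 0 ∨ (4 ≤ G.deg x ∧ δ x ≤ (G.deg x : ℤ) - 3 ∧ G.Big x) ∨
      (δ x ≤ 1 ∧ 3 ≤ G.deg x ∧ ∃ Y, G.Petal x Y ∧ ∃ y ∈ Y, δ y ≤ -1)) :
    ∃ T ⊆ G.A, ∃ Z ⊆ G.nb T, G.Feas (G.A \ T) Z ∧
      ∑ x ∈ G.A, δ x ≤ 5 * ((Z.card : ℤ) - 2 * T.card) := by
  classical
  set Ds := G.A.filter (fun x => 4 ≤ G.deg x ∧ G.Big x) with hDs
  set δ1 : α → ℤ := fun x => if x ∈ Ds then (G.deg x : ℤ) - 3 else 0 with hδ1
  have δ1nn : ∀ x, 0 ≤ δ1 x := by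
    intro x; simp only [hδ1]; split_ifs with a
    · have := (mem_filter.1 a).2.1; omega
    · exact le_rfl
  -- step 1
  have step1 : ∑ x ∈ G.A, δ x ≤ ∑ x ∈ G.A, δ1 x := by
    set N := G.A.filter (fun x => δ1 x < δ x) with hN
    have hex : ∀ x, ∃ y, x ∈ N → (δ x ≤ 1 ∧ 3 ≤ G.deg x ∧ ∃ Y, G.Petal x Y ∧ y ∈ Y ∧ δ y ≤ -1) := by
      intro x
      by_cases hx : x ∈ N
      · obtain ⟨hx1, hx2⟩ := mem_filter.1 hx
        rcases hδ x hx1 with a | a | a
        · have := δ1nn x; omega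
        · have : x ∈ Ds := mem_filter.2 ⟨hx1, a.1, a.2.2⟩
          simp only [hδ1, if_pos this] at hx2; omega
        · obtain ⟨a1, a2, Y, a3, y, a4, a5⟩ := a
          exact ⟨y, fun _ => ⟨a1, a2, Y, a3, a4, a5⟩⟩
      · exact ⟨x, fun a => absurd a hx⟩
    choose φ hφ using hex
    refine loan_sum G.A N (filter_subset _ _) δ δ1 φ ?_ ?_ ?_ ?_ ?_
    · intro x hx x' hx' he
      obtain ⟨_, a2, Y, a3, a4, _⟩ := hφ x hx
      obtain ⟨_, b2, Y', b3, b4, _⟩ := hφ x' hx'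
      exact h.petal_unique a3 b3 (by omega) (by omega) a4 (he ▸ b4)
    · intro x hx
      obtain ⟨_, _, Y, a3, a4, _⟩ := hφ x hx
      exact mem_of_mem_erase (a3.1 a4)
    · intro x hx hx'
      by_contra hc
      exact hx' (mem_filter.2 ⟨hx, by omega⟩)
    · intro x hx
      have := (hφ x hx).1
      have := δ1nn x; omega
    · intro x hx
      obtain ⟨_, _, Y, _, _, a5⟩ := hφ x hx
      have := δ1nn (φ x); omega
  -- step 2 : extremal pair
  obtain ⟨p, hp, hmax⟩ := exists_max_image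
    ((Ds.powerset ×ˢ G.E.powerset).filter
      (fun p => p.2 ⊆ G.nb p.1 ∧ G.Feas (G.A \ p.1) p.2 ∧ 3 * p.1.card ≤ p.2.card))
    (fun p => p.2.card) ⟨(∅, ∅), by
      simp only [mem_filter, mem_product, mem_powerset, empty_subset, card_empty, true_and]
      exact ⟨h.feas_empty sdiff_subset, le_rfl⟩⟩
  obtain ⟨T, Z⟩ := p
  simp only [mem_filter, mem_product, mem_powerset, Prod.forall] at hp hmax
  obtain ⟨⟨hT, hZE⟩, hZ, hF, h3⟩ := hp
  have hTA : T ⊆ G.A := hT.trans (filter_subset _ _)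
  refine ⟨T, hTA, Z, hZ, hF, step1.trans ?_⟩
  obtain ⟨R, hR, hRt, hRmax⟩ := hF.maxTight
  have ha : G.nb T ⊆ Z ∪ G.nb R := by
    intro c hc
    by_cases hcZ : c ∈ Z
    · exact mem_union_left _ hcZ
    · have : ¬ G.Feas (G.A \ T) (insert c Z) := by
        intro hf
        have := hmax T (insert c Z) ⟨⟨hT, insert_subset (nb_subset_E _ hc) hZE⟩,
          insert_subset hc hZ, hf, by rw [card_insert_of_notMem hcZ]; omega⟩
        rw [card_insert_of_notMem hcZ] at this; omega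
      obtain ⟨Y, hY, hY1, hY2, _⟩ := hF.blocked this
      exact mem_union_right _ (nb_mono (hRmax Y hY hY1) hY2)
  have hb : ∀ y ∈ Ds, y ∉ T → ∃ Q ⊆ G.A \ T, y ∈ Q ∧ (G.nb Q \ Z).card ≤ Q.card + 1 := by
    intro y hy hyT
    have hyA : y ∈ G.A := (mem_filter.1 hy).1
    obtain ⟨Z', Ys, a1, a2, a3, a4, _, a6⟩ := ext_at (G := G) (x := y) (notMem_erase y (G.A \ T))
      (hF.mono (erase_subset _ _) (fun e he _ => he))
    by_cases hc : 3 ≤ (Z' \ Z).card
    · exfalso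
      have b1 : (Z' \ Z).card + Z.card = Z'.card := card_sdiff_add_card_eq_card a1
      have b2 : Z' ⊆ G.nb (insert y T) := by
        rw [nb_insert]
        intro e he
        rcases mem_union.1 (a2 he) with b | b
        · exact mem_union_right _ (hZ b)
        · exact mem_union_left _ b
      have := hmax (insert y T) Z' ⟨⟨insert_subset hy hT, b2.trans (nb_subset_E _)⟩, b2,
        by rw [sdiff_insert]; exact a3, by rw [card_insert_of_notMem hyT]; omega⟩
      omega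
    · exact ⟨insert y Ys, insert_subset (mem_sdiff.2 ⟨hyA, hyT⟩) (a4.trans (erase_subset _ _)),
        mem_insert_self _ _, by omega⟩
  set G' : Gr α := ⟨(G.A \ T) \ R, G.E \ (Z ∪ G.nb R), G.f, G.g⟩ with hG'
  have hnb' : ∀ Y, G'.nb Y = G.nb Y \ (Z ∪ G.nb R) := by
    intro Y; ext e; simp only [mem_nb, hG', mem_sdiff]; tauto
  have hsplit : ∀ Y, (G'.nb Y).card + R.card = (G.nb (Y ∪ R) \ Z).card := by
    intro Y
    rw [← hRt, ← card_union_of_disjoint]
    · congr 1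
      rw [hnb', nb_union]; ext e; simp only [mem_union, mem_sdiff]; tauto
    · rw [hnb', disjoint_left]; intro e; simp only [mem_union, mem_sdiff]; tauto
  have hok : G'.Ok := by
    refine ⟨fun e he => ?_, fun e he => ?_, fun e he => h.ne e (mem_sdiff.1 he).1, fun Y hY hne => ?_⟩
    · obtain ⟨b1, b2⟩ := mem_sdiff.1 he
      refine mem_sdiff.2 ⟨mem_sdiff.2 ⟨h.fA e b1, fun b => b2 (ha (mem_nb.2 ⟨b1, Or.inl b⟩))⟩, fun b => ?_⟩
      exact b2 (mem_union_right _ (mem_nb.2 ⟨b1, Or.inl b⟩))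
    · obtain ⟨b1, b2⟩ := mem_sdiff.1 he
      refine mem_sdiff.2 ⟨mem_sdiff.2 ⟨h.gA e b1, fun b => b2 (ha (mem_nb.2 ⟨b1, Or.inr b⟩))⟩, fun b => ?_⟩
      exact b2 (mem_union_right _ (mem_nb.2 ⟨b1, Or.inr b⟩))
    · have b1 := hsplit Y
      have b2 : Y ∪ R ⊆ G.A \ T := union_subset (hY.trans sdiff_subset) hR
      have b3 : Disjoint Y R := disjoint_of_subset_left hY sdiff_disjoint
      have b4 := card_union_of_disjoint b3
      by_contra hc
      have := hRmax (Y ∪ R) b2 (by omega)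
      obtain ⟨y, hy⟩ := hne
      exact disjoint_left.1 b3 hy (this (mem_union_left _ hy))
  have hinc : ∀ y, G'.inc y ⊆ G.inc y := by
    intro y; unfold inc; rw [hnb']; exact sdiff_subset
  have hdeg : ∀ y, G'.deg y ≤ G.deg y := fun y => card_le_card (hinc y)
  have step3 : ∑ x ∈ G'.A, δ1 x ≤ ∑ x ∈ G'.A, 2 * ((G.deg x : ℤ) - G'.deg x) := by
    set N := G'.A.filter (fun x => 2 * ((G.deg x : ℤ) - G'.deg x) < δ1 x) with hN
    have hex : ∀ x, ∃ y, x ∈ N → (δ1 x ≤ 1 ∧ 4 ≤ G'.deg x ∧ ∃ Y, G'.Petal x Y ∧ y ∈ Y ∧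
        G'.deg y < G.deg y) := by
      intro x
      by_cases hx : x ∈ N
      · obtain ⟨hx1, hx2⟩ := mem_filter.1 hx
        have d1 := hdeg x
        have hxD : x ∈ Ds := by
          by_contra hc
          simp only [hδ1, if_neg hc] at hx2; omega
        simp only [hδ1, if_pos hxD] at hx2
        obtain ⟨hx3, hx4⟩ := mem_sdiff.1 hx1
        obtain ⟨Q, q1, q2, q3⟩ := hb x hxD (mem_sdiff.1 hx3).2
        have q4 : Q \ R ⊆ G'.A := sdiff_subset_sdiff q1 Subset.rfl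
        have q5 : x ∈ Q \ R := mem_sdiff.2 ⟨q2, hx4⟩
        have q6 : (G'.nb (Q \ R)).card ≤ (Q \ R).card + 1 := by
          have b1 := hsplit (Q \ R)
          rw [sdiff_union_self_eq_union] at b1
          have b2 := submod (G := G) Q R Z
          have b3 := hF (Q ∩ R) (inter_subset_left.trans q1)
          have b4 := card_sdiff_add_card_inter Q R
          omega
        have q7 := hok.small_deg q4 q5 q6
        have q8 := (mem_filter.1 hxD).2
        have q9 : 4 ≤ G'.deg x := by omega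
        obtain ⟨p1, _⟩ := hok.petal_of_four q4 q5 q6 q9
        have : ∃ y ∈ Q \ R, G'.deg y < G.deg y := by
          by_contra hc
          push Not at hc
          have b1 : G.nb (Q \ R) ⊆ G'.nb (Q \ R) := by
            intro e he
            obtain ⟨y, hy, hy'⟩ := exists_inc_of_nb he
            have := eq_of_subset_of_card_le (hinc y) (hc y hy)
            exact mem_nb_of_inc hy (this ▸ hy')
          have b2 := card_le_card b1
          have b3 := q8.2 (Q \ R) (sdiff_subset.trans (q1.trans sdiff_subset)) q5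
          omega
        obtain ⟨y, hy, hy'⟩ := this
        refine ⟨y, fun _ => ⟨?_, q9, _, p1, mem_erase.2 ⟨?_, hy⟩, hy'⟩⟩
        · simp only [hδ1, if_pos hxD]; omega
        · rintro rfl; omega
      · exact ⟨x, fun a => absurd a hx⟩
    choose φ hφ using hex
    refine loan_sum G'.A N (filter_subset _ _) δ1 _ φ ?_ ?_ ?_ ?_ ?_
    · intro x hx x' hx' he
      obtain ⟨_, a2, Y, a3, a4, _⟩ := hφ x hx
      obtain ⟨_, b2, Y', b3, b4, _⟩ := hφ x' hx'
      exact hok.petal_unique a3 b3 (by omega) (by omega) a4 (he ▸ b4)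
    · intro x hx
      obtain ⟨_, _, Y, a3, a4, _⟩ := hφ x hx
      exact mem_of_mem_erase (a3.1 a4)
    · intro x hx hx'
      by_contra hc
      exact hx' (mem_filter.2 ⟨hx, by omega⟩)
    · intro x hx
      have := (hφ x hx).1
      have := hdeg x; omega
    · intro x hx
      obtain ⟨_, _, Y, a3, a4, a5⟩ := hφ x hx
      have := a3.2.1 _ a4
      simp only [hδ1]; split_ifs <;> omega
  have e1 : ∑ x ∈ G.A, δ1 x = ∑ x ∈ T, δ1 x + ∑ x ∈ R, δ1 x + ∑ x ∈ G'.A, δ1 x := by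
    rw [← sum_sdiff hTA, ← sum_sdiff hR]; ring
  have e2 : ∑ x ∈ G.A, (G.deg x : ℤ) =
      ∑ x ∈ T, (G.deg x : ℤ) + ∑ x ∈ R, (G.deg x : ℤ) + ∑ x ∈ G'.A, (G.deg x : ℤ) := by
    rw [← sum_sdiff hTA, ← sum_sdiff hR]; ring
  have e3 : ∑ x ∈ T, δ1 x = ∑ x ∈ T, (G.deg x : ℤ) - 3 * T.card := by
    have : ∀ x ∈ T, δ1 x = (G.deg x : ℤ) - 3 := fun x hx => by simp only [hδ1, if_pos (hT hx)]
    rw [sum_congr rfl this, sum_sub_distrib]; simp [mul_comm]
  have e4 : 4 * (T.card : ℤ) ≤ ∑ x ∈ T, (G.deg x : ℤ) := by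
    have : ∑ x ∈ T, (4 : ℤ) ≤ ∑ x ∈ T, (G.deg x : ℤ) :=
      sum_le_sum fun x hx => by have := (mem_filter.1 (hT hx)).2.1; omega
    simpa [mul_comm] using this
  have e5 : ∑ x ∈ R, δ1 x ≤ 2 * ∑ x ∈ R, (G.deg x : ℤ) - 4 * R.card := by
    have : ∑ x ∈ R, δ1 x ≤ ∑ x ∈ R, (2 * (G.deg x : ℤ) - 4) := sum_le_sum fun x hx => by
      have := h.two_le_deg (mem_sdiff.1 (hR hx)).1
      simp only [hδ1]; split_ifs <;> omega
    rw [sum_sub_distrib, ← mul_sum] at this
    simpa [mul_comm] using this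
  have e6 : ∑ x ∈ G.A, (G.deg x : ℤ) = 2 * G.E.card := by exact_mod_cast h.sum_deg
  have e7 : ∑ x ∈ G'.A, (G'.deg x : ℤ) = 2 * G'.E.card := by exact_mod_cast hok.sum_deg
  have e8 : G'.E.card + Z.card + R.card = G.E.card := by
    have b1 : Z ∪ G.nb R ⊆ G.E := union_subset hZE (nb_subset_E _)
    have b2 := card_sdiff_add_card_eq_card b1
    have b3 := card_sdiff_add_card (G.nb R) Z
    rw [union_comm] at b3
    change (G.E \ (Z ∪ G.nb R)).card + _ + _ = _
    omega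
  rw [← mul_sum, sum_sub_distrib] at step3
  omega

end Gr
end Pool.Agent.P.MP_11624f_co
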