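import Mathlib

set_option autoImplicit false
open Finset

namespace Pool.Agent.P.MP_11624f_co

/-- A multigraph: heads `A`, edges `E` with endpoints `f`, `g`. -/
structure Gr (α : Type) where
  A : Finset α
  E : Finset α
  f : α → α
  g : α → α

namespace Gr
variable {α : Type} [DecidableEq α] (G : Gr α)

def nb (Y : Finset α) : Finset α := G.E.filter (fun e => G.f e ∈ Y ∨ G.g e ∈ Y)
def inc (x : α) : Finset α := G.nb {x}
def deg (x : α) : ℕ := (G.inc x).card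
def Feas (B Z : Finset α) : Prop := ∀ Y ⊆ B, Y.card ≤ (G.nb Y \ Z).card
def oth (e x : α) : α := if G.f e = x then G.g e else G.f e
def cut (Y : Finset α) : Finset α := G.E.filter (fun e => ¬ (G.f e ∈ Y ↔ G.g e ∈ Y))
def Big (x : α) : Prop := ∀ Q ⊆ G.A, x ∈ Q → Q.card + 2 ≤ (G.nb Q).card
def Petal (x : α) (Y : Finset α) : Prop :=
  Y ⊆ G.A.erase x ∧ (∀ y ∈ Y, G.deg y = 2) ∧
    ∀ e ∈ G.nb Y, (G.f e ∈ Y ∨ G.f e = x) ∧ (G.g e ∈ Y ∨ G.g e = x)

structure Ok : Prop where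
  fA : ∀ e ∈ G.E, G.f e ∈ G.A
  gA : ∀ e ∈ G.E, G.g e ∈ G.A
  ne : ∀ e ∈ G.E, G.f e ≠ G.g e
  sur : ∀ Y ⊆ G.A, Y.Nonempty → Y.card + 1 ≤ (G.nb Y).card

variable {G}

theorem mem_nb {Y : Finset α} {e : α} : e ∈ G.nb Y ↔ e ∈ G.E ∧ (G.f e ∈ Y ∨ G.g e ∈ Y) := by
  simp [nb]

theorem mem_inc {x e : α} : e ∈ G.inc x ↔ e ∈ G.E ∧ (G.f e = x ∨ G.g e = x) := by
  simp [inc, nb]

theorem nb_mono {Y Y' : Finset α} (h : Y ⊆ Y') : G.nb Y ⊆ G.nb Y' := by
  intro e he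
  rw [mem_nb] at he ⊢
  exact ⟨he.1, he.2.imp (fun a => h a) (fun a => h a)⟩

theorem nb_union (Y Y' : Finset α) : G.nb (Y ∪ Y') = G.nb Y ∪ G.nb Y' := by
  ext e; simp only [mem_nb, mem_union]; tauto

theorem nb_insert (x : α) (Y : Finset α) : G.nb (insert x Y) = G.inc x ∪ G.nb Y := by
  ext e; simp only [mem_nb, mem_union, mem_inc, mem_insert]; tauto

theorem nb_empty : G.nb ∅ = ∅ := by ext e; simp [mem_nb]

theorem inc_subset_nb {x : α} {Y : Finset α} (h : x ∈ Y) : G.inc x ⊆ G.nb Y :=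
  nb_mono (by simpa using h)

theorem mem_nb_of_inc {x e : α} {Y : Finset α} (h : x ∈ Y) (he : e ∈ G.inc x) : e ∈ G.nb Y :=
  inc_subset_nb h he

theorem exists_inc_of_nb {e : α} {Y : Finset α} (he : e ∈ G.nb Y) : ∃ y ∈ Y, e ∈ G.inc y := by
  rw [mem_nb] at he
  rcases he with ⟨h1, h2 | h2⟩
  · exact ⟨_, h2, mem_inc.2 ⟨h1, Or.inl rfl⟩⟩
  · exact ⟨_, h2, mem_inc.2 ⟨h1, Or.inr rfl⟩⟩

theorem inc_E {x e : α} (he : e ∈ G.inc x) : e ∈ G.E := (mem_inc.1 he).1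

theorem oth_inc {x e : α} (he : e ∈ G.inc x) : e ∈ G.inc (G.oth e x) := by
  rw [mem_inc] at he ⊢
  unfold oth
  split_ifs <;> simp [he.1]

theorem Ok.oth_ne (h : G.Ok) {x e : α} (he : e ∈ G.inc x) : G.oth e x ≠ x := by
  rw [mem_inc] at he
  have := h.ne e he.1
  unfold oth
  split_ifs with h1
  · intro h2; exact this (h1.trans h2.symm)
  · exact h1

theorem Ok.oth_A (h : G.Ok) {x e : α} (he : e ∈ G.inc x) : G.oth e x ∈ G.A := by
  rw [mem_inc] at he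
  unfold oth
  split_ifs
  · exact h.gA e he.1
  · exact h.fA e he.1

theorem Ok.inc_A (h : G.Ok) {x e : α} (he : e ∈ G.inc x) : x ∈ G.A := by
  rw [mem_inc] at he
  rcases he with ⟨h1, rfl | rfl⟩
  · exact h.fA e h1
  · exact h.gA e h1

theorem eq_or_oth {x y e : α} (hx : e ∈ G.inc x) (hy : e ∈ G.inc y) : y = x ∨ y = G.oth e x := by
  rw [mem_inc] at hx hy
  unfold oth
  split_ifs with h1
  · rcases hy.2 with h | h
    · left; rw [← h, h1]
    · right; exact h.symm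
  · rcases hx.2 with h2 | h2
    · exact absurd h2 h1
    · rcases hy.2 with h | h
      · right; exact h.symm
      · left; rw [← h, h2]

/-- an edge has only two ends -/
theorem two_ends {x y z e : α} (hx : e ∈ G.inc x) (hy : e ∈ G.inc y) (hz : e ∈ G.inc z)
    (hxy : x ≠ y) : z = x ∨ z = y := by
  rcases eq_or_oth hx hy with h | h
  · exact absurd h.symm hxy
  · rcases eq_or_oth hx hz with h' | h'
    · exact Or.inl h'
    · exact Or.inr (h'.trans h.symm)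

theorem not_mem_nb_of_ends {x y e : α} {Y : Finset α} (hx : e ∈ G.inc x) (hy : e ∈ G.inc y)
    (hxy : x ≠ y) (h1 : x ∉ Y) (h2 : y ∉ Y) : e ∉ G.nb Y := by
  intro he
  obtain ⟨z, hz, hz'⟩ := exists_inc_of_nb he
  rcases two_ends hx hy hz' hxy with rfl | rfl <;> contradiction

theorem submod (Y Y' Z : Finset α) :
    (G.nb (Y ∪ Y') \ Z).card + (G.nb (Y ∩ Y') \ Z).card ≤ (G.nb Y \ Z).card + (G.nb Y' \ Z).card := by
  have h1 : G.nb (Y ∪ Y') \ Z = (G.nb Y \ Z) ∪ (G.nb Y' \ Z) := by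
    rw [nb_union, union_sdiff_distrib]
  have h2 : G.nb (Y ∩ Y') \ Z ⊆ (G.nb Y \ Z) ∩ (G.nb Y' \ Z) := by
    intro e he
    rw [mem_sdiff] at he
    simp only [mem_inter, mem_sdiff]
    exact ⟨⟨nb_mono inter_subset_left he.1, he.2⟩, ⟨nb_mono inter_subset_right he.1, he.2⟩⟩
  have := card_union_add_card_inter (G.nb Y \ Z) (G.nb Y' \ Z)
  have := card_le_card h2
  rw [h1]; omega

theorem Feas.mono {B B' Z Z' : Finset α} (h : G.Feas B Z) (hB : B' ⊆ B)
    (hZ : ∀ e ∈ Z', e ∈ G.nb B' → e ∈ Z) : G.Feas B' Z' := by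
  intro Y hY
  refine (h Y (hY.trans hB)).trans (card_le_card ?_)
  intro e he
  rw [mem_sdiff] at he ⊢
  exact ⟨he.1, fun h' => he.2 (hZ e h' (nb_mono hY he.1))⟩

theorem Ok.feas_single (h : G.Ok) {B : Finset α} (hB : B ⊆ G.A) (u : α) : G.Feas B {u} := by
  intro Y hY
  rcases Y.eq_empty_or_nonempty with rfl | hne
  · simp
  · have := h.sur Y (hY.trans hB) hne
    have h2 := le_card_sdiff ({u} : Finset α) (G.nb Y)
    simp at h2; omega

theorem Ok.feas_empty (h : G.Ok) {B : Finset α} (hB : B ⊆ G.A) : G.Feas B ∅ := by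
  intro Y hY
  rcases Y.eq_empty_or_nonempty with rfl | hne
  · simp
  · have := h.sur Y (hY.trans hB) hne
    simp; omega

/-- feasible when at most one member of `Z` touches `B` -/
theorem Ok.feas_eff (h : G.Ok) {B Z : Finset α} (hB : B ⊆ G.A) (u : α)
    (hZ : ∀ e ∈ Z, e ∈ G.nb B → e = u) : G.Feas B Z :=
  (h.feas_single hB u).mono Subset.rfl (fun e he he' => by simpa using hZ e he he')

theorem Feas.maxTight {B Z : Finset α} (h : G.Feas B Z) :
    ∃ Ys ⊆ B, (G.nb Ys \ Z).card = Ys.card ∧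
      ∀ Y ⊆ B, (G.nb Y \ Z).card ≤ Y.card → Y ⊆ Ys := by
  obtain ⟨Ys, hYs, hmax⟩ := exists_max_image
    (B.powerset.filter (fun Y => (G.nb Y \ Z).card ≤ Y.card)) card ⟨∅, by simp [nb_empty]⟩
  simp only [mem_filter, mem_powerset] at hYs hmax
  refine ⟨Ys, hYs.1, le_antisymm hYs.2 (h _ hYs.1), fun Y hY hY' => ?_⟩
  have h1 := submod (G := G) Y Ys Z
  have h2 := h (Y ∩ Ys) (inter_subset_left.trans hY)
  have h3 := card_union_add_card_inter Y Ys
  have h4 := hmax (Y ∪ Ys) ⟨union_subset hY hYs.1, by omega⟩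
  have : Ys = Y ∪ Ys := eq_of_subset_of_card_le subset_union_right h4
  rw [this]; exact subset_union_left

theorem Feas.blocked {B Z : Finset α} (h : G.Feas B Z) {c : α} (hc : ¬ G.Feas B (insert c Z)) :
    ∃ Y ⊆ B, (G.nb Y \ Z).card ≤ Y.card ∧ c ∈ G.nb Y ∧ c ∉ Z := by
  unfold Feas at hc
  push Not at hc
  obtain ⟨Y, hY, hlt⟩ := hc
  have h1 := h Y hY
  have h2 : G.nb Y \ insert c Z = (G.nb Y \ Z).erase c := by
    ext e; simp only [mem_sdiff, mem_insert, mem_erase]; tauto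
  rw [h2] at hlt
  by_cases hm : c ∈ G.nb Y \ Z
  · rw [card_erase_of_mem hm] at hlt
    exact ⟨Y, hY, by omega, (mem_sdiff.1 hm).1, (mem_sdiff.1 hm).2⟩
  · rw [erase_eq_of_notMem hm] at hlt; omega

theorem Feas.ext {B Z0 : Finset α} (h : G.Feas B Z0) (Cn : Finset α) :
    ∃ Z Ys, Z0 ⊆ Z ∧ Z ⊆ Z0 ∪ Cn ∧ G.Feas B Z ∧ Ys ⊆ B ∧ (G.nb Ys \ Z).card = Ys.card ∧
      (∀ Y ⊆ B, (G.nb Y \ Z).card ≤ Y.card → Y ⊆ Ys) ∧ Cn ⊆ Z ∪ G.nb Ys := by
  classical
  obtain ⟨Z, hZ, hmax⟩ := exists_max_image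
    ((Z0 ∪ Cn).powerset.filter (fun Z => Z0 ⊆ Z ∧ G.Feas B Z)) card
    ⟨Z0, mem_filter.2 ⟨mem_powerset.2 subset_union_left, Subset.rfl, h⟩⟩
  simp only [mem_filter, mem_powerset] at hZ hmax
  obtain ⟨Ys, h1, h2, h3⟩ := hZ.2.2.maxTight
  refine ⟨Z, Ys, hZ.2.1, hZ.1, hZ.2.2, h1, h2, h3, fun c hc => ?_⟩
  by_cases hcZ : c ∈ Z
  · exact mem_union_left _ hcZ
  · have : ¬ G.Feas B (insert c Z) := by
      intro hf
      have := hmax (insert c Z) ⟨insert_subset (mem_union_right _ hc) hZ.1,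
        hZ.2.1.trans (subset_insert _ _), hf⟩
      rw [card_insert_of_notMem hcZ] at this; omega
    obtain ⟨Y, hY, hY1, hY2, _⟩ := hZ.2.2.blocked this
    exact mem_union_right _ (nb_mono (h3 Y hY hY1) hY2)

/-- handshake: twice the number of touching edges -/
theorem Ok.handshake (h : G.Ok) (Y : Finset α) :
    ∑ y ∈ Y, G.deg y + (G.cut Y).card = 2 * (G.nb Y).card := by
  have h1 : ∑ y ∈ Y, G.deg y = ∑ e ∈ G.E, ((if G.f e ∈ Y then 1 else 0) + (if G.g e ∈ Y then 1 else 0)) := by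
    have : ∀ y ∈ Y, G.deg y = ∑ e ∈ G.E, ((if G.f e = y then 1 else 0) + (if G.g e = y then 1 else 0)) := by
      intro y _
      unfold deg inc nb
      rw [card_filter]
      refine sum_congr rfl fun e he => ?_
      have := h.ne e he
      by_cases h1 : G.f e = y <;> by_cases h2 : G.g e = y <;> simp_all
    rw [sum_congr rfl this, sum_comm]
    refine sum_congr rfl fun e _ => ?_
    rw [sum_add_distrib]; simp
  rw [h1]
  unfold cut nb
  rw [card_filter, card_filter, ← sum_add_distrib, mul_sum]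
  refine sum_congr rfl fun e _ => ?_
  by_cases h1 : G.f e ∈ Y <;> by_cases h2 : G.g e ∈ Y <;> simp [h1, h2]

theorem Ok.two_le_deg (h : G.Ok) {x : α} (hx : x ∈ G.A) : 2 ≤ G.deg x := by
  have := h.sur {x} (by simpa using hx) (by simp)
  simpa [deg, inc] using this

theorem Ok.sum_deg_ge (h : G.Ok) {Y : Finset α} (hY : Y ⊆ G.A) {x : α} (hx : x ∈ Y) :
    G.deg x + 2 * Y.card ≤ ∑ y ∈ Y, G.deg y + 2 := by
  rw [← add_sum_erase _ _ hx]
  have : ∑ y ∈ Y.erase x, 2 ≤ ∑ y ∈ Y.erase x, G.deg y :=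
    sum_le_sum fun y hy => h.two_le_deg (hY (mem_of_mem_erase hy))
  simp only [sum_const, card_erase_of_mem hx, smul_eq_mul] at this
  have := card_pos.2 ⟨x, hx⟩
  omega

theorem mem_cut_of {Y : Finset α} {x e : α} (he : e ∈ G.nb Y) (hx : e ∈ G.inc x) (hxY : x ∉ Y) :
    e ∈ G.cut Y := by
  rw [mem_nb] at he; rw [mem_inc] at hx
  simp only [cut, mem_filter]
  refine ⟨he.1, ?_⟩
  rcases hx.2 with rfl | rfl <;> tauto

/-- a set of surplus one with two cut edges is a path of degree two heads -/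
theorem Ok.path_of (h : G.Ok) {Y : Finset α} (hY : Y ⊆ G.A) (hs : (G.nb Y).card ≤ Y.card + 1)
    {u z : α} (huz : u ≠ z) (hu : u ∈ G.cut Y) (hz : z ∈ G.cut Y) :
    (∀ y ∈ Y, G.deg y = 2) ∧ ∀ e ∈ G.cut Y, e = u ∨ e = z := by
  have h1 := h.handshake Y
  have h2 : ({u, z} : Finset α) ⊆ G.cut Y := by
    intro e he; simp at he; rcases he with rfl | rfl <;> assumption
  have h3 := card_le_card h2
  rw [card_pair huz] at h3
  have h4 : ∑ y ∈ Y, 2 ≤ ∑ y ∈ Y, G.deg y := sum_le_sum fun y hy => h.two_le_deg (hY hy)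
  simp only [sum_const, smul_eq_mul] at h4
  refine ⟨fun y hy => ?_, fun e he => ?_⟩
  · have := h.sum_deg_ge hY hy
    have := h.two_le_deg (hY hy)
    omega
  · have : ({u, z} : Finset α) = G.cut Y := eq_of_subset_of_card_le h2 (by rw [card_pair huz]; omega)
    rw [← this] at he; simpa using he

theorem Ok.blocked (h : G.Ok) {x u z : α} (hu : u ∈ G.inc x) (hz : z ∈ G.inc x) (huz : u ≠ z)
    (hb : ¬ G.Feas (G.A.erase x) {u, z}) :
    ∃ Y, G.Petal x Y ∧ u ∈ G.nb Y ∧ z ∈ G.nb Y ∧ (G.nb Y).card ≤ Y.card + 1 ∧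
      ∀ e ∈ G.nb Y, e ∈ G.inc x → e = u ∨ e = z := by
  have h0 := h.feas_single (erase_subset x G.A) z
  obtain ⟨Y, hY, h1, h2, _⟩ := h0.blocked hb
  have hYA : Y ⊆ G.A := hY.trans (erase_subset _ _)
  have hxY : x ∉ Y := fun hx => by simpa using hY hx
  have hne : Y.Nonempty := by
    obtain ⟨y, hy, _⟩ := exists_inc_of_nb h2; exact ⟨y, hy⟩
  have h3 := h.sur Y hYA hne
  have hzY : z ∈ G.nb Y := by
    by_contra hc
    rw [sdiff_singleton_eq_erase, erase_eq_of_notMem hc] at h1; omega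
  rw [sdiff_singleton_eq_erase, card_erase_of_mem hzY] at h1
  obtain ⟨h4, h5⟩ := h.path_of hYA (by omega) huz (mem_cut_of h2 hu hxY) (mem_cut_of hzY hz hxY)
  refine ⟨Y, ⟨hY, h4, fun e he => ?_⟩, h2, hzY, by omega, fun e he hex => h5 e (mem_cut_of he hex hxY)⟩
  by_cases hc : e ∈ G.cut Y
  · have hex : e ∈ G.inc x := by rcases h5 e hc with rfl | rfl <;> assumption
    rw [mem_inc] at hex; rw [mem_nb] at he
    rcases hex.2 with h6 | h6
    · have : G.f e ∉ Y := h6 ▸ hxY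
      tauto
    · have : G.g e ∉ Y := h6 ▸ hxY
      tauto
  · rw [mem_nb] at he
    simp only [cut, mem_filter, he.1, true_and, not_not] at hc
    tauto

theorem oth_mem_of_nb {x e : α} {Y : Finset α} (hx : e ∈ G.inc x) (he : e ∈ G.nb Y) (hxY : x ∉ Y) :
    G.oth e x ∈ Y := by
  obtain ⟨y, hy, hy'⟩ := exists_inc_of_nb he
  rcases eq_or_oth hx hy' with rfl | rfl
  · exact absurd hy hxY
  · exact hy

theorem Petal.notMem {x : α} {Y : Finset α} (h : G.Petal x Y) : x ∉ Y :=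
  fun hx => by simpa using h.1 hx

theorem Ok.blocked_deg (h : G.Ok) {x u z : α} (hu : u ∈ G.inc x) (hz : z ∈ G.inc x) (huz : u ≠ z)
    (hb : ¬ G.Feas (G.A.erase x) {u, z}) : G.deg (G.oth u x) = 2 := by
  obtain ⟨Y, hY, h1, _⟩ := h.blocked hu hz huz hb
  exact hY.2.1 _ (oth_mem_of_nb hu h1 hY.notMem)

theorem Ok.petal_unique (h : G.Ok) {x x' y : α} {Y Y' : Finset α} (h1 : G.Petal x Y)
    (h2 : G.Petal x' Y') (hx : G.deg x ≠ 2) (hx' : G.deg x' ≠ 2) (hy : y ∈ Y) (hy' : y ∈ Y') :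
    x = x' := by
  by_contra hne
  have hA : Y ∩ Y' ⊆ G.A := inter_subset_left.trans (h1.1.trans (erase_subset _ _))
  have h3 := h.sur (Y ∩ Y') hA ⟨y, mem_inter.2 ⟨hy, hy'⟩⟩
  have h4 := h.handshake (Y ∩ Y')
  have h5 : G.cut (Y ∩ Y') = ∅ := by
    rw [eq_empty_iff_forall_notMem]
    intro e he
    simp only [cut, mem_filter, mem_inter] at he
    have he1 : e ∈ G.nb Y := mem_nb.2 ⟨he.1, by tauto⟩
    have he2 : e ∈ G.nb Y' := mem_nb.2 ⟨he.1, by tauto⟩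
    have a1 := h1.2.2 e he1
    have a2 := h2.2.2 e he2
    have b1 : x ∉ Y' := fun hh => hx (h2.2.1 x hh)
    have b2 : x' ∉ Y := fun hh => hx' (h1.2.1 x' hh)
    have c1 : G.f e ∈ Y ∧ G.f e ∈ Y' := by
      rcases a1.1 with a | a <;> rcases a2.1 with b | b
      · exact ⟨a, b⟩
      · exact absurd (b ▸ a) b2
      · exact absurd (a ▸ b) b1
      · exact absurd (a.symm.trans b) hne
    have c2 : G.g e ∈ Y ∧ G.g e ∈ Y' := by
      rcases a1.2 with a | a <;> rcases a2.2 with b | b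
      · exact ⟨a, b⟩
      · exact absurd (b ▸ a) b2
      · exact absurd (a ▸ b) b1
      · exact absurd (a.symm.trans b) hne
    tauto
  have h6 : ∑ y ∈ Y ∩ Y', G.deg y = ∑ y ∈ Y ∩ Y', 2 :=
    sum_congr rfl fun y hy => h1.2.1 y (mem_inter.1 hy).1
  simp only [sum_const, smul_eq_mul] at h6
  rw [h5, h6] at h4
  simp at h4; omega

theorem Ok.blocked_unique (h : G.Ok) {x u z z' : α} (hu : u ∈ G.inc x) (hz : z ∈ G.inc x)
    (hz' : z' ∈ G.inc x) (huz : u ≠ z) (huz' : u ≠ z')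
    (hb : ¬ G.Feas (G.A.erase x) {u, z}) (hb' : ¬ G.Feas (G.A.erase x) {u, z'}) : z = z' := by
  have h0 := h.feas_single (erase_subset x G.A) u
  obtain ⟨Ys, hY, h1, hmax⟩ := h0.maxTight
  rw [pair_comm] at hb hb'
  obtain ⟨Y, hY1, hY2, hY3, _⟩ := h0.blocked hb
  obtain ⟨Y', hY1', hY2', hY3', _⟩ := h0.blocked hb'
  have a1 := nb_mono (hmax Y hY1 hY2) hY3
  have a2 := nb_mono (hmax Y' hY1' hY2') hY3'
  have hYA : Ys ⊆ G.A := hY.trans (erase_subset _ _)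
  have hxY : x ∉ Ys := fun hx => by simpa using hY hx
  have hne : Ys.Nonempty := by
    obtain ⟨y, hy, _⟩ := exists_inc_of_nb a1; exact ⟨y, hy⟩
  have h3 := h.sur Ys hYA hne
  have huY : u ∈ G.nb Ys := by
    by_contra hc
    rw [sdiff_singleton_eq_erase, erase_eq_of_notMem hc] at h1; omega
  rw [sdiff_singleton_eq_erase, card_erase_of_mem huY] at h1
  obtain ⟨_, h5⟩ := h.path_of hYA (by omega) huz (mem_cut_of huY hu hxY) (mem_cut_of a1 hz hxY)
  rcases h5 z' (mem_cut_of a2 hz' hxY) with h6 | h6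
  · exact absurd h6.symm huz'
  · exact h6.symm

/-- extension at a head: either `k` new members, or a set of small surplus -/
theorem ext_at {x : α} {B Z0 : Finset α} (hxB : x ∉ B) (h0 : G.Feas B Z0) :
    ∃ Z Ys, Z0 ⊆ Z ∧ Z ⊆ Z0 ∪ G.inc x ∧ G.Feas B Z ∧ Ys ⊆ B ∧ (G.nb Ys \ Z).card = Ys.card ∧
      (G.nb (insert x Ys) \ Z0).card + 1 ≤ (insert x Ys).card + (Z \ Z0).card := by
  obtain ⟨Z, Ys, h1, h2, h3, h4, h5, _, h7⟩ := h0.ext (G.inc x)
  refine ⟨Z, Ys, h1, h2, h3, h4, h5, ?_⟩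
  have : G.nb (insert x Ys) \ Z0 ⊆ (G.nb Ys \ Z) ∪ (Z \ Z0) := by
    intro e he
    rw [nb_insert, mem_sdiff, mem_union] at he
    simp only [mem_union, mem_sdiff]
    have := @h7 e
    simp only [mem_union] at this
    tauto
  have h8 := card_le_card this
  have h9 := card_union_le (G.nb Ys \ Z) (Z \ Z0)
  rw [card_insert_of_notMem (fun hh => hxB (h4 hh))]
  omega

theorem exists_one_of_card {Z Z0 : Finset α} (h : 1 ≤ (Z \ Z0).card) : ∃ z, z ∈ Z ∧ z ∉ Z0 := by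
  obtain ⟨z, hz⟩ := card_pos.1 h
  exact ⟨z, mem_sdiff.1 hz⟩

theorem exists_two_of_card {Z Z0 : Finset α} (h : 2 ≤ (Z \ Z0).card) :
    ∃ z z', z ≠ z' ∧ z ∈ Z ∧ z ∉ Z0 ∧ z' ∈ Z ∧ z' ∉ Z0 := by
  obtain ⟨z, hz, z', hz', hne⟩ := one_lt_card.1 h
  exact ⟨z, z', hne, (mem_sdiff.1 hz).1, (mem_sdiff.1 hz).2, (mem_sdiff.1 hz').1, (mem_sdiff.1 hz').2⟩

theorem Ok.pair_ext (h : G.Ok) {x u : α} (hu : u ∈ G.inc x) :
    ∃ z ∈ G.inc x, z ≠ u ∧ G.Feas (G.A.erase x) {u, z} := by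
  have hx := h.inc_A hu
  obtain ⟨Z, Ys, h1, h2, h3, h4, _, h6⟩ :=
    ext_at (x := x) (notMem_erase x G.A) (h.feas_single (erase_subset x G.A) u)
  have h7 := h.sur (insert x Ys) (insert_subset hx (h4.trans (erase_subset _ _))) (by simp)
  have h8 := le_card_sdiff ({u} : Finset α) (G.nb (insert x Ys))
  rw [card_singleton] at h8
  obtain ⟨z, hz, hz'⟩ := exists_one_of_card (Z := Z) (Z0 := {u}) (by omega)
  have := h2 hz
  refine ⟨z, by simp_all, by simpa using hz', h3.mono Subset.rfl ?_⟩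
  intro e he _
  simp at he
  rcases he with rfl | rfl
  · exact h1 (by simp)
  · exact hz

theorem Ok.triple_ext (h : G.Ok) {x u : α} (hb : G.Big x) (hu : u ∈ G.inc x) :
    ∃ z ∈ G.inc x, ∃ z' ∈ G.inc x, z ≠ u ∧ z' ≠ u ∧ z ≠ z' ∧ G.Feas (G.A.erase x) {u, z, z'} := by
  have hx := h.inc_A hu
  obtain ⟨Z, Ys, h1, h2, h3, h4, _, h6⟩ :=
    ext_at (x := x) (notMem_erase x G.A) (h.feas_single (erase_subset x G.A) u)
  have h7 := hb (insert x Ys) (insert_subset hx (h4.trans (erase_subset _ _))) (by simp)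
  have h8 := le_card_sdiff ({u} : Finset α) (G.nb (insert x Ys))
  rw [card_singleton] at h8
  obtain ⟨z, z', hne, hz, hz0, hz', hz0'⟩ := exists_two_of_card (Z := Z) (Z0 := {u}) (by omega)
  have a1 := h2 hz
  have a2 := h2 hz'
  refine ⟨z, by simp_all, z', by simp_all, by simpa using hz0, by simpa using hz0', hne,
    h3.mono Subset.rfl ?_⟩
  intro e he _
  simp at he
  rcases he with rfl | rfl | rfl
  · exact h1 (by simp)
  · exact hz
  · exact hz'

theorem not_big {x : α} (hb : ¬ G.Big x) : ∃ Q ⊆ G.A, x ∈ Q ∧ (G.nb Q).card ≤ Q.card + 1 := by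
  unfold Big at hb
  push Not at hb
  obtain ⟨Q, h1, h2, h3⟩ := hb
  exact ⟨Q, h1, h2, by omega⟩

theorem Ok.small_deg (h : G.Ok) {x : α} {Q : Finset α} (hQ : Q ⊆ G.A) (hx : x ∈ Q)
    (hs : (G.nb Q).card ≤ Q.card + 1) : G.deg x ≤ 4 := by
  have h1 := h.handshake Q
  have := h.sum_deg_ge hQ hx
  omega

theorem Ok.petal_of_four (h : G.Ok) {x : α} {Q : Finset α} (hQ : Q ⊆ G.A) (hx : x ∈ Q)
    (hs : (G.nb Q).card ≤ Q.card + 1) (h4 : 4 ≤ G.deg x) :
    G.Petal x (Q.erase x) ∧ ∀ e ∈ G.inc x, G.oth e x ∈ Q.erase x := by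
  have h1 := h.handshake Q
  have h2 := h.sum_deg_ge hQ hx
  have hc : G.cut Q = ∅ := by rw [← card_eq_zero]; omega
  have hcl : ∀ e ∈ G.nb Q, G.f e ∈ Q ∧ G.g e ∈ Q := by
    intro e he
    have : e ∉ G.cut Q := by rw [hc]; simp
    rw [mem_nb] at he
    simp only [cut, mem_filter, he.1, true_and, not_not] at this
    tauto
  refine ⟨⟨erase_subset_erase x hQ, fun y hy => ?_, fun e he => ?_⟩, fun e he => ?_⟩
  · have h3 := h.sum_deg_ge ((erase_subset x Q).trans hQ) hy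
    rw [← add_sum_erase _ _ hx] at h1 h2
    rw [card_erase_of_mem hx] at h3
    have := card_pos.2 ⟨x, hx⟩
    have := h.two_le_deg (hQ (mem_of_mem_erase hy))
    omega
  · have := hcl e (nb_mono (erase_subset _ _) he)
    simp only [mem_erase]; tauto
  · have := hcl e (mem_nb_of_inc hx he)
    rw [mem_erase]
    refine ⟨h.oth_ne he, ?_⟩
    unfold oth; split_ifs <;> tauto

/-- after deleting `x` and freeing two of its edges, a surplus one set through `x` is tight -/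
theorem tight_erase {x a b : α} {Q : Finset α} (hx : x ∈ Q) (hs : (G.nb Q).card ≤ Q.card + 1)
    (ha : a ∈ G.inc x) (hb : b ∈ G.inc x) (hab : a ≠ b) :
    (G.nb (Q.erase x) \ {a, b}).card ≤ (Q.erase x).card := by
  have h1 : G.nb (Q.erase x) \ {a, b} ⊆ G.nb Q \ {a, b} :=
    sdiff_subset_sdiff (nb_mono (erase_subset _ _)) Subset.rfl
  have h2 := card_le_card h1
  have h3 : ({a, b} : Finset α) ⊆ G.nb Q := by
    intro e he; simp at he; rcases he with rfl | rfl <;> exact mem_nb_of_inc hx ‹_›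
  rw [card_sdiff_of_subset h3, card_pair hab] at h2
  rw [card_erase_of_mem hx]
  have := card_pos.2 ⟨x, hx⟩
  omega

theorem small_not_triple {x a b c : α} {Q : Finset α} (hQ : Q ⊆ G.A) (hx : x ∈ Q)
    (hs : (G.nb Q).card ≤ Q.card + 1) (ha : a ∈ G.inc x) (hb : b ∈ G.inc x) (hc : c ∈ G.inc x)
    (hab : a ≠ b) (hac : a ≠ c) (hbc : b ≠ c) : ¬ G.Feas (G.A.erase x) {a, b, c} := by
  intro hf
  have h0 := hf (Q.erase x) (erase_subset_erase x hQ)
  have h1 : G.nb (Q.erase x) \ {a, b, c} ⊆ G.nb Q \ {a, b, c} :=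
    sdiff_subset_sdiff (nb_mono (erase_subset _ _)) Subset.rfl
  have h2 := card_le_card h1
  have h3 : ({a, b, c} : Finset α) ⊆ G.nb Q := by
    intro e he; simp at he; rcases he with rfl | rfl | rfl <;> exact mem_nb_of_inc hx ‹_›
  have h4 : ({a, b, c} : Finset α).card = 3 := card_eq_three.2 ⟨a, b, c, hab, hac, hbc, rfl⟩
  have h5 := card_le_card h3
  rw [card_sdiff_of_subset h3, h4] at h2
  rw [card_erase_of_mem hx] at h0
  have := card_pos.2 ⟨x, hx⟩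
  omega

end Gr
end Pool.Agent.P.MP_11624f_co
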