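import Pool.Agent.P.MP_11624f_co.Final

set_option autoImplicit false
set_option linter.unusedSectionVars false
open Finset

namespace Pool.Agent.P.MP_11624f_co
open Ty

variable {V : Type} [DecidableEq V] [Fintype V]

theorem hall_on (Y0 : Finset V) (t : V → Finset V)
    (h : ∀ Y ⊆ Y0, Y.card ≤ (Y.biUnion t).card) :
    ∃ φ : V → V, Set.InjOn φ Y0 ∧ ∀ y ∈ Y0, φ y ∈ t y := by
  obtain ⟨f, hf1, hf2⟩ := (all_card_le_biUnion_card_iff_exists_injective
    (fun y : {y // y ∈ Y0} => t y.1)).1 (by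
      intro s
      have h1 := h (s.map (Function.Embedding.subtype _)) (by
        intro y hy
        obtain ⟨a, _, rfl⟩ := mem_map.1 hy
        exact a.2)
      rw [card_map] at h1
      refine h1.trans (card_le_card ?_)
      intro e he
      obtain ⟨y, hy, hy'⟩ := mem_biUnion.1 he
      obtain ⟨a, ha, rfl⟩ := mem_map.1 hy
      exact mem_biUnion.2 ⟨a, ha, hy'⟩)
  refine ⟨fun y => if hy : y ∈ Y0 then f ⟨y, hy⟩ else y, ?_, fun y hy => ?_⟩
  · intro a ha b hb hab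
    have ha' : a ∈ Y0 := ha
    have hb' : b ∈ Y0 := hb
    simp only [dif_pos ha', dif_pos hb'] at hab
    exact congrArg Subtype.val (hf1 hab)
  · simp only [dif_pos hy]; exact hf2 ⟨y, hy⟩

theorem cyc (σ : Equiv.Perm V) :
    ∃ (cid : V → V) (n : V → ℕ) (ix : V → V → ℕ),
      (∀ v, cid (σ v) = cid v) ∧ (∀ v, cid (cid v) = cid v) ∧
      (∀ c v, cid v = cid c → n v = n c) ∧ (∀ c v, cid v = cid c → ix c v < n c) ∧
      (∀ c v w, cid v = cid c → cid w = cid c → ix c v = ix c w → v = w) ∧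
      (∀ c, ix c c = 0) ∧
      (∀ c v, cid v = cid c → ix c v + 1 < n c → ix c (σ v) = ix c v + 1) ∧
      (∀ c v, cid v = cid c → ix c v + 1 = n c → σ v = c) := by
  classical
  let S := Equiv.Perm.SameCycle.setoid σ
  let cid : V → V := fun v => (Quotient.mk S v).out
  have c1 : ∀ c v, cid v = cid c ↔ σ.SameCycle c v := by
    intro c v
    simp only [cid, Quotient.out_inj, Quotient.eq]
    exact ⟨fun a => Equiv.Perm.SameCycle.symm a, fun a => Equiv.Perm.SameCycle.symm a⟩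
  have per : ∀ v, v ∈ Function.periodicPts σ := fun v => σ.injective.mem_periodicPts v
  have pos : ∀ v, 0 < Function.minimalPeriod σ v := fun v =>
    Function.minimalPeriod_pos_of_mem_periodicPts (per v)
  have ex : ∀ c v, ∃ k, cid v = cid c → k < Function.minimalPeriod σ c ∧ σ^[k] c = v := by
    intro c v
    by_cases a : cid v = cid c
    · obtain ⟨i, _, hi⟩ := ((c1 c v).1 a).exists_pow_eq'
      refine ⟨i % Function.minimalPeriod σ c, fun _ => ⟨Nat.mod_lt _ (pos c), ?_⟩⟩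
      rw [Function.iterate_mod_minimalPeriod_eq, Equiv.Perm.iterate_eq_pow]; exact hi
    · exact ⟨0, fun b => absurd b a⟩
  choose ix hix using ex
  have inj : ∀ c i j, i < Function.minimalPeriod σ c → j < Function.minimalPeriod σ c →
      σ^[i] c = σ^[j] c → i = j := fun c i j a b e =>
    Function.iterate_injOn_Iio_minimalPeriod a b e
  have c2 : ∀ v, cid (σ v) = cid v := fun v => (c1 _ _).2 ⟨1, by simp⟩
  refine ⟨cid, Function.minimalPeriod σ, ix, c2, fun v => by simp [cid], fun c v a => ?_,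
    fun c v a => (hix c v a).1, fun c v w a b e => ?_, fun c => ?_, fun c v a b => ?_,
    fun c v a b => ?_⟩
  · rw [← (hix c v a).2]; exact Function.minimalPeriod_apply_iterate (per c) _
  · rw [← (hix c v a).2, e, (hix c w b).2]
  · exact inj c _ _ (hix c c rfl).1 (pos c) (hix c c rfl).2
  · have a2 := (c2 v).trans a
    refine inj c _ _ (hix c _ a2).1 b ?_
    rw [(hix c _ a2).2, Function.iterate_succ_apply', (hix c v a).2]
  · rw [← (hix c v a).2, ← Function.iterate_succ_apply' σ, Nat.succ_eq_add_one, b]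
    exact Function.iterate_minimalPeriod

theorem decomp (G : SimpleGraph V) :
    ∃ (A0 D0 : Finset V) (π : V → V) (σ : Equiv.Perm V),
      (∀ e ∈ D0, ∀ a, G.Adj e a → a ∈ A0) ∧ (∀ e ∈ D0, e ∉ A0) ∧ Set.InjOn π A0 ∧
      (∀ y ∈ A0, π y ∈ D0 ∧ G.Adj y (π y)) ∧
      (∀ v, v ∉ A0 → v ∉ D0 → G.Adj v (σ v)) ∧ (∀ v, v ∈ A0 ∨ v ∈ D0 → σ v = v) := by
  classical
  let N : Finset V → Finset V := fun S => univ.filter (fun v => ∃ s ∈ S, G.Adj s v)
  have mN : ∀ S v, v ∈ N S ↔ ∃ s ∈ S, G.Adj s v := by simp [N]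
  obtain ⟨D1, _, hD1⟩ := exists_max_image (univ : Finset (Finset V))
    (fun S => (S.card : ℤ) - (N S).card) ⟨∅, mem_univ _⟩
  set D0 := D1 \ N D1 with hD0
  have d1 : N D0 ⊆ N D1 \ D1 := by
    intro v hv
    obtain ⟨s, hs, hsv⟩ := (mN _ _).1 hv
    obtain ⟨s1, s2⟩ := mem_sdiff.1 hs
    exact mem_sdiff.2 ⟨(mN _ _).2 ⟨s, s1, hsv⟩, fun a => s2 ((mN _ _).2 ⟨v, a, hsv.symm⟩)⟩
  have hmax : ∀ S, (S.card : ℤ) - (N S).card ≤ (D0.card : ℤ) - (N D0).card := by
    intro S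
    have a1 := hD1 S (mem_univ _)
    have a2 := card_le_card d1
    have a3 := card_sdiff_add_card_inter D1 (N D1)
    have a4 := card_sdiff_add_card_inter (N D1) D1
    rw [inter_comm] at a4
    rw [← hD0] at a3
    omega
  have d2 : ∀ e ∈ D0, e ∉ N D0 := fun e he a => (mem_sdiff.1 (d1 a)).2 (mem_sdiff.1 he).1
  obtain ⟨π, p1, p2⟩ := hall_on (N D0) (fun y => D0.filter (fun e => G.Adj y e)) (by
    intro Y hY
    set U := Y.biUnion (fun y => D0.filter (fun e => G.Adj y e)) with hU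
    have a1 : U ⊆ D0 := biUnion_subset.2 fun _ _ => filter_subset _ _
    have a2 : N (D0 \ U) ⊆ N D0 \ Y := by
      intro v hv
      obtain ⟨s, hs, hsv⟩ := (mN _ _).1 hv
      obtain ⟨s1, s2⟩ := mem_sdiff.1 hs
      exact mem_sdiff.2 ⟨(mN _ _).2 ⟨s, s1, hsv⟩,
        fun a => s2 (mem_biUnion.2 ⟨v, a, mem_filter.2 ⟨s1, hsv.symm⟩⟩)⟩
    have a3 := hmax (D0 \ U)
    have a4 := card_le_card a2
    have a5 := card_sdiff_add_card_eq_card a1
    have a6 := card_sdiff_add_card_eq_card hY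
    omega)
  set R := univ \ (N D0 ∪ D0) with hR
  have mR : ∀ v, v ∈ R ↔ v ∉ N D0 ∧ v ∉ D0 := by simp [hR]
  obtain ⟨φ, q1, q2⟩ := hall_on R (fun y => R.filter (fun e => G.Adj y e)) (by
    intro Y hY
    set U := Y.biUnion (fun y => R.filter (fun e => G.Adj y e)) with hU
    have a2 : N (D0 ∪ Y) ⊆ N D0 ∪ U := by
      intro v hv
      obtain ⟨s, hs, hsv⟩ := (mN _ _).1 hv
      by_cases a : v ∈ N D0
      · exact mem_union_left _ a
      rcases mem_union.1 hs with b | b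
      · exact absurd ((mN _ _).2 ⟨s, b, hsv⟩) a
      · refine mem_union_right _ (mem_biUnion.2 ⟨s, b, mem_filter.2 ⟨(mR v).2 ⟨a, fun c => ?_⟩, hsv⟩⟩)
        exact ((mR s).1 (hY b)).1 ((mN _ _).2 ⟨v, c, hsv.symm⟩)
    have a3 := hmax (D0 ∪ Y)
    have a4 := card_le_card a2
    have a5 := card_union_le (N D0) U
    have a6 : (D0 ∪ Y).card = D0.card + Y.card :=
      card_union_of_disjoint (disjoint_left.2 fun v a b => ((mR v).1 (hY b)).2 a)
    omega)
  let ψ : V → V := fun v => if v ∈ R then φ v else v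
  have ψinj : Function.Injective ψ := by
    intro a b e
    simp only [ψ] at e
    by_cases ha : a ∈ R <;> by_cases hb : b ∈ R
    · rw [if_pos ha, if_pos hb] at e; exact q1 ha hb e
    · rw [if_pos ha, if_neg hb] at e; exact absurd (e ▸ (mem_filter.1 (q2 a ha)).1) hb
    · rw [if_neg ha, if_pos hb] at e; exact absurd (e ▸ (mem_filter.1 (q2 b hb)).1) ha
    · rwa [if_neg ha, if_neg hb] at e
  refine ⟨N D0, D0, π, Equiv.ofBijective ψ (Finite.injective_iff_bijective.1 ψinj),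
    fun e he a b => (mN _ _).2 ⟨e, he, b⟩, d2, p1, fun y hy => mem_filter.1 (p2 y hy),
    fun v a b => ?_, fun v a => ?_⟩
  · have := (mR v).2 ⟨a, b⟩
    simp only [Equiv.ofBijective_apply, ψ, if_pos this]
    exact (mem_filter.1 (q2 v this)).2
  · have : v ∉ R := fun b => by have := (mR v).1 b; tauto
    simp only [Equiv.ofBijective_apply, ψ, if_neg this]

structure One (G : SimpleGraph V) (Q : St V) : Prop where
  ne : ∀ v, Q.ty v ≠ O ∧ Q.ty v ≠ X
  mate : ∀ s, Q.ty s = K → Q.ty (Q.mate s) = K ∧ Q.mate (Q.mate s) = s ∧ G.Adj s (Q.mate s)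
  fg : ∀ e, Q.ty e = D → Q.ty (Q.f e) = A ∧ Q.ty (Q.g e) = A ∧ Q.f e ≠ Q.g e ∧
    G.Adj e (Q.f e) ∧ G.Adj e (Q.g e)
  lr : ∀ c, Q.ty c = C → (Q.ty (Q.l c) = C ∧ Q.cid (Q.l c) = Q.cid c) ∧
    (Q.ty (Q.r c) = C ∧ Q.cid (Q.r c) = Q.cid c) ∧ Q.r (Q.l c) = c ∧ Q.l (Q.r c) = c ∧
    Q.l c ≠ Q.r c ∧ Q.l (Q.l c) ≠ Q.r c ∧ Q.l (Q.l c) ≠ Q.r (Q.r c) ∧
    G.Adj c (Q.l c) ∧ G.Adj c (Q.r c)
  m_ok : ∀ c v, Q.ty c = C → Q.ty v = C → Q.cid v = Q.cid c → v ≠ c → v ≠ Q.l c → v ≠ Q.r c →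
    Q.ty (Q.m c v) = C ∧ Q.cid (Q.m c v) = Q.cid c ∧ Q.m c v ≠ c ∧ Q.m c v ≠ Q.l c ∧
      Q.m c v ≠ Q.r c ∧ Q.m c (Q.m c v) = v ∧ G.Adj v (Q.m c v)
  tri : ∀ v, Q.ty v = F → ∃ a, Q.ty a = K ∧ G.Adj v a ∧ G.Adj v (Q.mate a)
  hall : ∃ π : V → V, ∀ y, Q.ty y = A → Q.ty (π y) = D ∧ Q.f (π y) = y

theorem exists_one (G : SimpleGraph V) (hG : ∀ v, ∃ a b, a ≠ b ∧ G.Adj v a ∧ G.Adj v b) :
    ∃ Q : St V, One G Q := by
  classical
  obtain ⟨A0, D0, π, σ, d1, d2, p1, p2, s1, s2⟩ := decomp G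
  obtain ⟨cid, n, ix, c1, c2, c3, c4, c5, c6, c7, c8⟩ := cyc σ
  have ends : ∀ e, ∃ a b, a ≠ b ∧ G.Adj e a ∧ G.Adj e b ∧ ∀ y ∈ A0, π y = e → a = y := by
    intro e
    obtain ⟨a, b, ab, ha, hb⟩ := hG e
    by_cases h : ∃ y ∈ A0, π y = e
    · obtain ⟨y, hy, rfl⟩ := h
      have := (p2 y hy).2.symm
      by_cases c : y = a
      · exact ⟨y, b, c ▸ ab, this, hb, fun z hz e => p1 hy hz e.symm⟩
      · exact ⟨y, a, c, this, ha, fun z hz e => p1 hy hz e.symm⟩
    · exact ⟨a, b, ab, ha, hb, fun y hy e => absurd ⟨y, hy, e⟩ h⟩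
  choose f g hfg using ends
  let R : V → Prop := fun v => v ∉ A0 ∧ v ∉ D0
  have r1 : ∀ v, R v → R (σ v) := by
    intro v hv
    by_contra hc
    have : σ v ∈ A0 ∨ σ v ∈ D0 := by simp only [R] at hc; tauto
    have e := σ.injective (s2 _ this)
    rw [e] at hc; exact hc hv
  have r2 : ∀ v, R v → R (σ.symm v) := by
    intro v hv
    by_contra hc
    have : σ.symm v ∈ A0 ∨ σ.symm v ∈ D0 := by simp only [R] at hc; tauto
    have e := s2 _ this
    rw [Equiv.apply_symm_apply] at e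
    rw [← e] at hc; exact hc hv
  have a1 : ∀ v, R v → G.Adj v (σ v) := fun v hv => s1 v hv.1 hv.2
  have a2 : ∀ v, R v → G.Adj v (σ.symm v) := fun v hv => by
    have := a1 _ (r2 v hv)
    rw [Equiv.apply_symm_apply] at this; exact this.symm
  have c1' : ∀ v, cid (σ.symm v) = cid v := fun v => by
    have := c1 (σ.symm v); rw [Equiv.apply_symm_apply] at this; exact this.symm
  have n2 : ∀ v, R v → 2 ≤ n v := by
    intro v hv
    by_contra hc
    have b1 := c4 v v rfl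
    have b2 := c8 v v rfl (by have := c6 v; omega)
    exact (a1 v hv).ne b2.symm
  have prev : ∀ c v, cid v = cid c → 0 < ix c v → ix c (σ.symm v) + 1 = ix c v := by
    intro c v h h0
    have b0 := (c1' v).trans h
    have b1 := c4 c _ b0
    by_cases b : ix c (σ.symm v) + 1 < n c
    · have := c7 c _ b0 b
      rw [Equiv.apply_symm_apply] at this; exact this.symm
    · have := c8 c _ b0 (by omega)
      rw [Equiv.apply_symm_apply] at this
      rw [this, c6] at h0; omega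
  have prev0 : ∀ c, ix c (σ.symm c) + 1 = n c := by
    intro c
    have b1 := c4 c _ (c1' c)
    by_contra b
    have := c7 c _ (c1' c) (by omega)
    rw [Equiv.apply_symm_apply, c6] at this; omega
  let mm : V → V → V := fun c v => if ix c v % 2 = 0 then σ v else σ.symm v
  have mms : ∀ c v, R v → cid v = cid c → (ix c v % 2 = 0 → ix c v + 1 < n c) →
      R (mm c v) ∧ cid (mm c v) = cid c ∧ G.Adj v (mm c v) ∧ mm c (mm c v) = v ∧
      ((ix c v % 2 = 0 ∧ ix c (mm c v) = ix c v + 1) ∨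
        (ix c v % 2 = 1 ∧ ix c (mm c v) + 1 = ix c v)) := by
    intro c v hv h h2
    by_cases b : ix c v % 2 = 0
    · have e : mm c v = σ v := if_pos b
      have := c7 c v h (h2 b)
      rw [e]
      refine ⟨r1 v hv, (c1 v).trans h, a1 v hv, ?_, Or.inl ⟨b, this⟩⟩
      simp only [mm]; rw [if_neg (by omega)]; simp
    · have e : mm c v = σ.symm v := if_neg b
      have := prev c v h (by omega)
      rw [e]
      refine ⟨r2 v hv, (c1' v).trans h, a2 v hv, ?_, Or.inr ⟨by omega, this⟩⟩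
      simp only [mm]; rw [if_pos (by omega)]; simp
  let ty : V → Ty := fun v => if v ∈ A0 then A else if v ∈ D0 then D else
    if n v % 2 = 0 then K else if n v = 3 then (if ix (cid v) v = 2 then F else K) else C
  have tA : ∀ v, ty v = A ↔ v ∈ A0 := by
    intro v; simp only [ty]; split_ifs <;> simp [*]
  have tD : ∀ v, ty v = D ↔ v ∈ D0 := by
    intro v; simp only [ty]; split_ifs with b1 b2
    · simpa using fun a => d2 v a b1
    all_goals simp [*]
  have tK : ∀ v, ty v = K ↔ R v ∧ (n v % 2 = 0 ∨ (n v = 3 ∧ ix (cid v) v ≠ 2)) := by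
    intro v; simp only [ty, R]; split_ifs <;> simp [*]
  have tF : ∀ v, ty v = F → R v ∧ n v = 3 ∧ ix (cid v) v = 2 := by
    intro v; simp only [ty, R]; split_ifs <;> simp [*]
  have tC : ∀ v, ty v = C ↔ R v ∧ n v % 2 = 1 ∧ n v ≠ 3 := by
    intro v; simp only [ty, R]; split_ifs <;> simp [*]
    all_goals omega
  have hK : ∀ s, ty s = K → ty (mm (cid s) s) = K ∧ mm (cid (mm (cid s) s)) (mm (cid s) s) = s ∧
      G.Adj s (mm (cid s) s) := by
    intro s hs
    obtain ⟨b1, b2⟩ := (tK s).1 hs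
    have b3 := c3 _ _ (c2 s).symm
    have b4 := c4 _ _ (c2 s).symm
    obtain ⟨e1, e2, e3, e4, e5⟩ := mms (cid s) s b1 (c2 s).symm (by omega)
    rw [c2] at e2
    have b5 := c3 _ _ e2
    refine ⟨(tK _).2 ⟨e1, ?_⟩, by rw [e2]; exact e4, e3⟩
    rw [e2]; omega
  refine ⟨⟨ty, fun _ => false, id, fun v => mm (cid v) v, f, g, σ, σ.symm, cid, mm⟩,
    fun v => ?_, hK, fun e he => ?_, fun c hc => ?_, fun c v hc hv h1 h2 h3 h4 => ?_,
    fun v hv => ?_, ⟨π, fun y hy => ?_⟩⟩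
  · simp only [ty]; split_ifs <;> simp
  · have := (tD e).1 he
    obtain ⟨b1, b2, b3, _⟩ := hfg e
    exact ⟨(tA _).2 (d1 e this _ b2), (tA _).2 (d1 e this _ b3), b1, b2, b3⟩
  · obtain ⟨b1, b2, b3⟩ := (tC c).1 hc
    have b4 := n2 c b1
    have i0 := c6 c
    have i1 := c7 c c rfl (by omega)
    have i2 := c7 c (σ c) (c1 c) (by omega)
    have j1 := prev0 c
    have j2 := prev c (σ.symm c) (c1' c) (by omega)
    refine ⟨⟨(tC _).2 ⟨r1 c b1, ?_⟩, c1 c⟩, ⟨(tC _).2 ⟨r2 c b1, ?_⟩, c1' c⟩, by simp, by simp,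
      fun e => ?_, fun e => ?_, fun e => ?_, a1 c b1, a2 c b1⟩
    · rw [c3 c _ (c1 c)]; omega
    · rw [c3 c _ (c1' c)]; omega
    · change σ c = σ.symm c at e; rw [e] at i1; omega
    · change σ (σ c) = σ.symm c at e; rw [e] at i2; omega
    · change σ (σ c) = σ.symm (σ.symm c) at e; rw [e] at i2; omega
  · obtain ⟨b1, b2, b3⟩ := (tC c).1 hc
    obtain ⟨b5, _, _⟩ := (tC v).1 hv
    have b4 := n2 c b1
    have i0 := c6 c
    have i1 := c7 c c rfl (by omega)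
    have j1 := prev0 c
    have k0 : ix c v ≠ 0 := fun e => h2 (c5 c v c h1 rfl (by omega))
    have k1 : ix c v ≠ 1 := fun e => h3 (c5 c v (σ c) h1 (c1 c) (by omega))
    have k2 : ix c v + 1 ≠ n c := fun e => h4 (c5 c v (σ.symm c) h1 (c1' c) (by omega))
    have k3 := c4 c v h1
    obtain ⟨e1, e2, e3, e4, e5⟩ := mms c v b5 h1 (by omega)
    refine ⟨(tC _).2 ⟨e1, ?_⟩, e2, fun e => ?_, fun e => ?_, fun e => ?_, e4, e3⟩
    · change n (mm c v) % 2 = 1 ∧ n (mm c v) ≠ 3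
      rw [c3 c _ e2]; omega
    · change mm c v = c at e; rw [e] at e5; omega
    · change mm c v = σ c at e; rw [e] at e5; omega
    · change mm c v = σ.symm c at e; rw [e] at e5; omega
  · obtain ⟨b1, b2, b3⟩ := tF v hv
    have b4 := c3 _ _ (c2 v).symm
    have b5 := c8 (cid v) v (c2 v).symm (by omega)
    have b6 : cid (σ v) = cid v := c1 v
    have b7 : ix (cid v) (σ v) = 0 := by rw [b5, c6]
    have b8 := prev (cid v) v (c2 v).symm (by omega)
    have b9 := c7 (cid v) (σ v) (b6.trans (c2 v).symm) (by omega)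
    have b10 : σ (σ v) = σ.symm v :=
      c5 (cid v) _ _ ((c1 _).trans (b6.trans (c2 v).symm)) ((c1' v).trans (c2 v).symm) (by omega)
    refine ⟨σ v, (tK _).2 ⟨r1 v b1, Or.inr ⟨by rw [c3 v _ b6]; exact b2, by rw [b6]; omega⟩⟩,
      a1 v b1, ?_⟩
    change G.Adj v (mm (cid (σ v)) (σ v))
    simp only [mm]; rw [b6, if_pos (by omega), b10]; exact a2 v b1
  · have := (tA y).1 hy
    exact ⟨(tD _).2 (p2 y this).1, (hfg _).2.2.2 y this rfl⟩

def comb (Q : Bool → St V) : St (V × Bool) where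
  ty s := (Q s.2).ty s.1
  side s := s.2
  lam s := (s.1, !s.2)
  mate s := ((Q s.2).mate s.1, s.2)
  f s := ((Q s.2).f s.1, s.2)
  g s := ((Q s.2).g s.1, s.2)
  l s := ((Q s.2).l s.1, s.2)
  r s := ((Q s.2).r s.1, s.2)
  cid s := ((Q s.2).cid s.1, s.2)
  m c s := ((Q c.2).m c.1 s.1, c.2)

theorem comb_wf0 {G : Bool → SimpleGraph V} {Q : Bool → St V} (h : ∀ b, One (G b) (Q b)) :
    (comb Q).WF0 := by
  refine ⟨fun s _ => ((h _).ne _).1, fun s _ => by simp [comb], fun s _ => ?_,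
    fun s hs => ((h _).mate _ hs).1, fun s hs => ?_, fun s hs => ?_, fun s _ => rfl,
    fun e he => ⟨((h _).fg _ he).1, rfl⟩, fun e he => ⟨((h _).fg _ he).2.1, rfl⟩, fun e he => ?_,
    fun c hc => ?_, fun c hc => ?_, fun c v _ _ e => (Prod.ext_iff.1 e).2, fun c hc => ?_,
    fun c hc => ?_, fun c hc => ?_, fun c hc => ?_, fun c hc => ?_, fun c hc => ?_, ?_⟩
  · intro e; have := (Prod.ext_iff.1 e).2; simp [comb] at this
  · exact Prod.ext ((h _).mate _ hs).2.1 rfl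
  · exact fun e => ((h _).mate _ hs).2.2.ne (Prod.ext_iff.1 e).1.symm
  · exact fun a => ((h _).fg _ he).2.2.1 (Prod.ext_iff.1 a).1
  · exact ⟨((h _).lr _ hc).1.1, Prod.ext ((h _).lr _ hc).1.2 rfl⟩
  · exact ⟨((h _).lr _ hc).2.1.1, Prod.ext ((h _).lr _ hc).2.1.2 rfl⟩
  · exact Prod.ext ((h _).lr _ hc).2.2.1 rfl
  · exact Prod.ext ((h _).lr _ hc).2.2.2.1 rfl
  · exact fun e => ((h _).lr _ hc).2.2.2.2.2.2.2.1.ne (Prod.ext_iff.1 e).1.symm
  · exact fun e => ((h _).lr _ hc).2.2.2.2.1 (Prod.ext_iff.1 e).1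
  · exact fun e => ((h _).lr _ hc).2.2.2.2.2.1 (Prod.ext_iff.1 e).1
  · exact fun e => ((h _).lr _ hc).2.2.2.2.2.2.1 (Prod.ext_iff.1 e).1
  · rintro ⟨c, b⟩ ⟨v, b'⟩ hc hv e h1 h2 h3
    obtain ⟨e1, e2⟩ := Prod.ext_iff.1 e
    change b' = b at e2
    subst e2
    obtain ⟨m1, m2, m3, m4, m5, m6, m7⟩ := (h b').m_ok c v hc hv e1
      (fun a => h1 (Prod.ext a rfl)) (fun a => h2 (Prod.ext a rfl)) (fun a => h3 (Prod.ext a rfl))
    exact ⟨m1, Prod.ext m2 rfl, fun a => m3 (Prod.ext_iff.1 a).1, fun a => m4 (Prod.ext_iff.1 a).1,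
      fun a => m5 (Prod.ext_iff.1 a).1, fun a => m7.ne (Prod.ext_iff.1 a).1.symm, Prod.ext m6 rfl⟩

theorem comb_feas {G : Bool → SimpleGraph V} {Q : Bool → St V} (h : ∀ b, One (G b) (Q b))
    (σ : Bool) : ((comb Q).gr σ).Feas ((comb Q).gr σ).A ∅ := by
  obtain ⟨π, hπ⟩ := (h σ).hall
  intro Y hY
  rw [sdiff_empty]
  have key : ∀ y ∈ Y, (comb Q).ty (π y.1, σ) = D ∧ (comb Q).f (π y.1, σ) = y := by
    rintro ⟨y, b⟩ hy
    obtain ⟨a1, a2⟩ := St.mem_A.1 (hY hy)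
    change b = σ at a2
    subst a2
    exact ⟨(hπ y a1).1, Prod.ext (hπ y a1).2 rfl⟩
  refine card_le_card_of_injOn (fun y => (π y.1, σ)) (fun y hy => ?_) (fun y hy z hz e => ?_)
  · have := key y hy
    exact Gr.mem_nb.2 ⟨St.mem_E.2 ⟨this.1, rfl⟩, Or.inl (by rw [St.gr_f, this.2]; exact hy)⟩
  · rw [← (key y hy).2, ← (key z hz).2]; exact congrArg _ e

theorem comb_dom {G : Bool → SimpleGraph V} {Q : Bool → St V} (h : ∀ b, One (G b) (Q b))
    {S : Finset (V × Bool)} (hS : (comb Q).Sat S) (b : Bool) (v : V) :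
    (v, b) ∈ S ∨ ∃ u, (u, b) ∈ S ∧ (G b).Adj v u := by
  have h0 := (h b).ne v
  cases hv : (Q b).ty v
  · exact absurd hv h0.1
  · exact absurd hv h0.2
  · obtain ⟨a, a1, a2, a3⟩ := (h b).tri v hv
    rcases hS.k (a, b) a1 with c | c
    · exact Or.inr ⟨_, c, a2⟩
    · exact Or.inr ⟨_, c, a3⟩
  · rcases hS.k (v, b) hv with c | c
    · exact Or.inl c
    · exact Or.inr ⟨_, c, ((h b).mate v hv).2.2⟩
  · rcases hS.a (v, b) hv with c | ⟨⟨e, b'⟩, c1, c2, c3⟩
    · exact Or.inl c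
    · have := (h b').fg e c1
      rcases c2 with c2 | c2
      · obtain ⟨e1, e2⟩ := Prod.ext_iff.1 c2
        change b' = b at e2
        subst e2
        change (Q b').f e = v at e1
        exact Or.inr ⟨e, c3, e1 ▸ this.2.2.2.1.symm⟩
      · obtain ⟨e1, e2⟩ := Prod.ext_iff.1 c2
        change b' = b at e2
        subst e2
        change (Q b').g e = v at e1
        exact Or.inr ⟨e, c3, e1 ▸ this.2.2.2.2.symm⟩
  · have := (h b).fg v hv
    rcases hS.d (v, b) hv with c | c | c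
    · exact Or.inl c
    · exact Or.inr ⟨_, c, this.2.2.2.1⟩
    · exact Or.inr ⟨_, c, this.2.2.2.2⟩
  · obtain ⟨⟨c, b'⟩, c1, c2, c3, c4⟩ := hS.c (v, b) hv
    obtain ⟨e1, e2⟩ := Prod.ext_iff.1 c2
    change b' = b at e2
    subst e2
    have := (h b').lr c c1
    by_cases a1 : v = c
    · exact Or.inl (a1 ▸ c3)
    by_cases a2 : v = (Q b').l c
    · exact Or.inr ⟨c, c3, a2 ▸ this.2.2.2.2.2.2.2.1.symm⟩
    by_cases a3 : v = (Q b').r c
    · exact Or.inr ⟨c, c3, a3 ▸ this.2.2.2.2.2.2.2.2.symm⟩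
    rcases c4 (v, b') hv c2.symm (fun a => a1 (Prod.ext_iff.1 a).1)
      (fun a => a2 (Prod.ext_iff.1 a).1) (fun a => a3 (Prod.ext_iff.1 a).1) with d | d
    · exact Or.inl d
    · exact Or.inr ⟨_, d, ((h b').m_ok c v c1 hv e1.symm a1 a2 a3).2.2.2.2.2.2⟩

theorem phi_four : ∀ t u, t ≠ O → t ≠ X → u ≠ X → 4 ≤ phi false t u := by decide

theorem main_gen (G : Bool → SimpleGraph V)
    (hG : ∀ b v, ∃ a c, a ≠ c ∧ (G b).Adj v a ∧ (G b).Adj v c) :
    ∃ S : Finset V, 5 * S.card ≤ 3 * Fintype.card V ∧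
      ∀ b v, v ∈ S ∨ ∃ u ∈ S, (G b).Adj v u := by
  choose Q hQ using fun b => exists_one (G b) (hG b)
  set P := comb Q with hP
  have w := comb_wf0 hQ
  obtain ⟨t1, m1, d1⟩ := w.del false ∅ ∅ ∅ ∅ (P.gr false).A (empty_subset _) (empty_subset _)
    (empty_subset _) (by simp) (by simp [hP]) (empty_subset _) (by simp) (by simp) (comb_feas hQ _)
  have eg : (P.upd t1 m1).gr true = P.gr true := St.gr_off d1.off (by simp)
  obtain ⟨t, m, d2⟩ := d1.wf0.del true ∅ ∅ ∅ ∅ ((P.upd t1 m1).gr true).A (empty_subset _)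
    (empty_subset _) (empty_subset _) (by simp) (by simp [hP]) (empty_subset _) (by simp) (by simp)
    (by rw [eg]; exact comb_feas hQ _)
  have wf : ((P.upd t1 m1).upd t m).WF := by
    refine ⟨d2.wf0, fun τ => ?_⟩
    cases τ
    · rw [St.gr_off d2.off (by simp)]; exact d1.sur
    · exact d2.sur
  obtain ⟨S, hS, hv⟩ := wf.good
  have hS' := d1.sat S (d2.sat S hS)
  have nO : ∀ s, t s ≠ O := fun s a =>
    ((hQ _).ne _).1 ((St.ok_O _ _ (d1.tr s)).1 ((St.ok_O _ _ (d2.tr s)).1 a))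
  have nX : ∀ s, t s ≠ X := fun s a => by
    have b1 := d1.newX s
    have b2 := d2.newX s a
    simp only [notMem_empty, or_self, imp_false, not_not] at b1 b2
    exact ((hQ _).ne _).2 (b1 b2)
  have op : ∀ s, ((P.upd t1 m1).upd t m).opp s = false := by
    rintro ⟨v, b⟩; cases b <;> rfl
  set T : Finset V := univ.filter (fun v => (v, false) ∈ S ∨ (v, true) ∈ S) with hT
  have h1 : ∑ _s : V × Bool, (4 : ℤ) ≤ ((P.upd t1 m1).upd t m).Phi :=
    sum_le_sum fun s _ => by rw [op]; exact phi_four _ _ (nO _) (nX _) (nX _)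
  have h2 : ((P.upd t1 m1).upd t m).val S = ∑ v : V, (20 - if v ∈ T then 20 else 0 : ℤ) := by
    unfold St.val
    rw [Fintype.sum_prod_type]
    refine sum_congr rfl fun v _ => ?_
    rw [Fintype.sum_bool]
    unfold St.vs
    rw [op, op]
    simp only [St.upd_ty, nO, if_false, St.upd_lam, hP, comb, hT, mem_filter, mem_univ]
    by_cases a : (v, false) ∈ S <;> by_cases b : (v, true) ∈ S <;> simp [a, b]
  rw [sum_sub_distrib, sum_ite_mem, univ_inter] at h2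
  simp only [sum_const, card_univ, Fintype.card_prod, Fintype.card_bool, nsmul_eq_mul] at h1 h2
  refine ⟨T, by push_cast at h1; omega, fun b v => ?_⟩
  have mT : ∀ u, (u, b) ∈ S → u ∈ T := fun u a => by
    cases b
    · exact mem_filter.2 ⟨mem_univ _, Or.inl a⟩
    · exact mem_filter.2 ⟨mem_univ _, Or.inr a⟩
  rcases comb_dom hQ hS' b v with a | ⟨u, a1, a2⟩
  · exact Or.inl (mT v a)
  · exact Or.inr ⟨u, mT u a1, a2⟩

theorem main (n : ℕ) (G₁ G₂ : SimpleGraph (Fin n))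
    (h1 : ∀ v : Fin n, ∃ a b : Fin n, a ≠ b ∧ G₁.Adj v a ∧ G₁.Adj v b)
    (h2 : ∀ v : Fin n, ∃ a b : Fin n, a ≠ b ∧ G₂.Adj v a ∧ G₂.Adj v b) :
    ∃ S : Finset (Fin n), 5 * S.card ≤ 3 * n ∧
      ∀ v : Fin n, (v ∈ S ∨ ∃ u ∈ S, G₁.Adj v u) ∧ (v ∈ S ∨ ∃ u ∈ S, G₂.Adj v u) := by
  obtain ⟨S, a1, a2⟩ := main_gen (fun b => if b then G₂ else G₁) (by
    intro b; cases b
    · exact h1
    · exact h2)
  exact ⟨S, by simpa using a1, fun v => ⟨a2 false v, a2 true v⟩⟩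

end Pool.Agent.P.MP_11624f_co
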