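import Pool.Agent.P.MP_11624f_co.Red

set_option autoImplicit false
set_option linter.unusedSectionVars false
open Finset

namespace Pool.Agent.P.MP_11624f_co
open Ty

theorem fg_ro : ∀ oy ta tb, Ty.live tb = true → ta ≠ O → (oy = false → ta ≠ K) →
    (oy = true → ta = X ∨ ta = F) → 1 ≤ fg oy true ta tb := by decide +kernel
theorem fg_ft : ∀ oy oe ta tb, fixB oy ta = true → tb ≠ O → tb ≠ K → (oe = false → tb ≠ F) →
    (oe = true → tb ≠ X) → 1 ≤ fg oy oe ta tb := by decide +kernel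
theorem ok_cases : ∀ t t' : Ty, t.ok t' = true → t.live = true →
    t'.live = true ∨ t' = X ∨ t' = F ∨ t' = K := by decide

theorem Gr.Ok.lemG {α : Type} [DecidableEq α] {G : Gr α} (ok : G.Ok) {v y s : α} {Z0 Q : Finset α}
    (hs : s ∉ Z0) (hF : G.Feas (G.A.erase v) (insert s Z0)) (hsy : s ∈ G.inc y)
    (hQ : Q ⊆ G.A.erase v) (hyQ : y ∈ Q) (ht : (G.nb Q \ insert s Z0).card ≤ Q.card) :
    ∃ g y2 Z2, y2 ∈ G.A ∧ y2 ≠ y ∧ g ∈ G.inc y2 ∧ g ∉ Z0 ∧ insert g Z0 ⊆ Z2 ∧
      Z2 ⊆ Z0 ∪ G.inc y2 ∧ s ∉ Z2 ∧ G.Feas ((G.A.erase v).erase y2) Z2 ∧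
      ¬ G.Feas ((G.A.erase v).erase y2) (Z2 ∪ {s}) ∧
      (y2 = v ∨ (Z0.card + 2 ≤ Z2.card ∧ (Z0.card + 3 ≤ Z2.card ∨
        ∃ Q2 ⊆ G.A.erase v, y2 ∈ Q2 ∧ (G.nb Q2 \ insert s Z0).card ≤ Q2.card))) := by
  set Z1 := insert s Z0 with hZ1
  have hy := hQ hyQ
  obtain ⟨Q3, q1, q2, q3⟩ := (hF.mono (erase_subset y _) (fun e he _ => he)).maxTight
  have : ∃ g ∈ G.inc y, g ∉ Z1 ∧ g ∉ G.nb Q3 := by
    by_contra hc
    push Not at hc
    have b1 := hF (insert y Q3) (insert_subset hy (q1.trans (erase_subset _ _)))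
    have b2 : G.nb (insert y Q3) \ Z1 ⊆ G.nb Q3 \ Z1 := by
      intro e he
      rw [Gr.nb_insert, mem_sdiff, mem_union] at he
      rcases he.1 with a | a
      · exact mem_sdiff.2 ⟨hc e a he.2, he.2⟩
      · exact mem_sdiff.2 ⟨a, he.2⟩
    have b3 := card_le_card b2
    rw [card_insert_of_notMem (fun a => by simpa using q1 a)] at b1
    omega
  obtain ⟨g, g1, g2, g3⟩ := this
  set y2 := G.oth g y with hy2
  have y2y : y2 ≠ y := ok.oth_ne g1
  have g4 : g ∈ G.inc y2 := Gr.oth_inc g1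
  have gs : g ≠ s := fun a => g2 (a ▸ mem_insert_self _ _)
  have gZ : g ∉ Z0 := fun a => g2 (mem_insert_of_mem a)
  set B := (G.A.erase v).erase y2 with hB
  have F0 : G.Feas B (insert g Z0) := by
    intro Y hY
    refine (hF Y (hY.trans (erase_subset _ _))).trans ?_
    by_cases c : y ∈ Y
    · have b1 : G.nb Y \ Z1 ⊆ insert g ((G.nb Y \ insert g Z0).erase s) := by
        intro e he
        simp only [hZ1, mem_sdiff, mem_insert, mem_erase, not_or] at he ⊢
        by_cases a : e = g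
        · exact Or.inl a
        · exact Or.inr ⟨he.2.1, he.1, a, he.2.2⟩
      have b2 := card_le_card b1
      have b3 : s ∈ G.nb Y \ insert g Z0 :=
        mem_sdiff.2 ⟨Gr.mem_nb_of_inc c hsy, by simp [gs.symm, hs]⟩
      have b4 := card_insert_le g ((G.nb Y \ insert g Z0).erase s)
      rw [card_erase_of_mem b3] at b4
      have := card_pos.2 ⟨s, b3⟩
      omega
    · have b1 : g ∉ G.nb Y := Gr.not_mem_nb_of_ends g1 g4 y2y.symm c (fun a => by simpa [hB] using hY a)
      refine card_le_card fun e he => ?_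
      simp only [hZ1, mem_sdiff, mem_insert, not_or] at he ⊢
      exact ⟨he.1, fun a => b1 (a ▸ he.1), he.2.2⟩
  obtain ⟨Z2, Ys, z1, z2, z3, z4, z5, z6, z7⟩ := F0.ext (G.inc y2 \ Z1)
  have sZ : s ∉ Z2 := fun a => by
    have := z2 a
    simp [gs.symm, hs, hZ1] at this
  have new : ∀ e ∈ Z2, e ∉ insert g Z0 → e ∈ G.inc y2 ∧ e ∉ Z1 := fun e a b => by
    rcases mem_union.1 (z2 a) with c | c
    · exact absurd c b
    · exact mem_sdiff.1 c
  have cZ : (Z2 \ insert g Z0).card + Z0.card + 1 = Z2.card := by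
    have := card_sdiff_add_card_eq_card z1
    rw [card_insert_of_notMem gZ] at this; omega
  -- counting around y2
  have cnt : y2 ≠ v → (G.nb (insert y2 Ys) \ Z1).card + (if y ∈ Ys then 1 else 0) ≤
      (insert y2 Ys).card + (Z2 \ insert g Z0).card := by
    intro _
    have b1 : G.nb (insert y2 Ys) \ Z1 ⊆ insert g (((G.nb Ys \ Z2).erase s) ∪ (Z2 \ insert g Z0)) := by
      intro e he
      rw [Gr.nb_insert, mem_sdiff, mem_union] at he
      have e1 : e ≠ s := fun a => he.2 (a ▸ mem_insert_self _ _)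
      have e2 : e ∉ Z0 := fun a => he.2 (mem_insert_of_mem a)
      by_cases a : e = g
      · simp [a]
      refine mem_insert_of_mem ?_
      by_cases b : e ∈ Z2
      · exact mem_union_right _ (mem_sdiff.2 ⟨b, by simp [a, e2]⟩)
      refine mem_union_left _ (mem_erase.2 ⟨e1, mem_sdiff.2 ⟨?_, b⟩⟩)
      rcases he.1 with c | c
      · exact (mem_union.1 (z7 (mem_sdiff.2 ⟨c, he.2⟩))).resolve_left b
      · exact c
    have b2 := card_le_card b1
    have b3 := card_insert_le g (((G.nb Ys \ Z2).erase s) ∪ (Z2 \ insert g Z0))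
    have b4 := card_union_le ((G.nb Ys \ Z2).erase s) (Z2 \ insert g Z0)
    rw [card_insert_of_notMem (fun a => by simpa [hB] using z4 a)]
    split_ifs with c
    · have b5 : s ∈ G.nb Ys \ Z2 := mem_sdiff.2 ⟨Gr.mem_nb_of_inc c hsy, sZ⟩
      rw [card_erase_of_mem b5] at b4
      have := card_pos.2 ⟨s, b5⟩
      omega
    · have := card_erase_le (s := G.nb Ys \ Z2) (a := s)
      omega
  have sub : y2 ≠ v → insert y2 Ys ⊆ G.A.erase v := fun a =>
    insert_subset (mem_erase.2 ⟨a, ok.oth_A g1⟩) (z4.trans (erase_subset _ _))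
  have one : y2 ≠ v → 1 ≤ (Z2 \ insert g Z0).card := by
    intro a
    have b1 := cnt a
    have b2 := hF _ (sub a)
    by_contra hc
    split_ifs at b1 with c
    · omega
    · have := q3 (insert y2 Ys) (fun e he => mem_erase.2 ⟨by
        rintro rfl
        rcases mem_insert.1 he with d | d
        · exact y2y d.symm
        · exact c d, sub a he⟩) (by omega)
      exact g3 (Gr.mem_nb_of_inc (this (mem_insert_self _ _)) g4)
  -- the set Q without y2
  have QB : Q.erase y2 ⊆ B := erase_subset_erase _ hQ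
  have yQ : y ∈ Q.erase y2 := mem_erase.2 ⟨y2y.symm, hyQ⟩
  have viol : (G.nb (Q.erase y2) \ (Z2 ∪ {s})).card < (Q.erase y2).card := by
    have gm : g ∈ G.nb Q \ Z1 := mem_sdiff.2 ⟨Gr.mem_nb_of_inc hyQ g1, g2⟩
    have b0 : ∀ e ∈ G.nb (Q.erase y2) \ (Z2 ∪ {s}), e ∈ G.nb Q \ Z1 ∧ e ∉ Z2 := by
      intro e he
      simp only [mem_sdiff, mem_union, mem_singleton, not_or] at he
      refine ⟨mem_sdiff.2 ⟨Gr.nb_mono (erase_subset _ _) he.1, ?_⟩, he.2.1⟩
      simp only [hZ1, mem_insert, not_or]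
      exact ⟨he.2.2, fun a => he.2.1 (z1 (mem_insert_of_mem a))⟩
    by_cases c : y2 ∈ Q
    · have a : y2 ≠ v := (mem_erase.1 (hQ c)).1
      obtain ⟨z, z8, z9⟩ := Gr.exists_one_of_card (one a)
      obtain ⟨z10, z11⟩ := new z z8 z9
      have zg : g ≠ z := fun b => z9 (b ▸ mem_insert_self _ _)
      have b1 : G.nb (Q.erase y2) \ (Z2 ∪ {s}) ⊆ (G.nb Q \ Z1) \ {g, z} := fun e he => by
        refine mem_sdiff.2 ⟨(b0 e he).1, ?_⟩
        simp only [mem_insert, mem_singleton, not_or]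
        exact ⟨fun b => (b0 e he).2 (b ▸ z1 (mem_insert_self _ _)), fun b => (b0 e he).2 (b ▸ z8)⟩
      have b3 : ({g, z} : Finset α) ⊆ G.nb Q \ Z1 := by
        simp only [insert_subset_iff, singleton_subset_iff]
        exact ⟨gm, mem_sdiff.2 ⟨Gr.mem_nb_of_inc c z10, z11⟩⟩
      have b4 := card_le_card b1
      have b5 := card_le_card b3
      rw [card_sdiff_of_subset b3] at b4
      rw [card_pair zg] at b4 b5
      rw [card_erase_of_mem c]
      omega
    · rw [erase_eq_of_notMem c] at b0 ⊢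
      have b1 : G.nb Q \ (Z2 ∪ {s}) ⊆ (G.nb Q \ Z1).erase g := fun e he =>
        mem_erase.2 ⟨fun b => (b0 e he).2 (b ▸ z1 (mem_insert_self _ _)), (b0 e he).1⟩
      have b4 := card_le_card b1
      rw [card_erase_of_mem gm] at b4
      have := card_pos.2 ⟨g, gm⟩
      omega
  have yYs : y ∈ Ys := by
    refine z6 _ QB ?_ yQ
    have b1 : G.nb (Q.erase y2) \ Z2 ⊆ insert s (G.nb (Q.erase y2) \ (Z2 ∪ {s})) := by
      intro e he
      simp only [mem_sdiff, mem_union, mem_singleton, not_or, mem_insert] at he ⊢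
      by_cases a : e = s
      · exact Or.inl a
      · exact Or.inr ⟨he.1, he.2, a⟩
    have b2 := card_le_card b1
    have b3 := card_insert_le s (G.nb (Q.erase y2) \ (Z2 ∪ {s}))
    omega
  refine ⟨g, y2, Z2, ok.oth_A g1, y2y, g4, gZ, z1, fun e he => ?_, sZ, z3,
    fun a => absurd (a _ QB) (not_le.2 viol), ?_⟩
  · by_cases a : e ∈ insert g Z0
    · rcases mem_insert.1 a with b | b
      · exact mem_union_right _ (b ▸ g4)
      · exact mem_union_left _ b
    · exact mem_union_right _ (new e he a).1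
  · by_cases a : y2 = v
    · exact Or.inl a
    · have b1 := one a
      have b2 := cnt a
      rw [if_pos yYs] at b2
      refine Or.inr ⟨by omega, ?_⟩
      by_cases b : Z0.card + 3 ≤ Z2.card
      · exact Or.inl b
      · exact Or.inr ⟨_, sub a, mem_insert_self _ _, by omega⟩

namespace St
variable {α : Type} [DecidableEq α] [Fintype α] {P : St α}

open Classical in
noncomputable def kap (P : St α) (x : α) : ℤ := if P.Fix x then 5 else if P.OppL x then 3 else 4
def Os (P : St α) (σ : Bool) (x : α) : Finset α := ((P.gr σ).inc x).filter (fun e => P.opp e = true)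
def As (P : St α) (σ : Bool) (x : α) : Finset α := ((P.gr σ).inc x).filter (fun e => P.opp e = false)

theorem mem_Os {σ : Bool} {x e : α} : e ∈ P.Os σ x ↔ e ∈ (P.gr σ).inc x ∧ P.opp e = true := mem_filter
theorem mem_As {σ : Bool} {x e : α} : e ∈ P.As σ x ↔ e ∈ (P.gr σ).inc x ∧ P.opp e = false := mem_filter

theorem card_Os_As (σ : Bool) (x : α) : (P.Os σ x).card + (P.As σ x).card = (P.gr σ).deg x := by
  have := card_filter_add_card_filter_not (s := (P.gr σ).inc x) (fun e => P.opp e = true)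
  simpa [Os, As, Gr.deg] using this

theorem Red.oppL (h : P.Red) {e : α} (he : P.ty e = D) (ho : P.opp e = true) : P.OppL e :=
  (h.ed e he).resolve_right fun a => by rw [ho] at a; cases a.1

theorem OppL.lam {s : α} (w : P.WF0) (hs : (P.ty s).live = true) (h : P.OppL s) : P.OppL (P.lam s) :=
  ⟨(w.opp_lam (live_ne_O _ hs)).trans h.1, by rw [w.lam_lam s (live_ne_O _ hs)]; exact hs⟩

theorem live_ne_X {s : α} (hs : (P.ty s).live = true) : P.ty s ≠ X := by
  intro a; rw [a] at hs; cases hs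

theorem Step.c_head {σ : Bool} {t : α → Ty} {m : α → α} (st : P.Step σ t m) (h : P.WF0) {x : α}
    (hx : P.ty x = A) (hl : P.OppL x → t (P.lam x) ≠ X) : -P.kap x ≤ P.c t x := by
  unfold kap
  split_ifs with a b
  · exact st.c_X5 h (neOA hx)
  · exact st.c_X3 h (neOA hx) b (hl b)
  · exact st.c_X4 h (neOA hx) a

theorem WF.del1' (h : P.WF) {σ : Bool} {x : α} (hx : x ∈ (P.gr σ).A) (N Z : Finset α)
    (hN : N ⊆ (P.gr σ).E) (hZ : Z ⊆ N ∪ (P.gr σ).inc x) (hF : (P.gr σ).Feas ((P.gr σ).A.erase x) Z) :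
    ∃ t m, P.DelOut σ {x} N ∅ Z ((P.gr σ).A.erase x) t m :=
  h.toWF0.del σ {x} N ∅ Z _ (by simpa using hx) hN (by simp) (by simp)
    (by rw [union_empty, sdiff_singleton_eq_erase]) hZ (by simp) (by simp) hF

theorem Red.sm (h : P.Red) {σ : Bool} {x : α} (hx : x ∈ (P.gr σ).A) (ZA V : Finset α)
    (hA : ZA ⊆ P.As σ x) (hV : V ⊆ P.Os σ x) (hV' : ∀ v ∈ V, P.lam v ∉ (P.gr σ).inc x)
    (hF : (P.gr σ).Feas ((P.gr σ).A.erase x) (ZA ∪ V))
    (hk : P.kap x ≤ (P.Os σ x).card + ZA.card + V.card) : P.Good 0 := by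
  have w := h.wf.toWF0
  obtain ⟨t, m, d⟩ := h.wf.del1 hx ∅ (ZA ∪ V) (by simp)
    (union_subset (hA.trans (filter_subset _ _)) (hV.trans (filter_subset _ _))) hF
  have st := d.step h.wf
  have a1 := tyA hx
  have nx : ∀ s, (P.ty s).live = true → s ≠ x → t s ≠ X := fun s a b c =>
    b (by simpa using d.newX s c (live_ne_X a))
  have c0 := st.c_head w a1 fun a => nx _ a.2 (w.lam_ne x (neOA a1))
  have Vinc : ∀ v ∈ V, v ∈ (P.gr σ).inc x ∧ P.opp v = true := fun v hv => mem_Os.1 (hV hv)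
  have inj : Set.InjOn P.lam V := fun a ha b hb e =>
    w.lam_inj (neOD (tyI (Vinc a ha).1)) (neOD (tyI (Vinc b hb).1)) e
  refine st.good w (insert x ((P.gr σ).inc x ∪ V.image P.lam))
    (fun s a b => by have := d.newX s a b; simp at this; simp [this])
    (st.good0 h.ih (lvA a1) (d.hX x (by simp))) ?_
  have n1 : x ∉ (P.gr σ).inc x ∪ V.image P.lam := by
    intro a
    rcases mem_union.1 a with b | b
    · exact ne_AE hx (Gr.inc_E b) rfl
    · obtain ⟨v, v1, v2⟩ := mem_image.1 b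
      exact h.own σ x v (Vinc v v1).1 (h.oppL (tyI (Vinc v v1).1) (Vinc v v1).2) v2
  have n2 : Disjoint ((P.gr σ).inc x) (V.image P.lam) := by
    rw [disjoint_right]; intro a b
    obtain ⟨v, v1, rfl⟩ := mem_image.1 b
    exact hV' v v1
  rw [sum_insert n1, sum_union n2, sum_image inj]
  have e1 : ∑ v ∈ V, P.c t (P.lam v) = ∑ e ∈ (P.gr σ).inc x, if e ∈ V then P.c t (P.lam e) else 0 := by
    rw [sum_ite_mem, inter_eq_right.2 (hV.trans (filter_subset _ _))]
  have e2 : ∑ e ∈ (P.gr σ).inc x, ((if P.opp e = true then (1 : ℤ) else 0) +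
      (if e ∈ ZA then 1 else 0) + (if e ∈ V then 1 else 0)) ≤
      ∑ e ∈ (P.gr σ).inc x, (P.c t e + if e ∈ V then P.c t (P.lam e) else 0) := by
    refine sum_le_sum fun e he => ?_
    have a2 := tyI he
    by_cases c1 : e ∈ V
    · have := st.c_pair w (lvD a2) (h.oppL a2 (Vinc e c1).2) (d.zF e (mem_union_right _ c1) (by simp))
      have c2 : e ∉ ZA := fun a => by
        have := (mem_As.1 (hA a)).2; rw [(Vinc e c1).2] at this; cases this
      simp [c1, c2, (Vinc e c1).2]; omega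
    · by_cases c2 : e ∈ ZA
      · have := st.c_F1 w (lvD a2) (h.nn e (lvD a2)) (d.zF e (mem_union_left _ c2) (by simp))
        simp [c1, c2, (mem_As.1 (hA c2)).2]; omega
      · cases c3 : P.opp e
        · have := st.c_nonneg w (Or.inl (nx e (lvD a2) (ne_AE hx (Gr.inc_E he)).symm))
          simp [c1, c2]; omega
        · have o := h.oppL a2 c3
          have := st.c_K1 w (lvD a2) o (d.opt x (by simp) e he (by simp))
            (nx _ o.2 (h.own σ x e he o))
          simp [c1, c2]; omega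
  rw [sum_add_distrib, sum_add_distrib, sum_add_distrib, ← e1, sum_ite_mem, sum_ite_mem,
    inter_eq_right.2 (hV.trans (filter_subset _ _)), inter_eq_right.2 (hA.trans (filter_subset _ _)),
    sum_boole] at e2
  simp only [sum_const, nsmul_eq_mul, mul_one] at e2
  unfold Os at hk
  omega

theorem Red.sm' (h : P.Red) {σ : Bool} {x : α} (hx : x ∈ (P.gr σ).A) (Z V : Finset α)
    (hZ : Z ⊆ (P.gr σ).inc x) (hV : V ⊆ Z) (hVo : ∀ v ∈ V, P.opp v = true)
    (hV' : ∀ v ∈ V, P.lam v ∉ (P.gr σ).inc x)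
    (hF : (P.gr σ).Feas ((P.gr σ).A.erase x) Z) (hk : P.kap x ≤ Z.card + V.card) : P.Good 0 := by
  refine h.sm hx (Z.filter fun e => P.opp e = false) V (filter_subset_filter _ hZ)
    (fun v hv => mem_Os.2 ⟨hZ (hV hv), hVo v hv⟩) hV'
    (hF.mono Subset.rfl fun e he _ => ?_) ?_
  · rcases mem_union.1 he with a | a
    · exact (mem_filter.1 a).1
    · exact hV a
  · have a1 := card_filter_add_card_filter_not (s := Z) (fun e => P.opp e = true)
    have a2 : (Z.filter fun e => P.opp e = true).card ≤ (P.Os σ x).card :=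
      card_le_card (filter_subset_filter _ hZ)
    simp only [Bool.not_eq_true] at a1
    omega

section out
variable {σ : Bool} {H N W Z B : Finset α} {t : α → Ty} {m : α → α}

theorem Red.bonusH (h : P.Red) (d : P.DelOut σ H N W Z B t m) (hH : H ⊆ (P.gr σ).A)
    (hN : ∀ s ∈ N, P.opp s = true)
    {y : α} (hy : P.ty y = A) (hF : t y = F) (h1 : ¬ P.Fix y) (h2 : ¬ P.OppL y) :
    (P.upd t m).Good 2 := by
  have a := ((h.hd y hy).resolve_left h1).resolve_left h2
  refine (d.step h.wf).bonus h.wf h.ih h.nn (lvA hy) hF a.1 (Or.inl a.2) fun q a b c e => ?_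
  rcases d.newX q a b with f | f
  · rcases h.hd q (tyA (hH f)) with g | g | g
    · exact absurd e g.dead
    · rw [g.1] at c; cases c
    · exact g.2
  · rw [hN q f] at c; cases c

theorem Red.ro (h : P.Red) (d : P.DelOut σ H N W Z B t m) (L : List α) (hnd : L.Nodup)
    (hH : ∀ s ∈ H, s ∈ L) (hN : ∀ s ∈ N, s ∈ L) {v : α} (hv : v ∈ (P.gr σ).E) (ho : P.opp v = true)
    (ht : t v = K ∨ t v = F) (h1 : v ∉ L) (h2 : P.lam v ∉ L)
    (h3 : ∀ y ∈ L, y ∈ B → t (P.lam y) = F) (hk : -2 ≤ (L.map (P.c t)).sum) : P.Good 0 := by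
  have w := h.wf.toWF0
  have st := d.step h.wf
  have a1 := tyE hv
  have o := h.oppL a1 ho
  have vO := neOD a1
  have g0 : (P.upd t m).Good 0 := st.toRef.good0 h.ih (s := v) (by
    rw [a1]; rcases ht with a | a <;> rw [a] <;> simp)
  have nx : t (P.lam v) ≠ X := fun a => h2 ((d.newX _ a (live_ne_X o.2)).elim (hH _) (hN _))
  have lv := w.lam_ne v vO
  have two : 2 ≤ P.c t v + P.c t (P.lam v) → P.Good 0 := fun a =>
    d.good h.wf (v :: P.lam v :: L) (by simp [hnd, h1, h2, lv.symm])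
      (fun s b => by simp [hH s b]) (fun s b => by simp [hN s b]) g0 (by simp; omega)
  rcases ht with ht | ht
  swap
  · exact two (st.c_pair w (lvD a1) o ht)
  have c1 := st.c_K1 w (lvD a1) o (Or.inl ht) nx
  by_cases c : t (P.lam v) = K ∨ t (P.lam v) = F
  · have := st.c_K1 w o.2 (o.lam w (lvD a1)) c (by rw [w.lam_lam v vO, ht]; simp)
    exact two (by omega)
  have lu : (t (P.lam v)).live = true := by
    rcases ok_cases _ _ (st.tr _) o.2 with a | a | a | a
    · exact a
    · exact absurd a nx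
    · exact absurd (Or.inr a) c
    · exact absurd (Or.inl a) c
  obtain ⟨y1, y2⟩ := d.mateD v hv ht
  have yk : t (m v) = K := st.wf.mate_ty v ht
  have mm : m (m v) = v := st.wf.mate_mate v ht
  generalize m v = y at y1 y2 yk mm
  have a2 := tyA ((h.wf.ok σ).inc_A y1)
  have yO := neOA a2
  by_cases c2 : P.opp y = true ∧ ¬ (t (P.lam y) = X ∨ t (P.lam y) = F)
  · have oy : P.OppL y := by
      rcases h.hd y a2 with a | a | a
      · have := fix_upd st.toRef a
        unfold Fix fixB at this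
        simp only [upd_opp, c2.1, if_true, upd_ty, upd_lam, decide_eq_true_eq] at this
        exact absurd (Or.inl this) c2.2
      · exact a
      · rw [c2.1] at a; cases a.1
    have := st.c_K1 w (lvA a2) oy (Or.inl yk) (fun a => c2.2 (Or.inl a))
    have n1 : y ∉ L := fun a => c2.2 (Or.inr (h3 y a y2))
    exact d.good h.wf (v :: y :: L) (by simp [hnd, h1, n1]; grind)
      (fun s b => by simp [hH s b]) (fun s b => by simp [hN s b]) g0 (by simp; omega)
  · have fo := st.wf.fold (st.toRef.ih h.ih) (y := y) yk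
    simp only [upd_lam, upd_mate, upd_opp, upd_ty, mm] at fo
    rw [if_neg (fun a => by rw [← a, w.lam_lam y yO, yk] at lu; cases lu), ho] at fo
    have := fg_ro (P.opp y) (t (P.lam y)) (t (P.lam v)) lu
      (fun a => w.lam_ty y yO ((ok_O _ _ (st.tr _)).1 a))
      (fun a => by
        have b := st.side_eq (s := y) (by rw [yk, a2]; simp)
        rw [st.off _ (b ▸ side_of_eq a)]; exact h.nk _)
      (fun a => by by_contra b; exact c2 ⟨a, b⟩)
    exact d.good h.wf (v :: L) (by simp [hnd, h1])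
      (fun s b => by simp [hH s b]) (fun s b => by simp [hN s b]) (fo.mono this) (by simp; omega)

theorem Red.ft (h : P.Red) (d : P.DelOut σ H N W Z B t m) (L : Finset α)
    (hH : ∀ s ∈ H, s ∈ L) (hN : ∀ s ∈ N, s ∈ L) {y : α} (hy : y ∈ (P.gr σ).A) (hf : P.Fix y)
    (ht : t y = K ∨ t y = F) (h1 : y ∉ L)
    (h2 : ∀ w ∈ (P.gr σ).inc y, w ∉ N → w ∉ Z → w ∉ L ∧ (P.opp w = true → t (P.lam w) ≠ X))
    (hk : -1 ≤ ∑ s ∈ L, P.c t s) : P.Good 0 := by
  have w := h.wf.toWF0
  have st := d.step h.wf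
  have a1 := tyA hy
  have yO := neOA a1
  have g0 : (P.upd t m).Good 0 := st.toRef.good0 h.ih (s := y) (by
    rw [a1]; rcases ht with a | a <;> rw [a] <;> simp)
  have cov : ∀ s, t s = X → P.ty s ≠ X → s ∈ L := fun s a b => (d.newX s a b).elim (hH s) (hN s)
  rcases ht with ht | ht
  swap
  · have := st.c_F5 w (lvA a1) hf ht
    exact st.good w (insert y L) (fun s a b => mem_insert_of_mem (cov s a b)) g0
      (by rw [sum_insert h1]; omega)
  obtain ⟨e1, e2, e3⟩ := d.mateA y hy ht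
  obtain ⟨e4, e5⟩ := h2 _ e1 e2 e3
  have ek : t (m y) = K := st.wf.mate_ty y ht
  have fo := st.wf.fold (st.toRef.ih h.ih) (y := y) ht
  simp only [upd_lam, upd_mate, upd_opp, upd_ty] at fo
  generalize m y = e at e1 e2 e3 e4 e5 ek fo
  have a2 := tyI e1
  have eO := neOD a2
  rw [if_neg (fun a => hf.dead (by rw [a]; exact lvD a2))] at fo
  have eq : P.opp e = false → t (P.lam e) = A := fun a => by
    have b := st.side_eq (s := e) (by rw [ek, a2]; simp)
    rw [st.off _ (b ▸ side_of_eq a)]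
    exact ((h.ed e a2).resolve_left fun c => by rw [c.1] at a; cases a).2
  by_cases c : t (P.lam e) = K
  · have o : P.opp e = true := by
      by_contra a
      rw [eq (by simpa using a)] at c; cases c
    have := st.c_K1 w (lvD a2) (h.oppL a2 o) (Or.inl ek) (e5 o)
    exact st.good w (insert e L) (fun s a b => mem_insert_of_mem (cov s a b)) g0
      (by rw [sum_insert e4]; omega)
  · have := fg_ft (P.opp y) (P.opp e) (t (P.lam y)) (t (P.lam e)) (fix_upd st.toRef hf)
      (fun a => w.lam_ty e eO ((ok_O _ _ (st.tr _)).1 a)) c (fun a => by rw [eq a]; simp) e5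
    exact st.good w L cov (fo.mono this) (by omega)

end out

end St
end Pool.Agent.P.MP_11624f_co
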