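import Pool.Agent.P.MP_11624f_co.Bonus

set_option autoImplicit false
set_option linter.unusedSectionVars false
open Finset

namespace Pool.Agent.P.MP_11624f_co
open Ty

namespace St
variable {α : Type} [DecidableEq α] [Fintype α] {P : St α}

structure Cl (P : St α) : Prop where
  wf : P.WF
  ih : P.IH
  nn : P.NoNull
  nk : ∀ s, P.ty s ≠ K

structure Red (P : St α) : Prop extends P.Cl where
  noC : ∀ s, P.ty s ≠ C
  hd : ∀ x, P.ty x = A → P.Fix x ∨ P.OppL x ∨ (P.opp x = false ∧ P.ty (P.lam x) = D)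
  ed : ∀ e, P.ty e = D → P.OppL e ∨ (P.opp e = false ∧ P.ty (P.lam e) = A)
  own : ∀ σ x, ∀ e ∈ (P.gr σ).inc x, P.OppL e → P.lam e ≠ x

theorem Cl.status (h : P.Cl) {s : α} (hs : (P.ty s).live = true) :
    P.Fix s ∨ P.OppL s ∨ (P.opp s = false ∧ (P.ty (P.lam s)).live = true) := by
  have a1 := h.nn s hs
  have a2 := h.nk (P.lam s)
  have a3 := h.wf.lam_ty s (live_ne_O _ hs)
  unfold Null nullB at a1
  unfold Fix fixB OppL
  revert a1 a2 a3
  cases P.opp s <;> cases P.ty (P.lam s) <;> simp [live]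

theorem not_fix_of_live {s : α} (hs : (P.ty (P.lam s)).live = true) : ¬ P.Fix s := by
  unfold Fix fixB
  revert hs
  cases P.opp s <;> cases P.ty (P.lam s) <;> simp [live]

theorem Fix.dead {s : α} (hs : P.Fix s) : ¬ (P.ty (P.lam s)).live = true :=
  fun a => not_fix_of_live a hs

theorem Cl.r2 (h : P.Cl) {s : α} (ho : P.opp s = false) (h1 : P.ty s = A ∨ P.ty s = C)
    (h2 : P.ty (P.lam s) = A ∨ P.ty (P.lam s) = C) : P.Good 0 := by
  have nf : ¬ P.Fix s := not_fix_of_live (by rcases h2 with a | a <;> rw [a] <;> rfl)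
  rcases h1 with a1 | a1
  · have hx : s ∈ (P.gr (P.side s)).A := mem_A.2 ⟨a1, rfl⟩
    obtain ⟨u, hu⟩ := (h.wf.ok _).exists_inc hx
    obtain ⟨z, hz, hzu, hf⟩ := (h.wf.ok _).pair_ext hu
    obtain ⟨t, m, d⟩ := h.wf.del1 hx ∅ {u, z} (by simp) (by simp [insert_subset_iff, hu, hz]) hf
    have st := d.step h.wf
    have a2 := tyI hu
    have a3 := tyI hz
    have := st.c_X4 h.wf.toWF0 (neOA a1) nf
    have := st.c_F1 h.wf.toWF0 (lvD a2) (h.nn u (lvD a2)) (d.zF u (by simp) (by simp))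
    have := st.c_F1 h.wf.toWF0 (lvD a3) (h.nn z (lvD a3)) (d.zF z (by simp) (by simp))
    exact d.good h.wf [s, u, z] (by simp; grind) (by simp) (by simp)
      (st.bonusN h.wf h.ih h.nn (lvA a1) (d.hX s (by simp)) ho h2
        (fun q a b _ _ => by simpa using d.newX q a b)) (by simp; omega)
  · obtain ⟨t, m, st, b1, b2, b3, _, b5, _⟩ := h.wf.delC a1
    have hl := h.wf.l_ty s a1
    have hr := h.wf.r_ty s a1
    have := st.c_X4 h.wf.toWF0 (neOC a1) nf
    have := st.c_F1 h.wf.toWF0 (lvC hl.1) (h.nn _ (lvC hl.1)) b2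
    have := st.c_F1 h.wf.toWF0 (lvC hr.1) (h.nn _ (lvC hr.1)) b3
    have c1 := h.wf.l1 s a1
    have c2 := h.wf.l2 s a1
    have c3 := h.wf.toWF0.r1 a1
    exact st.goodL h.wf.toWF0 [s, P.l s, P.r s] (by simp; grind) (fun s a b => by simp [b5 s a b])
      (st.bonusN h.wf h.ih h.nn (lvC a1) b1 ho h2 (fun q a b _ _ => b5 q a b)) (by simp; omega)

theorem Cl.r3 (h : P.Cl)
    (hA : ∀ x, P.ty x = A → P.opp x = false → (P.ty (P.lam x)).live = true → P.ty (P.lam x) = D)
    (hD : ∀ e, P.ty e = D → ¬ P.Fix e)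
    {e : α} (he : P.ty e = D) (ho : P.opp e = false)
    (h2 : P.ty (P.lam e) = D ∨ P.ty (P.lam e) = C) : P.Good 0 := by
  set σ := P.side e
  have ok := h.wf.ok σ
  have hg : e ∈ (P.gr σ).E := mem_E.2 ⟨he, rfl⟩
  have g1 : e ∈ (P.gr σ).inc (P.f e) := Gr.mem_inc.2 ⟨hg, Or.inl rfl⟩
  have g2 : e ∈ (P.gr σ).inc (P.g e) := Gr.mem_inc.2 ⟨hg, Or.inr rfl⟩
  have hne : P.f e ≠ P.g e := ok.ne e hg
  generalize P.f e = x at g1 hne
  generalize P.g e = y at g2 hne
  have caseA : ∀ x, e ∈ (P.gr σ).inc x → ¬ P.Fix x → P.Good 0 := by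
    intro x g1 nf
    have xA := ok.inc_A g1
    obtain ⟨z, hz, hzu, hF⟩ := ok.pair_ext g1
    obtain ⟨t, m, d⟩ := h.wf.del1 xA ∅ {e, z} (by simp) (by simp [insert_subset_iff, g1, hz]) hF
    have st := d.step h.wf
    have a1 := tyA xA
    have a3 := tyI hz
    have := st.c_X4 h.wf.toWF0 (neOA a1) nf
    have := st.c_F1 h.wf.toWF0 (lvD he) (h.nn e (lvD he)) (d.zF e (by simp) (by simp))
    have := st.c_F1 h.wf.toWF0 (lvD a3) (h.nn z (lvD a3)) (d.zF z (by simp) (by simp))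
    exact d.good h.wf [x, e, z] (by simp; grind) (by simp) (by simp)
      (st.bonus h.wf h.ih h.nn (lvD he) (d.zF e (by simp) (by simp)) ho h2
        (fun q a b => by have := d.newX q a b; simp at this; rw [this]; exact hA x a1))
      (by simp; omega)
  by_cases f1 : P.Fix x
  swap
  · exact caseA x g1 f1
  by_cases f2 : P.Fix y
  swap
  · exact caseA y g2 f2
  have xA := ok.inc_A g1
  have yA := ok.inc_A g2
  have a1 := tyA xA
  have a4 := tyA yA
  by_cases b2 : (P.gr σ).Big y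
  · obtain ⟨z, hz, z', hz', e1, e2, e3, hF⟩ := ok.triple_ext b2 g2
    obtain ⟨t, m, d⟩ := h.wf.del1 yA ∅ {e, z, z'} (by simp)
      (by simp [insert_subset_iff, g2, hz, hz']) hF
    have st := d.step h.wf
    have a3 := tyI hz
    have a5 := tyI hz'
    have := st.c_X5 h.wf.toWF0 (neOA a4)
    have := st.c_F1 h.wf.toWF0 (lvD he) (h.nn e (lvD he)) (d.zF e (by simp) (by simp))
    have := st.c_F1 h.wf.toWF0 (lvD a3) (h.nn z (lvD a3)) (d.zF z (by simp) (by simp))
    have := st.c_F1 h.wf.toWF0 (lvD a5) (h.nn z' (lvD a5)) (d.zF z' (by simp) (by simp))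
    exact d.good h.wf [y, e, z, z'] (by simp; grind) (by simp) (by simp)
      (st.bonus h.wf h.ih h.nn (lvD he) (d.zF e (by simp) (by simp)) ho h2
        (fun q a b => by have := d.newX q a b; simp at this; rw [this]; exact hA y a4))
      (by simp; omega)
  obtain ⟨z, hz, hzu, hF⟩ := ok.pair_ext g1
  obtain ⟨t, m, d⟩ := h.wf.del1 xA ∅ {e, z} (by simp) (by simp [insert_subset_iff, g1, hz]) hF
  obtain ⟨Q, q1, q2, q3⟩ := Gr.not_big b2
  have a3 := tyI hz
  rcases d.tightA (Q.erase x) (erase_subset_erase x q1) (Gr.tight_other q2 q3 g1 g2 hz hzu.symm)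
    y (mem_erase.2 ⟨hne.symm, q2⟩) with hk | hk
  · obtain ⟨w, t2, st, w1, _, w3, w4, w5, w6, w7⟩ := d.kill h.wf yA hk
    simp only [mem_insert, mem_singleton, not_or] at w3
    have a5 := tyI w1
    have te : t2 e = F := (w6 e (by grind) (by grind)).trans (d.zF e (by simp) (by simp))
    have := st.c_X5 h.wf.toWF0 (neOA a1)
    have := st.c_F1 h.wf.toWF0 (lvD he) (h.nn e (lvD he)) te
    have := st.c_F1 h.wf.toWF0 (lvD a3) (h.nn z (lvD a3))
      ((w6 z (by grind) (by grind)).trans (d.zF z (by simp) (by simp)))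
    have := st.c_F5 h.wf.toWF0 (lvA a4) f2 w4
    have := st.c_X4 h.wf.toWF0 (neOD a5) (hD w a5)
    have w8 : ∀ s, t2 s = X → P.ty s ≠ X → s = w ∨ s = x := fun s a b => by simpa using w7 s a b
    have g2 : (P.upd t2 m).Good 2 := by
      by_cases c : P.opp w = false ∧ (P.ty (P.lam w) = A ∨ P.ty (P.lam w) = C)
      · refine st.bonusN h.wf h.ih h.nn (lvD a5) w5 c.1 c.2 fun q a b _ c2 => ?_
        rcases w8 q a b with rfl | rfl
        · rfl
        · exact absurd c2 f1.dead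
      · refine st.bonus h.wf h.ih h.nn (lvD he) te ho h2 fun q a b c1 c2 => ?_
        rcases w8 q a b with rfl | rfl
        · revert c c2; rw [c1]; cases P.ty (P.lam q) <;> simp [live]
        · exact absurd c2 f1.dead
    exact st.goodL h.wf.toWF0 [x, e, z, y, w] (by simp; grind)
      (fun s a b => by have := w8 s a b; simp; grind) g2 (by simp; omega)
  · have st := d.step h.wf
    have := st.c_X5 h.wf.toWF0 (neOA a1)
    have := st.c_F5 h.wf.toWF0 (lvA a4) f2 hk
    exact d.good h.wf [x, y] (by simp; grind) (by simp) (by simp)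
      (st.good0 h.ih (lvA a1) (d.hX x (by simp))) (by simp; omega)

theorem Cl.rc (h : P.Cl) (hC : ∀ c, P.ty c = C → P.OppL c) {c : α} (hc : P.ty c = C) :
    P.Good 0 := by
  have w := h.wf
  obtain ⟨t, m, st, b1, b2, b3, b4, b5, _⟩ := w.delC hc
  have hl := w.l_ty c hc
  have hr := w.r_ty c hc
  have hll := w.l_ty _ hl.1
  have hrr := w.r_ty _ hr.1
  have c1 := w.l1 c hc
  have c2 := w.l2 c hc
  have c3 := w.toWF0.r1 hc
  have c4 := w.l3 c hc
  have c5 := w.l4 c hc
  have c6 : P.l (P.l c) ≠ c := by have := w.l2 _ hl.1; rwa [w.rl c hc] at this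
  have c7 := w.l1 _ hl.1
  have c8 : P.r (P.r c) ≠ c := by have := w.l2 _ hr.1; rw [w.lr c hc] at this; exact this.symm
  have c9 := w.toWF0.r1 hr.1
  have c10 : P.r (P.r c) ≠ P.l c := by
    have := w.l3 _ hr.1; rw [w.lr c hc] at this; exact this.symm
  have cO := neOC hc
  have nx : ∀ s, (P.ty s).live = true → s ≠ c → t s ≠ X := fun s a b d =>
    b (b5 s d (by intro e; rw [e] at a; cases a))
  have := st.c_X3 w.toWF0 cO (hC c hc) (nx _ (hC c hc).2 (w.lam_ne c cO))
  have := st.c_F1 w.toWF0 (lvC hl.1) (h.nn _ (lvC hl.1)) b2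
  have := st.c_F1 w.toWF0 (lvC hr.1) (h.nn _ (lvC hr.1)) b3
  have key : ∀ v, P.ty v = C → P.cid v = P.cid c → v ≠ c → v ≠ P.l c → v ≠ P.r c → P.lam v ≠ c →
      P.Good 0 := by
    intro v v1 v2 v3 v4 v5 v6
    have := st.c_K1 w.toWF0 (lvC v1) (hC v v1) (b4 v v1 v2 v3) (nx _ (hC v v1).2 v6)
    exact st.goodL w.toWF0 [c, P.l c, P.r c, v] (by simp; grind) (fun s a b => by simp [b5 s a b])
      (st.good0 h.ih (lvC hc) b1) (by simp; omega)
  by_cases e : P.lam (P.l (P.l c)) = c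
  · refine key _ hrr.1 (hrr.2.trans hr.2) c8 c10 c9 fun e' => c5 ?_
    exact w.toWF0.lam_inj (neOC hll.1) (neOC hrr.1) (e.trans e'.symm)
  · exact key _ hll.1 (hll.2.trans hl.2) c6 c7 c4 e

theorem Cl.r4 (h : P.Cl) {σ : Bool} {x e : α} (he : e ∈ (P.gr σ).inc x) (ho : P.OppL e)
    (hl : P.lam e = x) : P.Good 0 := by
  have ok := h.wf.ok σ
  have xA := ok.inc_A he
  obtain ⟨t, m, d⟩ := h.wf.del1 xA ∅ {e} (by simp) (by simp [he])
    (ok.feas_single (erase_subset _ _) e)
  have st := d.step h.wf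
  have a1 := tyA xA
  have a2 := tyI he
  have := st.c_pair h.wf.toWF0 (lvD a2) ho (d.zF e (by simp) (by simp))
  rw [hl] at this
  exact d.good h.wf [x, e] (by simp; grind) (by simp) (by simp)
    (st.good0 h.ih (lvA a1) (d.hX x (by simp))) (by simp; omega)

theorem Cl.red (h : P.Cl) (hg : ¬ P.Good 0) : P.Red := by
  have hD : ∀ e, P.ty e = D → ¬ P.Fix e := fun e he hf =>
    hg ((h.wf.b2 h.ih hf (mem_E.2 ⟨he, rfl⟩) fun y hy => h.nn y (lvA (tyA hy))).mono (by omega))
  have hC : ∀ e, P.ty e = C → ¬ P.Fix e := fun e he hf =>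
    hg ((h.wf.b2c h.ih he hf fun y hy _ => h.nn y (lvC hy)).mono (by omega))
  have l3 : ∀ s, (P.ty s).live = true → P.ty s = A ∨ P.ty s = D ∨ P.ty s = C := by
    intro s; cases P.ty s <;> simp [live]
  have hA : ∀ x, P.ty x = A → P.opp x = false → (P.ty (P.lam x)).live = true →
      P.ty (P.lam x) = D := by
    intro x a b c
    rcases l3 _ c with d | d | d
    · exact absurd (h.r2 b (Or.inl a) (Or.inl d)) hg
    · exact d
    · exact absurd (h.r2 b (Or.inl a) (Or.inr d)) hg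
  have hE : ∀ e, P.ty e = D → P.OppL e ∨ (P.opp e = false ∧ P.ty (P.lam e) = A) := by
    intro e a
    rcases h.status (lvD a) with b | b | b
    · exact absurd b (hD e a)
    · exact Or.inl b
    · rcases l3 _ b.2 with d | d | d
      · exact Or.inr ⟨b.1, d⟩
      · exact absurd (h.r3 hA hD a b.1 (Or.inl d)) hg
      · exact absurd (h.r3 hA hD a b.1 (Or.inr d)) hg
  have hCO : ∀ c, P.ty c = C → P.OppL c := by
    intro c a
    rcases h.status (lvC a) with b | b | b
    · exact absurd b (hC c a)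
    · exact b
    · rcases l3 _ b.2 with d | d | d
      · exact absurd (h.r2 b.1 (Or.inr a) (Or.inl d)) hg
      · exact absurd (h.r3 hA hD d ((h.wf.toWF0.opp_lam (neOC a)).trans b.1)
          (Or.inr (by rw [h.wf.lam_lam c (neOC a)]; exact a))) hg
      · exact absurd (h.r2 b.1 (Or.inr a) (Or.inr d)) hg
  refine ⟨h, fun c a => hg (h.rc hCO a), fun x a => ?_, hE, fun σ x e he ho hl => hg (h.r4 he ho hl)⟩
  rcases h.status (lvA a) with b | b | b
  · exact Or.inl b
  · exact Or.inr (Or.inl b)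
  · exact Or.inr (Or.inr ⟨b.1, hA x a b.1 b.2⟩)

end St
end Pool.Agent.P.MP_11624f_co
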