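import Pool.Agent.P.MP_11624f_co.Glob

set_option autoImplicit false
set_option linter.unusedSectionVars false
open Finset

namespace Pool.Agent.P.MP_11624f_co

inductive Ty | O | X | F | K | A | D | C
  deriving DecidableEq, Fintype

namespace Ty
def live : Ty → Bool
  | .A => true | .D => true | .C => true | _ => false
def wt : Ty → ℕ
  | .A => 2 | .D => 2 | .C => 2 | .K => 1 | _ => 0
def ok (t t' : Ty) : Bool := t' = t || (t.live && (t' = X || t' = F || t' = K))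
end Ty
open Ty

def phi (o : Bool) (t u : Ty) : ℤ :=
  if t = O then 0 else
  if o then
    (if t = F ∨ u = F then 10 else if t = X ∧ u = X then 0 else if t = X ∨ u = X then 5
      else if t = K ∧ u = K then 10 else if t = K ∨ u = K then 9 else 8)
  else
    (if t = X ∨ u = X then 0 else if t = F ∧ u = F then 10 else if t = F ∨ u = F then 5
      else if t = K ∧ u = K then 5 else 4)

def cc (o : Bool) (t t' u u' : Ty) : ℤ :=
  if t' = t then 0 else if u' = u then phi o t' u - phi o t u else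
  if t' = X ∧ u' = X then -4 else if t' = X then -3 else if u' = X then phi true X t' - 5 else 1

def nullB (o : Bool) (u : Ty) : Bool := if o then u = F else u = X
def fixB (o : Bool) (u : Ty) : Bool := if o then u = X else u = F

def hyp (o : Bool) (t t' u u' : Ty) : Bool :=
  t.ok t' && u.ok u' && t ≠ O && u ≠ O && (o || t' = t || u' = u)

theorem cc_le : ∀ o t t' u u', hyp o t t' u u' →
    cc o t t' u u' + cc o u u' t t' ≤ phi o t' u' - phi o t u := by decide +kernel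
theorem cc_nonneg : ∀ o t t' u u', hyp o t t' u u' → (t' ≠ X ∨ t = X) → 0 ≤ cc o t t' u u' := by
  decide +kernel
theorem cc_X5 : ∀ o t t' u u', hyp o t t' u u' → -5 ≤ cc o t t' u u' := by decide +kernel
theorem cc_X4 : ∀ o t t' u u', hyp o t t' u u' → fixB o u = false → -4 ≤ cc o t t' u u' := by
  decide +kernel
theorem cc_X3 : ∀ t t' u u', hyp true t t' u u' → u.live → u' ≠ X → -3 ≤ cc true t t' u u' := by
  decide +kernel
theorem cc_null : ∀ o t t' u u', hyp o t t' u u' → nullB o u → 0 ≤ cc o t t' u u' := by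
  decide +kernel
theorem cc_F1 : ∀ o t t' u u', hyp o t t' u u' → t.live → nullB o u = false → t' = F →
    1 ≤ cc o t t' u u' := by decide +kernel
theorem cc_F5 : ∀ o t t' u u', hyp o t t' u u' → t.live → fixB o u → t' = F →
    5 ≤ cc o t t' u u' := by decide +kernel
theorem cc_K1 : ∀ t t' u u', hyp true t t' u u' → t.live → u.live → (t' = K ∨ t' = F) → u' ≠ X →
    1 ≤ cc true t t' u u' := by decide +kernel
theorem cc_pair : ∀ t t' u u', hyp true t t' u u' → t.live → u.live → t' = F →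
    2 ≤ cc true t t' u u' + cc true u u' t t' := by decide +kernel

structure St (α : Type) where
  ty : α → Ty
  side : α → Bool
  lam : α → α
  mate : α → α
  f : α → α
  g : α → α
  l : α → α
  r : α → α
  cid : α → α
  m : α → α → α

namespace St
variable {α : Type} [DecidableEq α] [Fintype α] (P : St α)

def opp (s : α) : Bool := P.side s == P.side (P.lam s)

def gr (σ : Bool) : Gr α :=
  ⟨univ.filter (fun s => P.ty s = A ∧ P.side s = σ),
   univ.filter (fun s => P.ty s = D ∧ P.side s = σ), P.f, P.g⟩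

structure WF0 : Prop where
  lam_ty : ∀ s, P.ty s ≠ O → P.ty (P.lam s) ≠ O
  lam_lam : ∀ s, P.ty s ≠ O → P.lam (P.lam s) = s
  lam_ne : ∀ s, P.ty s ≠ O → P.lam s ≠ s
  mate_ty : ∀ s, P.ty s = K → P.ty (P.mate s) = K
  mate_mate : ∀ s, P.ty s = K → P.mate (P.mate s) = s
  mate_ne : ∀ s, P.ty s = K → P.mate s ≠ s
  mate_side : ∀ s, P.ty s = K → P.side (P.mate s) = P.side s
  f_ty : ∀ e, P.ty e = D → P.ty (P.f e) = A ∧ P.side (P.f e) = P.side e
  g_ty : ∀ e, P.ty e = D → P.ty (P.g e) = A ∧ P.side (P.g e) = P.side e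
  fg : ∀ e, P.ty e = D → P.f e ≠ P.g e
  l_ty : ∀ c, P.ty c = C → P.ty (P.l c) = C ∧ P.cid (P.l c) = P.cid c
  r_ty : ∀ c, P.ty c = C → P.ty (P.r c) = C ∧ P.cid (P.r c) = P.cid c
  c_side : ∀ c v, P.ty c = C → P.ty v = C → P.cid v = P.cid c → P.side v = P.side c
  rl : ∀ c, P.ty c = C → P.r (P.l c) = c
  lr : ∀ c, P.ty c = C → P.l (P.r c) = c
  l1 : ∀ c, P.ty c = C → P.l c ≠ c
  l2 : ∀ c, P.ty c = C → P.l c ≠ P.r c
  l3 : ∀ c, P.ty c = C → P.l (P.l c) ≠ P.r c
  l4 : ∀ c, P.ty c = C → P.l (P.l c) ≠ P.r (P.r c)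
  m_ok : ∀ c v, P.ty c = C → P.ty v = C → P.cid v = P.cid c → v ≠ c → v ≠ P.l c → v ≠ P.r c →
    P.ty (P.m c v) = C ∧ P.cid (P.m c v) = P.cid c ∧ P.m c v ≠ c ∧ P.m c v ≠ P.l c ∧
      P.m c v ≠ P.r c ∧ P.m c v ≠ v ∧ P.m c (P.m c v) = v

structure WF : Prop extends P.WF0 where
  sur : ∀ σ, ∀ Y ⊆ (P.gr σ).A, Y.Nonempty → Y.card + 1 ≤ ((P.gr σ).nb Y).card

structure Sat (S : Finset α) : Prop where
  x : ∀ s, P.ty s = X → s ∈ S
  k : ∀ s, P.ty s = K → s ∈ S ∨ P.mate s ∈ S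
  d : ∀ e, P.ty e = D → e ∈ S ∨ P.f e ∈ S ∨ P.g e ∈ S
  a : ∀ y, P.ty y = A → y ∈ S ∨ ∃ e, P.ty e = D ∧ (P.f e = y ∨ P.g e = y) ∧ e ∈ S
  c : ∀ c0, P.ty c0 = C → ∃ c, P.ty c = C ∧ P.cid c = P.cid c0 ∧ c ∈ S ∧
    ∀ v, P.ty v = C → P.cid v = P.cid c → v ≠ c → v ≠ P.l c → v ≠ P.r c → v ∈ S ∨ P.m c v ∈ S
  o : ∀ s, P.ty s ≠ O → P.opp s = true → s ∈ S ∨ P.lam s ∈ S

def vs (S : Finset α) (s : α) : ℤ :=
  if P.ty s = O then 0 else if P.opp s then (if s ∉ S ∨ P.lam s ∉ S then 10 else 0)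
  else (if s ∉ S ∧ P.lam s ∉ S then 10 else 0)

def val (S : Finset α) : ℤ := ∑ s, P.vs S s
def Phi : ℤ := ∑ s, phi (P.opp s) (P.ty s) (P.ty (P.lam s))
def Good (k : ℤ) : Prop := ∃ S, P.Sat S ∧ P.Phi + 2 * k ≤ P.val S
def mu : ℕ := ∑ s, (P.ty s).wt
def IH : Prop := ∀ P' : St α, P'.WF → P'.mu < P.mu → P'.Good 0

def upd (t : α → Ty) (m : α → α) : St α := { P with ty := t, mate := m }

@[simp] theorem upd_ty (t : α → Ty) (m : α → α) : (P.upd t m).ty = t := rfl
@[simp] theorem upd_mate (t : α → Ty) (m : α → α) : (P.upd t m).mate = m := rfl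
@[simp] theorem upd_side (t : α → Ty) (m : α → α) : (P.upd t m).side = P.side := rfl
@[simp] theorem upd_lam (t : α → Ty) (m : α → α) : (P.upd t m).lam = P.lam := rfl
@[simp] theorem upd_f (t : α → Ty) (m : α → α) : (P.upd t m).f = P.f := rfl
@[simp] theorem upd_g (t : α → Ty) (m : α → α) : (P.upd t m).g = P.g := rfl
@[simp] theorem upd_l (t : α → Ty) (m : α → α) : (P.upd t m).l = P.l := rfl
@[simp] theorem upd_r (t : α → Ty) (m : α → α) : (P.upd t m).r = P.r := rfl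
@[simp] theorem upd_cid (t : α → Ty) (m : α → α) : (P.upd t m).cid = P.cid := rfl
@[simp] theorem upd_m (t : α → Ty) (m : α → α) : (P.upd t m).m = P.m := rfl
@[simp] theorem upd_opp (t : α → Ty) (m : α → α) (s : α) : (P.upd t m).opp s = P.opp s := rfl

def Null (s : α) : Prop := nullB (P.opp s) (P.ty (P.lam s)) = true
def Fix (s : α) : Prop := fixB (P.opp s) (P.ty (P.lam s)) = true
def OppL (s : α) : Prop := P.opp s = true ∧ (P.ty (P.lam s)).live = true

/-- a refinement of the constraints, keeping the links -/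
structure Ref (t : α → Ty) (m : α → α) : Prop where
  tr : ∀ s, (P.ty s).ok (t s) = true
  sat : ∀ S, (P.upd t m).Sat S → P.Sat S
  wf : (P.upd t m).WF

structure Step (σ : Bool) (t : α → Ty) (m : α → α) : Prop extends P.Ref t m where
  off : ∀ s, P.side s ≠ σ → t s = P.ty s

def c (t : α → Ty) (s : α) : ℤ := cc (P.opp s) (P.ty s) (t s) (P.ty (P.lam s)) (t (P.lam s))

variable {P}

theorem mem_A {σ : Bool} {s : α} : s ∈ (P.gr σ).A ↔ P.ty s = A ∧ P.side s = σ := by simp [gr]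
theorem mem_E {σ : Bool} {s : α} : s ∈ (P.gr σ).E ↔ P.ty s = D ∧ P.side s = σ := by simp [gr]
@[simp] theorem gr_f (σ : Bool) : (P.gr σ).f = P.f := rfl
@[simp] theorem gr_g (σ : Bool) : (P.gr σ).g = P.g := rfl

theorem WF.ok (h : P.WF) (σ : Bool) : (P.gr σ).Ok := by
  refine ⟨fun e he => ?_, fun e he => ?_, fun e he => h.fg e (mem_E.1 he).1, h.sur σ⟩
  · rw [mem_E] at he; rw [mem_A]; have := h.f_ty e he.1
    exact ⟨this.1, this.2.trans he.2⟩
  · rw [mem_E] at he; rw [mem_A]; have := h.g_ty e he.1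
    exact ⟨this.1, this.2.trans he.2⟩

theorem WF0.opp_lam (h : P.WF0) {s : α} (hs : P.ty s ≠ O) : P.opp (P.lam s) = P.opp s := by
  unfold opp; rw [h.lam_lam s hs]; cases P.side s <;> cases P.side (P.lam s) <;> rfl

theorem WF0.lam_inj (h : P.WF0) {s s' : α} (hs : P.ty s ≠ O) (hs' : P.ty s' ≠ O)
    (e : P.lam s = P.lam s') : s = s' := by
  rw [← h.lam_lam s hs, e, h.lam_lam s' hs']

theorem ok_O : ∀ t t' : Ty, t.ok t' = true → (t' = O ↔ t = O) := by decide
theorem ok_wt : ∀ t t' : Ty, t.ok t' = true → t'.wt ≤ t.wt := by decide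
theorem ok_wt' : ∀ t t' : Ty, t.ok t' = true → t' ≠ t → t'.wt < t.wt := by decide
theorem ok_live : ∀ t t' : Ty, t.ok t' = true → t'.live = true → t' = t := by decide
theorem ok_dead : ∀ t t' : Ty, t.ok t' = true → t.live = false → t' = t := by decide
theorem live_ne_O : ∀ t : Ty, t.live = true → t ≠ O := by decide

theorem Good.mono {k k' : ℤ} (h : P.Good k) (hk : k' ≤ k) : P.Good k' := by
  obtain ⟨S, h1, h2⟩ := h; exact ⟨S, h1, by omega⟩

theorem WF0.sum_lam (h : P.WF0) (c : α → ℤ) (hc : ∀ s, P.ty s = O → c s = 0) :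
    ∑ s, (if P.ty s = O then 0 else c (P.lam s)) = ∑ s, c s := by
  have hinv : Function.Involutive (fun s => if P.ty s = O then s else P.lam s) := by
    intro s
    by_cases hs : P.ty s = O
    · simp [hs]
    · simp [hs, h.lam_ty s hs, h.lam_lam s hs]
  rw [← Equiv.sum_comp hinv.toPerm c]
  refine sum_congr rfl fun s _ => ?_
  by_cases hs : P.ty s = O
  · simp [hs, hc s hs]
  · simp [hs]

theorem WF0.net_of_claims (h : P.WF0) {t : α → Ty} {m : α → α} (hO : ∀ s, P.ty s = O → t s = O)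
    (c : α → ℤ) (hc : ∀ s, P.ty s = O → c s = 0)
    (hl : ∀ s, P.ty s ≠ O → c s + c (P.lam s) ≤
      phi (P.opp s) (t s) (t (P.lam s)) - phi (P.opp s) (P.ty s) (P.ty (P.lam s))) :
    P.Phi + 2 * ∑ s, c s ≤ (P.upd t m).Phi := by
  have h1 := h.sum_lam c hc
  have h2 : ∑ s, (phi (P.opp s) (P.ty s) (P.ty (P.lam s)) +
      (c s + if P.ty s = O then 0 else c (P.lam s))) ≤ (P.upd t m).Phi := by
    unfold Phi
    refine sum_le_sum fun s _ => ?_
    by_cases hs : P.ty s = O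
    · simp [hs, hc s hs, hO s hs, phi]
    · have := hl s hs
      simp only [hs, if_false, upd_opp, upd_ty, upd_lam]; omega
  rw [sum_add_distrib, sum_add_distrib, h1] at h2
  unfold Phi at *; omega

theorem Ref.good {t : α → Ty} {m : α → α} (hr : P.Ref t m) {j k : ℤ}
    (hn : P.Phi + 2 * k ≤ (P.upd t m).Phi) (hg : (P.upd t m).Good j) : P.Good (j + k) := by
  obtain ⟨S, h1, h2⟩ := hg
  refine ⟨S, hr.sat S h1, ?_⟩
  have : (P.upd t m).val S = P.val S := by
    unfold val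
    refine sum_congr rfl fun s _ => ?_
    unfold vs
    simp only [upd_ty, upd_opp, upd_lam, ok_O _ _ (hr.tr s)]
    rfl
  omega

theorem Ref.mu_le {t : α → Ty} {m : α → α} (hr : P.Ref t m) : (P.upd t m).mu ≤ P.mu :=
  sum_le_sum fun s _ => ok_wt _ _ (hr.tr s)

theorem Ref.mu_lt {t : α → Ty} {m : α → α} (hr : P.Ref t m) {s : α} (hs : t s ≠ P.ty s) :
    (P.upd t m).mu < P.mu :=
  sum_lt_sum (fun s _ => ok_wt _ _ (hr.tr s)) ⟨s, mem_univ _, ok_wt' _ _ (hr.tr s) hs⟩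

theorem Ref.ih {t : α → Ty} {m : α → α} (hr : P.Ref t m) (h : P.IH) : (P.upd t m).IH :=
  fun P' h1 h2 => h P' h1 (h2.trans_le hr.mu_le)

theorem Ref.good0 {t : α → Ty} {m : α → α} (hr : P.Ref t m) (h : P.IH) {s : α}
    (hs : t s ≠ P.ty s) : (P.upd t m).Good 0 := h _ hr.wf (hr.mu_lt hs)

theorem Step.hyp {σ : Bool} {t : α → Ty} {m : α → α} (st : P.Step σ t m) (h : P.WF0) {s : α}
    (hs : P.ty s ≠ O) :
    hyp (P.opp s) (P.ty s) (t s) (P.ty (P.lam s)) (t (P.lam s)) = true := by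
  unfold MP_11624f_co.hyp
  simp only [Bool.and_eq_true, Bool.or_eq_true, decide_eq_true_eq]
  refine ⟨⟨⟨⟨st.tr s, st.tr _⟩, hs⟩, h.lam_ty s hs⟩, ?_⟩
  by_cases h1 : P.side s = σ
  · by_cases h2 : P.side (P.lam s) = σ
    · left; left; simp [opp, h1, h2]
    · right; exact st.off _ h2
  · left; right; exact st.off _ h1

section facts
variable {σ : Bool} {t : α → Ty} {m : α → α} (st : P.Step σ t m) (h : P.WF0) {s : α}
include st h

theorem Step.c_nonneg (hs : t s ≠ X ∨ P.ty s = X) : 0 ≤ P.c t s := by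
  by_cases h0 : P.ty s = O
  · have : t s = P.ty s := ok_dead _ _ (st.tr s) (by rw [h0]; rfl)
    simp [c, cc, this]
  · exact cc_nonneg _ _ _ _ _ (st.hyp h h0) hs

theorem Step.c_X5 (hs : P.ty s ≠ O) : -5 ≤ P.c t s := cc_X5 _ _ _ _ _ (st.hyp h hs)

theorem Step.c_X4 (hs : P.ty s ≠ O) (hf : ¬ P.Fix s) : -4 ≤ P.c t s :=
  cc_X4 _ _ _ _ _ (st.hyp h hs) (by simpa [Fix] using hf)

theorem Step.c_X3 (hs : P.ty s ≠ O) (ho : P.OppL s) (hx : t (P.lam s) ≠ X) : -3 ≤ P.c t s := by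
  have := st.hyp h hs
  unfold c; rw [ho.1] at this ⊢
  exact cc_X3 _ _ _ _ this ho.2 hx

theorem Step.c_null (hs : P.ty s ≠ O) (hf : P.Null s) : 0 ≤ P.c t s :=
  cc_null _ _ _ _ _ (st.hyp h hs) hf

theorem Step.c_F1 (hs : (P.ty s).live = true) (hf : ¬ P.Null s) (ht : t s = F) : 1 ≤ P.c t s :=
  cc_F1 _ _ _ _ _ (st.hyp h (live_ne_O _ hs)) hs (by simpa [Null] using hf) ht

theorem Step.c_F5 (hs : (P.ty s).live = true) (hf : P.Fix s) (ht : t s = F) : 5 ≤ P.c t s :=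
  cc_F5 _ _ _ _ _ (st.hyp h (live_ne_O _ hs)) hs hf ht

theorem Step.c_K1 (hs : (P.ty s).live = true) (ho : P.OppL s) (ht : t s = K ∨ t s = F)
    (hx : t (P.lam s) ≠ X) : 1 ≤ P.c t s := by
  have := st.hyp h (live_ne_O _ hs)
  unfold c; rw [ho.1] at this ⊢
  exact cc_K1 _ _ _ _ this hs ho.2 ht hx

theorem Step.c_pair (hs : (P.ty s).live = true) (ho : P.OppL s) (ht : t s = F) :
    2 ≤ P.c t s + P.c t (P.lam s) := by
  have h0 := live_ne_O _ hs
  have := st.hyp h h0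
  unfold c; rw [h.opp_lam h0, h.lam_lam s h0]; rw [ho.1] at this ⊢
  exact cc_pair _ _ _ _ this hs ho.2 ht

theorem Step.net (L : Finset α) (hL : ∀ s, t s = X → P.ty s ≠ X → s ∈ L) :
    P.Phi + 2 * ∑ s ∈ L, P.c t s ≤ (P.upd t m).Phi := by
  have h1 := h.net_of_claims (t := t) (m := m) (fun s hs => (ok_O _ _ (st.tr s)).2 hs) (P.c t)
    (fun s hs => by
      have : t s = P.ty s := ok_dead _ _ (st.tr s) (by rw [hs]; rfl)
      simp [c, cc, this])
    (fun s hs => by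
      have := cc_le _ _ _ _ _ (st.hyp h hs)
      unfold c; rw [h.opp_lam hs, h.lam_lam s hs]; exact this)
  have h2 : ∑ s ∈ L, P.c t s ≤ ∑ s, P.c t s :=
    sum_le_sum_of_subset_of_nonneg (subset_univ _) fun s _ hs => st.c_nonneg h (by
      by_contra hc; push Not at hc; exact hs (hL s hc.1 hc.2))
  omega

theorem Step.good (L : Finset α) (hL : ∀ s, t s = X → P.ty s ≠ X → s ∈ L) {j k : ℤ}
    (hg : (P.upd t m).Good j) (hk : k ≤ j + ∑ s ∈ L, P.c t s) : P.Good k :=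
  (st.toRef.good (st.net h L hL) hg).mono hk

theorem Step.goodL (L : List α) (hnd : L.Nodup) (hL : ∀ s, t s = X → P.ty s ≠ X → s ∈ L) {j k : ℤ}
    (hg : (P.upd t m).Good j) (hk : k ≤ j + (L.map (P.c t)).sum) : P.Good k :=
  st.good h L.toFinset (fun s a b => List.mem_toFinset.2 (hL s a b)) hg
    (by rwa [List.sum_toFinset _ hnd])

end facts

end St
end Pool.Agent.P.MP_11624f_co
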